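import Mathlib
import Pool.Agent.Lib.MP_562b47_mp.Cc.Claim
import Pool.Agent.Lib.MP_562b47_mp.Comm2

/-!
Families of operators which depend on the potential and on an independent stationary environment:
definitions.  (Anderson model, MP_562b47_mp.)
-/

open MeasureTheory Set Filter Topology Complex
open scoped Real ENNReal NNReal InnerProductSpace

set_option linter.unusedSectionVars false

namespace Pool.Agent.Lib.MP_562b47_mp

variable {Λ : Type*} [DecidableEq Λ] [AddCommGroup Λ] [Countable Λ] {Y : Type*}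
  [MeasurableSpace Y] {E : Type*}
  [NormedAddCommGroup E] [InnerProductSpace ℂ E] [CompleteSpace E] {c : ℝ} {e : Λ → E}
  {ν : Measure Y} {τ : Λ → Y → Y}

/-- a measure preserving action of `Λ` on the probability space `(Y, ν)` -/
structure Env (ν : Measure Y) (τ : Λ → Y → Y) : Prop where
  prob : IsProbabilityMeasure ν
  mp : ∀ a, MeasurePreserving (τ a) ν ν
  add : ∀ a b y, τ (a + b) y = τ a (τ b y)
  zero : ∀ y, τ 0 y = y

/-- joint law of the potential and the environment -/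
noncomputable def PY (Λ : Type*) (c : ℝ) (ν : Measure Y) : Measure ((Λ → ℝ) × Y) :=
  (PP Λ c).prod ν

/-- joint translation -/
def sh (τ : Λ → Y → Y) (a : Λ) (p : (Λ → ℝ) × Y) : (Λ → ℝ) × Y :=
  (fun j => p.1 (j + a), τ a p.2)

/-- the measure on ((potential, environment), new value at `0`, energy) -/
noncomputable def M4 (Λ : Type*) (c : ℝ) (ν : Measure Y) : Measure ((((Λ → ℝ) × Y) × ℝ) × ℝ) :=
  ((PY Λ c ν).prod (unif c)).prod kap

/-- the resampled potential, same environment -/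
def yup (q : (((Λ → ℝ) × Y) × ℝ) × ℝ) : (Λ → ℝ) × Y :=
  (Function.update q.1.1.1 0 q.1.2, q.1.1.2)

/-- forget the environment -/
def fgt (q : (((Λ → ℝ) × Y) × ℝ) × ℝ) : ((Λ → ℝ) × ℝ) × ℝ := ((q.1.1.1, q.1.2), q.2)

theorem up_fgt (q : (((Λ → ℝ) × Y) × ℝ) × ℝ) : up (fgt q) = (yup q).1 := rfl

theorem PY_prob (Λ : Type*) {c : ℝ} (hc : 0 < c) (hν : IsProbabilityMeasure ν) :
    IsProbabilityMeasure (PY Λ c ν) := by
  have := PP_prob Λ hc
  unfold PY; infer_instance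

theorem M4_prob (Λ : Type*) {c : ℝ} (hc : 0 < c) (hν : IsProbabilityMeasure ν) :
    IsProbabilityMeasure (M4 Λ c ν) := by
  have := PY_prob (Y := Y) Λ hc hν
  have := unif_prob hc
  unfold M4; infer_instance

theorem mp_sh {c : ℝ} (hc : 0 < c) (hE : Env ν τ) (a : Λ) :
    MeasurePreserving (sh τ a) (PY Λ c ν) (PY Λ c ν) := by
  have := PP_prob Λ hc
  have := unif_prob hc
  have := hE.prob
  exact (measurePreserving_shift (Λ := Λ) (unif c) a).prod (hE.mp a)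

theorem measurable_yup : Measurable (yup : (((Λ → ℝ) × Y) × ℝ) × ℝ → (Λ → ℝ) × Y) := by
  refine Measurable.prodMk ?_ (by fun_prop)
  exact (measurable_upd (0 : Λ)).comp (by fun_prop :
    Measurable fun q : (((Λ → ℝ) × Y) × ℝ) × ℝ => (q.1.1.1, q.1.2))

theorem mp4_fgt {c : ℝ} (hc : 0 < c) (hν : IsProbabilityMeasure ν) :
    MeasurePreserving (fgt : (((Λ → ℝ) × Y) × ℝ) × ℝ → _) (M4 Λ c ν) (M3 Λ c) := by
  have := PP_prob Λ hc
  have := unif_prob hc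
  have h : MeasurePreserving (Prod.fst : (Λ → ℝ) × Y → Λ → ℝ) ((PP Λ c).prod ν) (PP Λ c) :=
    measurePreserving_fst
  exact (h.prod (MeasurePreserving.id (unif c))).prod (MeasurePreserving.id kap)

theorem mp_yupd {c : ℝ} (hc : 0 < c) (hν : IsProbabilityMeasure ν) (y : Λ) :
    MeasurePreserving (fun q : ((Λ → ℝ) × Y) × ℝ => (Function.update q.1.1 y q.2, q.1.2))
      ((PY Λ c ν).prod (unif c)) (PY Λ c ν) := by
  have := PP_prob Λ hc
  have := unif_prob hc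
  -- rearrange `((ω, y), v) ↦ ((ω, v), y)`
  have h1 : MeasurePreserving (fun q : ((Λ → ℝ) × Y) × ℝ => ((q.1.1, q.2), q.1.2))
      ((PY Λ c ν).prod (unif c)) (((PP Λ c).prod (unif c)).prod ν) := by
    have e1 := measurePreserving_prodAssoc (PP Λ c) ν (unif c)
    have e2 : MeasurePreserving (Prod.map id Prod.swap : (Λ → ℝ) × (Y × ℝ) → (Λ → ℝ) × (ℝ × Y))
        ((PP Λ c).prod (ν.prod (unif c))) ((PP Λ c).prod ((unif c).prod ν)) :=
      (MeasurePreserving.id (PP Λ c)).prod (Measure.measurePreserving_swap)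
    have e3 := (measurePreserving_prodAssoc (PP Λ c) (unif c) ν).symm
    exact (e3.comp e2).comp e1
  have h2 := (measurePreserving_upd (Λ := Λ) (unif c) y).prod (MeasurePreserving.id ν)
  exact h2.comp h1

theorem mp4_new {c : ℝ} (hc : 0 < c) (hν : IsProbabilityMeasure ν) :
    MeasurePreserving (fun q : (((Λ → ℝ) × Y) × ℝ) × ℝ => (yup q, q.2)) (M4 Λ c ν)
      ((PY Λ c ν).prod kap) := by
  have := PY_prob (Y := Y) Λ hc hν
  have := unif_prob hc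
  exact (mp_yupd (Λ := Λ) hc hν 0).prod (MeasurePreserving.id kap)

theorem mp4_old {c : ℝ} (hc : 0 < c) (hν : IsProbabilityMeasure ν) :
    MeasurePreserving (fun q : (((Λ → ℝ) × Y) × ℝ) × ℝ => (q.1.1, q.2)) (M4 Λ c ν)
      ((PY Λ c ν).prod kap) := by
  have := PY_prob (Y := Y) Λ hc hν
  have := unif_prob hc
  have h : MeasurePreserving (Prod.fst : ((Λ → ℝ) × Y) × ℝ → (Λ → ℝ) × Y)
      ((PY Λ c ν).prod (unif c)) (PY Λ c ν) := measurePreserving_fst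
  exact h.prod (MeasurePreserving.id kap)

theorem mp4_snd {c : ℝ} (hc : 0 < c) (hν : IsProbabilityMeasure ν) :
    MeasurePreserving (fun q : (((Λ → ℝ) × Y) × ℝ) × ℝ => q.2) (M4 Λ c ν) kap := by
  have := PY_prob (Y := Y) Λ hc hν
  have := unif_prob hc
  exact measurePreserving_snd

/-- forget the environment, keep the energy -/
theorem mp_pk {c : ℝ} (hc : 0 < c) (hν : IsProbabilityMeasure ν) :
    MeasurePreserving (fun r : ((Λ → ℝ) × Y) × ℝ => (r.1.1, r.2)) ((PY Λ c ν).prod kap)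
      ((PP Λ c).prod kap) := by
  have := PP_prob Λ hc
  have h : MeasurePreserving (Prod.fst : (Λ → ℝ) × Y → Λ → ℝ) ((PP Λ c).prod ν) (PP Λ c) :=
    measurePreserving_fst
  exact h.prod (MeasurePreserving.id kap)

/-- bounded measurable covariant families of operators in an environment -/
structure YCov (c : ℝ) (ν : Measure Y) (τ : Λ → Y → Y) (e : Λ → E)
    (A : (Λ → ℝ) × Y → (E →L[ℂ] E)) (K : ℝ) : Prop where
  bdd : ∀ p, ‖A p‖ ≤ K
  meas : ∀ x z, Measurable fun p => ⟪e x, A p (e z)⟫_ℂ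
  cov : ∀ a x z, ∀ᵐ p ∂(PY Λ c ν), ⟪e x, A (sh τ a p) (e z)⟫_ℂ
    = ⟪e (x + a), A p (e (z + a))⟫_ℂ

/-- approximation in mean square of the column of `B` at `0` by functions of finitely many
coordinates of the potential and of the environment -/
def YLoc (c : ℝ) (ν : Measure Y) (e : Λ → E) (B : (Λ → ℝ) × Y → (E →L[ℂ] E)) : Prop :=
  ∀ ε : ℝ, 0 < ε → ∃ (F J : Finset Λ) (β : Λ → (Λ → ℝ) × Y → ℂ) (C : ℝ),
    (∀ k, Measurable (β k)) ∧ (∀ k p, ‖β k p‖ ≤ C) ∧ (∀ k, k ∉ F → ∀ p, β k p = 0) ∧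
    (∀ k ω ω' y, (∀ j ∈ J, ω j = ω' j) → β k (ω, y) = β k (ω', y)) ∧
    ∫⁻ p, ∑' k, ‖⟪e k, B p (e 0)⟫_ℂ - β k p‖ₑ ^ 2 ∂(PY Λ c ν) ≤ ENNReal.ofReal ε

/-- `Im z ‖R(z) B e_x‖²` -/
noncomputable def y22 (e : Λ → E) (H : (Λ → ℝ) → (E →L[ℂ] E)) (B : (Λ → ℝ) × Y → (E →L[ℂ] E))
    (k : ℕ) (x : Λ) (r : ((Λ → ℝ) × Y) × ℝ) : ℝ :=
  (Zt (tk k) r.2).im * ‖Rv (H r.1.1) (Zt (tk k) r.2) (B r.1 (e x))‖ ^ 2

/-- `Im z ⟨R(z) e_x, R(z) B e_x⟩` -/
noncomputable def y12 (e : Λ → E) (H : (Λ → ℝ) → (E →L[ℂ] E)) (B : (Λ → ℝ) × Y → (E →L[ℂ] E))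
    (k : ℕ) (x : Λ) (r : ((Λ → ℝ) × Y) × ℝ) : ℂ :=
  ((Zt (tk k) r.2).im : ℂ)
    * ⟪Rv (H r.1.1) (Zt (tk k) r.2) (e x), Rv (H r.1.1) (Zt (tk k) r.2) (B r.1 (e x))⟫_ℂ

/-- `Im z ‖(B' - B) R'(z) e_x‖²` -/
noncomputable def YX (e : Λ → E) (H : (Λ → ℝ) → (E →L[ℂ] E)) (B : (Λ → ℝ) × Y → (E →L[ℂ] E))
    (k : ℕ) (x : Λ) (q : (((Λ → ℝ) × Y) × ℝ) × ℝ) : ℝ≥0∞ :=
  ENNReal.ofReal (Zt (tk k) q.2).im
    * ‖(B (yup q) - B q.1.1) (Rv (H (yup q).1) (Zt (tk k) q.2) (e x))‖ₑ ^ 2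

end Pool.Agent.Lib.MP_562b47_mp
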