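import Mathlib
import Pool.Agent.Lib.MP_562b47_mp.Ye.Defs
import Pool.Agent.Lib.MP_562b47_mp.Cc.Alpha

/-!
The vector `e_0` becomes an eigenvector of every covariant operator in an environment which
commutes with `H`, in the limit of real energies.  (Anderson model, MP_562b47_mp.)
-/

open MeasureTheory Set Filter Topology Complex
open scoped Real ENNReal NNReal InnerProductSpace

set_option linter.unusedSectionVars false

namespace Pool.Agent.Lib.MP_562b47_mp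

variable {Λ : Type*} [DecidableEq Λ] [AddCommGroup Λ] [Countable Λ] {Y : Type*}
  [MeasurableSpace Y] {E : Type*}
  [NormedAddCommGroup E] [InnerProductSpace ℂ E] [CompleteSpace E] {c : ℝ} {e : Λ → E}
  {H : (Λ → ℝ) → (E →L[ℂ] E)} {ν : Measure Y} {τ : Λ → Y → Y}
  {A B : (Λ → ℝ) × Y → (E →L[ℂ] E)} {K L : ℝ}

/-- the family at a fixed environment -/
def fib (B : (Λ → ℝ) × Y → (E →L[ℂ] E)) (y : Y) (ω : Λ → ℝ) : E →L[ℂ] E := B (ω, y)

theorem y22_fib (e : Λ → E) (H : (Λ → ℝ) → (E →L[ℂ] E)) (B : (Λ → ℝ) × Y → (E →L[ℂ] E))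
    (k : ℕ) (x : Λ) (r : ((Λ → ℝ) × Y) × ℝ) :
    y22 e H B k x r = n22 e H (fib B r.1.2) k x (r.1.1, r.2) := rfl

theorem y12_fib (e : Λ → E) (H : (Λ → ℝ) → (E →L[ℂ] E)) (B : (Λ → ℝ) × Y → (E →L[ℂ] E))
    (k : ℕ) (x : Λ) (r : ((Λ → ℝ) × Y) × ℝ) :
    y12 e H B k x r = n12 e H (fib B r.1.2) k x (r.1.1, r.2) := rfl

/-! ### Measurability -/

section meas

variable {P : Type*} [MeasurableSpace P]

theorem Model.ymeas_BR (M : Model c e H)
    (hBm : ∀ x z, Measurable fun p => ⟪e x, B p (e z)⟫_ℂ) {f : P → (Λ → ℝ) × Y}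
    {g : P → Λ → ℝ} (hf : Measurable f)
    (hg : Measurable g) {t : ℝ} (ht : 0 < t) {h : P → ℝ} (hh : Measurable h) (x z : Λ) :
    Measurable fun q => ⟪e x, B (f q) (Rv (H (g q)) (Zt t (h q)) (e z))⟫_ℂ := by
  refine measurable_of_tendsto_metrizable' (atTop : Filter (Finset Λ))
    (f := fun s q => ∑ w ∈ s, ⟪e x, B (f q) (e w)⟫_ℂ * Gr e H (g q) (Zt t (h q)) w z) ?_ ?_
  · intro s
    refine Finset.measurable_fun_sum _ fun w _ => ?_
    exact ((hBm x w).comp hf).mul (M.measurable_Gr hg ht hh w z)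
  · rw [tendsto_pi_nhds]
    intro q
    exact M.hasSum_inner (B (f q)) (e x) (Rv (H (g q)) (Zt t (h q)) (e z))

theorem Model.ymeas_RB (M : Model c e H)
    (hBm : ∀ x z, Measurable fun p => ⟪e x, B p (e z)⟫_ℂ) {f : P → (Λ → ℝ) × Y}
    {g : P → Λ → ℝ} (hf : Measurable f)
    (hg : Measurable g) {t : ℝ} (ht : 0 < t) {h : P → ℝ} (hh : Measurable h) (x z : Λ) :
    Measurable fun q => ⟪e x, Rv (H (g q)) (Zt t (h q)) (B (f q) (e z))⟫_ℂ := by
  refine measurable_of_tendsto_metrizable' (atTop : Filter (Finset Λ))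
    (f := fun s q => ∑ w ∈ s, Gr e H (g q) (Zt t (h q)) x w * ⟪e w, B (f q) (e z)⟫_ℂ) ?_ ?_
  · intro s
    refine Finset.measurable_fun_sum _ fun w _ => ?_
    exact (M.measurable_Gr hg ht hh x w).mul ((hBm w z).comp hf)
  · rw [tendsto_pi_nhds]
    intro q
    exact M.hasSum_inner (Rv (H (g q)) (Zt t (h q))) (e x) (B (f q) (e z))

theorem Model.ymeas_YX (M : Model c e H)
    (hBm : ∀ x z, Measurable fun p => ⟪e x, B p (e z)⟫_ℂ) (k : ℕ) (x : Λ) :
    Measurable (YX e H B k x) := by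
  unfold YX
  refine (measurable_Zt_im measurable_snd).mul ?_
  simp_rw [M.parseval_enorm]
  refine Measurable.tsum fun w => (Measurable.enorm ?_).pow_const 2
  simp_rw [sub_apply, inner_sub_right]
  have h1 : Measurable fun q : (((Λ → ℝ) × Y) × ℝ) × ℝ => (yup q).1 :=
    measurable_fst.comp measurable_yup
  exact (M.ymeas_BR hBm measurable_yup h1 (tk_pos k) measurable_snd w x).sub
    (M.ymeas_BR hBm (measurable_fst.comp measurable_fst) h1 (tk_pos k) measurable_snd w x)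

theorem Model.ymeas_22 (M : Model c e H)
    (hBm : ∀ x z, Measurable fun p => ⟪e x, B p (e z)⟫_ℂ) (k : ℕ) (x : Λ) :
    Measurable (y22 e H B k x) := by
  have h1 : y22 e H B k x = fun r => (ENNReal.ofReal (Zt (tk k) r.2).im
      * ‖Rv (H r.1.1) (Zt (tk k) r.2) (B r.1 (e x))‖ₑ ^ 2).toReal := by
    funext r
    unfold y22
    rw [ENNReal.toReal_mul, ENNReal.toReal_ofReal (Zt_im_pos (tk_pos k) r.2).le,
      ENNReal.toReal_pow, toReal_enorm]
  rw [h1]
  refine Measurable.ennreal_toReal ((measurable_Zt_im measurable_snd).mul ?_)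
  simp_rw [M.parseval_enorm]
  exact Measurable.tsum fun w => ((M.ymeas_RB hBm measurable_fst
    (measurable_fst.comp measurable_fst) (tk_pos k) measurable_snd w x).enorm).pow_const 2

theorem Model.ymeas_12 (M : Model c e H)
    (hBm : ∀ x z, Measurable fun p => ⟪e x, B p (e z)⟫_ℂ) (k : ℕ) (x : Λ) :
    Measurable (y12 e H B k x) := by
  unfold y12
  have h2 : Measurable fun r : ((Λ → ℝ) × Y) × ℝ => (Zt (tk k) r.2).im :=
    (Complex.continuous_im.comp continuous_Zt).measurable.comp measurable_snd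
  refine (Complex.measurable_ofReal.comp h2).mul ?_
  refine measurable_of_tendsto_metrizable' (atTop : Filter (Finset Λ))
    (f := fun s r => ∑ w ∈ s, ⟪Rv (H r.1.1) (Zt (tk k) r.2) (e x), e w⟫_ℂ
      * ⟪e w, Rv (H r.1.1) (Zt (tk k) r.2) (B r.1 (e x))⟫_ℂ) ?_ ?_
  · intro s
    refine Finset.measurable_fun_sum _ fun w _ => ?_
    refine Measurable.mul ?_ (M.ymeas_RB hBm measurable_fst (measurable_fst.comp measurable_fst)
      (tk_pos k) measurable_snd w x)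
    have h3 : ∀ r : ((Λ → ℝ) × Y) × ℝ, ⟪Rv (H r.1.1) (Zt (tk k) r.2) (e x), e w⟫_ℂ
        = (starRingEnd ℂ) (Gr e H r.1.1 (Zt (tk k) r.2) w x) := by
      intro r
      unfold Gr
      rw [inner_conj_symm]
    simp_rw [h3]
    exact Complex.continuous_conj.measurable.comp
      (M.measurable_Gr (measurable_fst.comp measurable_fst) (tk_pos k) measurable_snd w x)
  · rw [tendsto_pi_nhds]
    intro r
    exact M.hasSum_inner (ContinuousLinearMap.id ℂ E) (Rv (H r.1.1) (Zt (tk k) r.2) (e x))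
      (Rv (H r.1.1) (Zt (tk k) r.2) (B r.1 (e x)))

theorem Model.ymeas_11 (M : Model c e H) (k : ℕ) (x : Λ) {f : P → Λ → ℝ} (hf : Measurable f)
    {g : P → ℝ} (hg : Measurable g) : Measurable fun q => n11 e H k x (f q, g q) :=
  (M.measurable_n11 k x).comp (hf.prodMk hg)

end meas

/-! ### Conjugation -/

theorem Model.yexists_conj (M : Model c e H) (B : (Λ → ℝ) × Y → (E →L[ℂ] E)) :
    ∃ B' : (Λ → ℝ) × Y → (E →L[ℂ] E),
      (∀ p x z, ⟪e x, B' p (e z)⟫_ℂ = (starRingEnd ℂ) ⟪e x, B p (e z)⟫_ℂ) ∧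
      (∀ p, ‖B' p‖ ≤ ‖B p‖) ∧
      ∀ p p' x (z : ℂ), 0 < z.im → ‖(B' p' - B' p) (Rv (H p'.1) z (e x))‖
        = ‖(B p' - B p) (Rv (H p'.1) ((starRingEnd ℂ) z) (e x))‖ := by
  refine ⟨fun p => cc_conj_op M (B p), ?_, ?_, ?_⟩
  · intro p x z
    rw [cc_conj_op_apply, cc_conj_basis, cc_conj_inner]
  · intro p
    exact LinearMap.mkContinuous_norm_le _ (norm_nonneg _) _
  · intro p p' x z hz
    show ‖cc_conj_op M (B p') (Rv (H p'.1) z (e x)) - cc_conj_op M (B p) (Rv (H p'.1) z (e x))‖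
      = ‖B p' (Rv (H p'.1) ((starRingEnd ℂ) z) (e x))
        - B p (Rv (H p'.1) ((starRingEnd ℂ) z) (e x))‖
    rw [cc_conj_op_apply, cc_conj_op_apply, cc_conj_Rv M p'.1 hz.ne', ← cc_conj_sub, cc_conj_norm]

/-! ### The claim -/

theorem qmp4_up (hc : 0 < c) (hν : IsProbabilityMeasure ν) :
    Measure.QuasiMeasurePreserving (yup : (((Λ → ℝ) × Y) × ℝ) × ℝ → (Λ → ℝ) × Y) (M4 Λ c ν)
      (PY Λ c ν) := by
  have := M4_prob (Y := Y) Λ hc hν
  have := PY_prob (Y := Y) Λ hc hν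
  have h1 := (mp4_new (Λ := Λ) hc hν).quasiMeasurePreserving
  have h2 := (measurePreserving_fst (μ := PY Λ c ν) (ν := kap)).quasiMeasurePreserving
  exact h2.comp h1

theorem qmp4_old (hc : 0 < c) (hν : IsProbabilityMeasure ν) :
    Measure.QuasiMeasurePreserving (fun q : (((Λ → ℝ) × Y) × ℝ) × ℝ => q.1.1) (M4 Λ c ν)
      (PY Λ c ν) := by
  have := PY_prob (Y := Y) Λ hc hν
  have := unif_prob hc
  have h1 := (measurePreserving_fst (μ := (PY Λ c ν).prod (unif c))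
    (ν := kap)).quasiMeasurePreserving
  have h2 := (measurePreserving_fst (μ := PY Λ c ν) (ν := unif c)).quasiMeasurePreserving
  exact h2.comp h1

/-- **`e_0` becomes an eigenvector of `B` in the limit.** -/
theorem Model.ynull_claim (M : Model c e H) (hν : IsProbabilityMeasure ν)
    (hBm : ∀ x z, Measurable fun p => ⟪e x, B p (e z)⟫_ℂ)
    (hBH : ∀ᵐ p ∂(PY Λ c ν), Commute (B p) (H p.1))
    {B' : (Λ → ℝ) × Y → (E →L[ℂ] E)}
    (hB' : ∀ p x z, ⟪e x, B' p (e z)⟫_ℂ = (starRingEnd ℂ) ⟪e x, B p (e z)⟫_ℂ)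
    (hBB' : ∀ p p' x (z : ℂ), 0 < z.im → ‖(B' p' - B' p) (Rv (H p'.1) z (e x))‖
        = ‖(B p' - B p) (Rv (H p'.1) ((starRingEnd ℂ) z) (e x))‖)
    (hX : Null (M4 Λ c ν) (fun k q => YX e H B k 0 q))
    (hY : Null (M4 Λ c ν) (fun k q => YX e H B' k 0 q)) :
    Null (M4 Λ c ν) (fun k q => ENNReal.ofReal (n11 e H k 0 (q.1.1.1, q.2)
      * (n11 e H k 0 (q.1.1.1, q.2) * y22 e H B k 0 (q.1.1, q.2)
        - ‖y12 e H B k 0 (q.1.1, q.2)‖ ^ 2))) := by
  have := M4_prob (Y := Y) Λ M.hc hν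
  have := M3_prob Λ M.hc
  have hBm' : ∀ x z, Measurable fun p => ⟪e x, B' p (e z)⟫_ℂ := by
    intro x z
    simp_rw [hB']
    exact Complex.continuous_conj.measurable.comp (hBm x z)
  have hYm : ∀ k, Measurable fun q => YX e H B' k 0 q := fun k => M.ymeas_YX hBm' k 0
  have hT : Tght (M4 Λ c ν) (fun k q => TF c 1 e H k (fgt q)) :=
    (M.tght_TF 1).comp (mp4_fgt M.hc hν) (M.measurable_TF 1)
  have hTm : ∀ k, Measurable fun q : (((Λ → ℝ) × Y) × ℝ) × ℝ => TF c 1 e H k (fgt q) := fun k =>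
    (M.measurable_TF 1 k).comp (mp4_fgt M.hc hν).measurable
  have hsum := (hX.add hY hYm).mul_tght hT hTm
  refine hsum.mono fun k => ?_
  filter_upwards [(mp4_fgt (Λ := Λ) M.hc hν).quasiMeasurePreserving.ae (ae_s0sq (Λ := Λ) M.hc),
    (qmp4_up M.hc hν).ae hBH, (qmp4_old M.hc hν).ae hBH] with q h1 h2 h3
  refine (M.claim_le (B := fib B q.1.1.2) k (q := fgt q) h1 h3 h2).trans (le_of_eq ?_)
  congr 1
  unfold XXs
  have h4 := hBB' q.1.1 (yup q) 0 (Zt (tk k) q.2) (Zt_im_pos (tk_pos k) q.2)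
  unfold YX
  congr 3
  rw [← ofReal_norm, ← ofReal_norm, h4]
  rfl

end Pool.Agent.Lib.MP_562b47_mp
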