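import Mathlib
import Pool.Agent.Lib.MP_562b47_mp.Ye.Defs
import Pool.Agent.Lib.MP_562b47_mp.Cc.Lim

/-!
Almost sure limits along a subsequence, in an environment.
(Anderson model, MP_562b47_mp.)
-/

open MeasureTheory Set Filter Topology Complex
open scoped Real ENNReal NNReal InnerProductSpace

set_option linter.unusedSectionVars false

namespace Pool.Agent.Lib.MP_562b47_mp

variable {Λ : Type*} [DecidableEq Λ] [AddCommGroup Λ] [Countable Λ] {Y : Type*}
  [MeasurableSpace Y] {E : Type*}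
  [NormedAddCommGroup E] [InnerProductSpace ℂ E] [CompleteSpace E] {c : ℝ} {e : Λ → E}
  {H : (Λ → ℝ) → (E →L[ℂ] E)} {ν : Measure Y} {τ : Λ → Y → Y}
  {A B : (Λ → ℝ) × Y → (E →L[ℂ] E)} {K L : ℝ} {V : Λ → (E ≃ₗᵢ[ℂ] E)}

theorem Model.ye_lim_meas_Ru (M : Model c e H) {u : (Λ → ℝ) × Y → E}
    (hu : ∀ x, Measurable fun p => ⟪e x, u p⟫_ℂ) {t : ℝ} (ht : 0 < t) (x : Λ) :
    Measurable fun r : ((Λ → ℝ) × Y) × ℝ => ⟪e x, Rv (H r.1.1) (Zt t r.2) (u r.1)⟫_ℂ := by
  refine measurable_of_tendsto_metrizable' (atTop : Filter (Finset Λ))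
    (f := fun s r => ∑ w ∈ s, Gr e H r.1.1 (Zt t r.2) x w * ⟪e w, u r.1⟫_ℂ) ?_ ?_
  · intro s
    refine Finset.measurable_fun_sum _ fun w _ => ?_
    exact (M.measurable_Gr (measurable_fst.comp measurable_fst) ht measurable_snd x w).mul
      ((hu w).comp measurable_fst)
  · rw [tendsto_pi_nhds]
    intro r
    exact M.hasSum_inner (Rv (H r.1.1) (Zt t r.2)) (e x) (u r.1)

theorem Model.ye_lim_meas_AU (M : Model c e H) {u : (Λ → ℝ) × Y → E}
    (hu : ∀ x, Measurable fun p => ⟪e x, u p⟫_ℂ) {t : ℝ} (ht : 0 < t) :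
    Measurable fun r : ((Λ → ℝ) × Y) × ℝ => AU (H r.1.1) (u r.1) t r.2 := by
  unfold AU
  refine Complex.measurable_im.comp ?_
  refine measurable_of_tendsto_metrizable' (atTop : Filter (Finset Λ))
    (f := fun s r => ∑ w ∈ s, (starRingEnd ℂ) ⟪e w, u r.1⟫_ℂ
      * ⟪e w, Rv (H r.1.1) (Zt t r.2) (u r.1)⟫_ℂ) ?_ ?_
  · intro s
    refine Finset.measurable_fun_sum _ fun w _ => ?_
    exact (Complex.continuous_conj.measurable.comp ((hu w).comp measurable_fst)).mul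
      (M.ye_lim_meas_Ru hu ht w)
  · rw [tendsto_pi_nhds]
    intro r
    have h := M.hb.hasSum_inner_mul_inner (u r.1) (Rv (H r.1.1) (Zt t r.2) (u r.1))
    simp only [M.hb_apply] at h
    simp_rw [inner_conj_symm]
    exact h

theorem Model.ye_lim_cauchy (M : Model c e H) (hD : HasDens H) (hν : IsProbabilityMeasure ν)
    {u : (Λ → ℝ) × Y → E} (hu : ∀ x, Measurable fun p => ⟪e x, u p⟫_ℂ) :
    Tendsto (fun p : ℕ × ℕ => ∫ w : ((Λ → ℝ) × Y) × ℝ,
      min 1 |AU (H w.1.1) (u w.1) (tk p.1) w.2 - AU (H w.1.1) (u w.1) (tk p.2) w.2|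
        ∂((PY Λ c ν).prod kap)) atTop (𝓝 0) := by
  have := PY_prob (Y := Y) Λ M.hc hν
  have hm : ∀ k : ℕ, Measurable
      (fun w : ((Λ → ℝ) × Y) × ℝ => AU (H w.1.1) (u w.1) (tk k) w.2) :=
    fun k => M.ye_lim_meas_AU hu (tk_pos k)
  have hcont : ∀ a b : ℕ, Measurable (fun w : ((Λ → ℝ) × Y) × ℝ =>
      min 1 |AU (H w.1.1) (u w.1) (tk a) w.2 - AU (H w.1.1) (u w.1) (tk b) w.2|) := fun a b =>
    measurable_const.min ((hm a).sub (hm b)).abs
  have hint : ∀ a b : ℕ, Integrable (fun w : ((Λ → ℝ) × Y) × ℝ =>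
      min 1 |AU (H w.1.1) (u w.1) (tk a) w.2 - AU (H w.1.1) (u w.1) (tk b) w.2|)
      ((PY Λ c ν).prod kap) := fun a b =>
    Integrable.of_bound (C := 1) (hcont a b).aestronglyMeasurable (ae_of_all _ fun w => by
      rw [Real.norm_of_nonneg (le_min zero_le_one (abs_nonneg _))]
      exact min_le_left _ _)
  have e1 : ∀ p : ℕ × ℕ, ∫ w : ((Λ → ℝ) × Y) × ℝ, min 1 |AU (H w.1.1) (u w.1) (tk p.1) w.2
      - AU (H w.1.1) (u w.1) (tk p.2) w.2| ∂((PY Λ c ν).prod kap)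
      = ∫ ω, (∫ s, min 1 |AU (H ω.1) (u ω) (tk p.1) s - AU (H ω.1) (u ω) (tk p.2) s| ∂kap)
        ∂(PY Λ c ν) :=
    fun p => integral_prod _ (hint p.1 p.2)
  simp_rw [e1]
  have hlim : Tendsto (fun p : ℕ × ℕ => ∫ ω, (∫ s, min 1 |AU (H ω.1) (u ω) (tk p.1) s
      - AU (H ω.1) (u ω) (tk p.2) s| ∂kap) ∂(PY Λ c ν)) atTop
      (𝓝 (∫ _ω, (0:ℝ) ∂(PY Λ c ν))) := by
    refine tendsto_integral_filter_of_dominated_convergence (fun _ => 1) ?_ ?_
      (integrable_const _) ?_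
    · refine Eventually.of_forall fun p => ?_
      exact (hint p.1 p.2).integral_prod_left.aestronglyMeasurable
    · refine Eventually.of_forall fun p => ae_of_all _ fun ω => ?_
      rw [Real.norm_of_nonneg (integral_nonneg fun s => le_min zero_le_one (abs_nonneg _))]
      calc ∫ s, min 1 |AU (H ω.1) (u ω) (tk p.1) s - AU (H ω.1) (u ω) (tk p.2) s| ∂kap
          ≤ ∫ _s, (1:ℝ) ∂kap :=
            integral_mono_of_nonneg (ae_of_all _ fun s => le_min zero_le_one (abs_nonneg _))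
              (integrable_const _) (ae_of_all _ fun s => min_le_left _ _)
        _ = 1 := by simp
    · refine ae_of_all _ fun ω => ?_
      obtain ⟨D, hDm, hDt⟩ := hD ω.1 (u ω)
      have h1 : Tendsto (fun k : ℕ => ∫ s, min 1 |AU (H ω.1) (u ω) (tk k) s - D s| ∂kap) atTop
          (𝓝 0) :=
        hDt.comp tendsto_tk
      have h2 : Tendsto (fun p : ℕ × ℕ =>
          (∫ s, min 1 |AU (H ω.1) (u ω) (tk p.1) s - D s| ∂kap)
          + ∫ s, min 1 |AU (H ω.1) (u ω) (tk p.2) s - D s| ∂kap) atTop (𝓝 (0 + 0)) := by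
        rw [← prod_atTop_atTop_eq]
        exact (h1.comp tendsto_fst).add (h1.comp tendsto_snd)
      rw [add_zero] at h2
      have hAm : ∀ k : ℕ, Measurable (fun s => AU (H ω.1) (u ω) (tk k) s) := fun k =>
        ((M.continuous_AU (u ω) (tk_pos k)).comp
          (continuous_const.prodMk continuous_id)).measurable
      have hi : ∀ k : ℕ, Integrable
          (fun s => min 1 |AU (H ω.1) (u ω) (tk k) s - D s|) kap :=
        fun k => Integrable.of_bound (C := 1) (measurable_const.min ((hAm k).sub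
          hDm).abs).aestronglyMeasurable (ae_of_all _ fun w => by
          rw [Real.norm_of_nonneg (le_min zero_le_one (abs_nonneg _))]
          exact min_le_left _ _)
      refine tendsto_of_tendsto_of_tendsto_of_le_of_le tendsto_const_nhds h2
        (fun p => integral_nonneg fun s => le_min zero_le_one (abs_nonneg _)) fun p => ?_
      rw [← integral_add (hi p.1) (hi p.2)]
      refine integral_mono_of_nonneg (ae_of_all _ fun s => le_min zero_le_one (abs_nonneg _))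
        ((hi p.1).add (hi p.2)) (ae_of_all _ fun s => ?_)
      have h3 : |AU (H ω.1) (u ω) (tk p.1) s - AU (H ω.1) (u ω) (tk p.2) s|
          ≤ |AU (H ω.1) (u ω) (tk p.1) s - D s| + |AU (H ω.1) (u ω) (tk p.2) s - D s| := by
        have := abs_sub_le (AU (H ω.1) (u ω) (tk p.1) s) (D s) (AU (H ω.1) (u ω) (tk p.2) s)
        rw [abs_sub_comm (D s)] at this
        exact this
      exact (min_le_min_left 1 h3).trans (min_one_add_le' (abs_nonneg _) (abs_nonneg _))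
  simpa using hlim

/-- port of Model.exists_lim (Cc/Lim) -/
theorem Model.yexists_lim (M : Model c e H) (hD : HasDens H) (hν : IsProbabilityMeasure ν)
    (hBm : ∀ x z, Measurable fun p => ⟪e x, B p (e z)⟫_ℂ) :
    ∃ φ : ℕ → ℕ, StrictMono φ ∧ ∀ᵐ r ∂((PY Λ c ν).prod kap), ∀ x,
      (∃ l, Tendsto (fun k => n11 e H (φ k) x (r.1.1, r.2)) atTop (𝓝 l)) ∧
      (∃ m, Tendsto (fun k => y12 e H B (φ k) x r) atTop (𝓝 m)) := by
  have := PY_prob (Y := Y) Λ M.hc hν
  have hu : ∀ i : Λ × Fin 5, ∀ x, Measurable fun p =>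
      ⟪e x, e i.1 + cc_lim_cf i.2 • B p (e i.1)⟫_ℂ := by
    intro i x
    simp_rw [inner_add_right, inner_smul_right]
    exact measurable_const.add ((hBm x i.1).const_mul _)
  obtain ⟨φ, hφ, h⟩ := exists_subseq (μ := (PY Λ c ν).prod kap) (ι := Λ × Fin 5)
    (f := fun i k w => AU (H w.1.1) (e i.1 + cc_lim_cf i.2 • B w.1 (e i.1)) (tk k) w.2)
    (fun i k => M.ye_lim_meas_AU (u := fun p => e i.1 + cc_lim_cf i.2 • B p (e i.1)) (hu i)
      (tk_pos k))
    (fun i => M.ye_lim_cauchy (u := fun p => e i.1 + cc_lim_cf i.2 • B p (e i.1)) hD hν (hu i))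
  refine ⟨φ, hφ, ?_⟩
  filter_upwards [h] with p hp x
  constructor
  · obtain ⟨l, hl⟩ := hp (x, 0)
    refine ⟨l, hl.congr fun k => ?_⟩
    simp only
    rw [M.cc_lim_AU_eq p.1.1 _ (tk_pos _)]
    unfold n11 cc_lim_cf
    simp
  · obtain ⟨l1, h1⟩ := hp (x, 1)
    obtain ⟨l2, h2⟩ := hp (x, 2)
    obtain ⟨l3, h3⟩ := hp (x, 3)
    obtain ⟨l4, h4⟩ := hp (x, 4)
    refine ⟨((l1 : ℂ) - l2 + ((l3 : ℂ) - l4) * I) / 4, ?_⟩
    have g : ∀ {f : ℕ → ℝ} {l : ℝ}, Tendsto f atTop (𝓝 l) →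
        Tendsto (fun k => (f k : ℂ)) atTop (𝓝 (l : ℂ)) := fun hf =>
      (Complex.continuous_ofReal.tendsto _).comp hf
    have h5 := (((g h1).sub (g h2)).add (((g h3).sub (g h4)).mul_const I)).div_const 4
    refine h5.congr fun k => ?_
    simp only
    rw [M.cc_lim_AU_eq p.1.1 _ (tk_pos _), M.cc_lim_AU_eq p.1.1 _ (tk_pos _),
      M.cc_lim_AU_eq p.1.1 _ (tk_pos _), M.cc_lim_AU_eq p.1.1 _ (tk_pos _)]
    unfold y12
    rw [inner_eq_sum_norm_sq_div_four (𝕜 := ℂ)]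
    have e1 : cc_lim_cf 1 = 1 := rfl
    have e2 : cc_lim_cf 2 = -1 := rfl
    have e3 : cc_lim_cf 3 = -I := rfl
    have e4 : cc_lim_cf 4 = I := rfl
    rw [e1, e2, e3, e4]
    have eI : (RCLike.I : ℂ) = I := rfl
    rw [eI]
    simp only [map_add, map_sub, map_smul, one_smul, neg_smul, ← sub_eq_add_neg]
    have eR : ∀ r : ℝ, (RCLike.ofReal r : ℂ) = (r : ℂ) := fun r => rfl
    simp only [eR]
    push_cast
    ring

end Pool.Agent.Lib.MP_562b47_mp
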