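import Mathlib
import Pool.Agent.Lib.MP_562b47_mp.Ye.Defs
import Pool.Agent.Lib.MP_562b47_mp.Cc.Loc

/-!
Bounded measurable families in an environment are locally approximable.
(Anderson model, MP_562b47_mp.)
-/

open MeasureTheory Set Filter Topology Complex
open scoped Real ENNReal NNReal InnerProductSpace

set_option linter.unusedSectionVars false

namespace Pool.Agent.Lib.MP_562b47_mp

/-- measurable sets which depend on finitely many coordinates of the potential -/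
def ye_loc_ring (Λ : Type*) (Y : Type*) [MeasurableSpace Y] : Set (Set ((Λ → ℝ) × Y)) :=
  {t | MeasurableSet t ∧ ∃ J : Finset Λ, ∀ ω ω' y, (∀ j ∈ J, ω j = ω' j) →
    ((ω, y) ∈ t ↔ (ω', y) ∈ t)}

theorem ye_loc_isSetRing (Λ : Type*) (Y : Type*) [MeasurableSpace Y] :
    IsSetRing (ye_loc_ring Λ Y) := by
  classical
  refine ⟨⟨MeasurableSet.empty, ∅, fun _ _ _ _ => Iff.rfl⟩, ?_, ?_⟩
  · rintro s t ⟨hs, J, hJ⟩ ⟨ht, J', hJ'⟩
    refine ⟨hs.union ht, J ∪ J', fun ω ω' y h => ?_⟩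
    rw [mem_union, mem_union, hJ ω ω' y fun j hj => h j (Finset.mem_union_left _ hj),
      hJ' ω ω' y fun j hj => h j (Finset.mem_union_right _ hj)]
  · rintro s t ⟨hs, J, hJ⟩ ⟨ht, J', hJ'⟩
    refine ⟨hs.diff ht, J ∪ J', fun ω ω' y h => ?_⟩
    rw [Set.mem_sdiff, Set.mem_sdiff, hJ ω ω' y fun j hj => h j (Finset.mem_union_left _ hj),
      hJ' ω ω' y fun j hj => h j (Finset.mem_union_right _ hj)]

theorem ye_loc_univ (Λ : Type*) (Y : Type*) [MeasurableSpace Y] : univ ∈ ye_loc_ring Λ Y :=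
  ⟨MeasurableSet.univ, ∅, fun _ _ _ _ => Iff.rfl⟩

theorem ye_loc_gen (Λ : Type*) (Y : Type*) [m : MeasurableSpace Y] :
    (inferInstance : MeasurableSpace ((Λ → ℝ) × Y)) =
      MeasurableSpace.generateFrom (ye_loc_ring Λ Y) := by
  apply le_antisymm
  · refine sup_le ?_ ?_
    · rw [← generateFrom_measurableCylinders (α := fun _ : Λ => ℝ),
        MeasurableSpace.comap_generateFrom]
      refine MeasurableSpace.generateFrom_mono ?_
      rintro _ ⟨t, ht, rfl⟩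
      refine ⟨measurable_fst (MeasurableSet.of_mem_measurableCylinders ht), ?_⟩
      obtain ⟨J, S, hS, rfl⟩ := (mem_measurableCylinders t).1 ht
      refine ⟨J, fun ω ω' y h => ?_⟩
      have h1 : ω ∈ cylinder J S ↔ ω' ∈ cylinder J S := by
        rw [mem_cylinder, mem_cylinder]
        have : J.restrict ω = J.restrict ω' := by
          ext j
          exact h j.1 j.2
        rw [this]
      exact h1
    · rintro _ ⟨s, hs, rfl⟩
      refine MeasurableSpace.measurableSet_generateFrom ⟨measurable_snd hs, ∅, fun _ _ _ _ => Iff.rfl⟩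
  · exact MeasurableSpace.generateFrom_le fun t ht => ht.1

/-- approximation by functions of finitely many coordinates of the potential -/
theorem ye_loc_approx {Λ : Type*} {Y : Type*} [MeasurableSpace Y] (μ : Measure ((Λ → ℝ) × Y))
    [IsProbabilityMeasure μ] {f : (Λ → ℝ) × Y → ℂ} (hf : Measurable f) {C : ℝ}
    (hC : ∀ ω, ‖f ω‖ ≤ C) {ε : ℝ≥0∞} (hε : ε ≠ 0) :
    ∃ g : (Λ → ℝ) × Y → ℂ, Measurable g ∧ (∃ K, ∀ ω, ‖g ω‖ ≤ K) ∧
      (∃ J : Finset Λ, ∀ ω ω' y, (∀ j ∈ J, ω j = ω' j) → g (ω, y) = g (ω', y)) ∧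
      ∫⁻ ω, ‖f ω - g ω‖ₑ ^ 2 ∂μ ≤ ε := by
  classical
  have hfm : MemLp f 2 μ := MemLp.of_bound hf.aestronglyMeasurable C (ae_of_all _ hC)
  have hε' : ε ^ (1 / 2 : ℝ) ≠ 0 := by
    intro h
    rw [ENNReal.rpow_eq_zero_iff] at h
    rcases h with h | h
    · exact hε h.1
    · norm_num at h
  have key : ∃ g : (Λ → ℝ) × Y → ℂ, eLpNorm (f - g) 2 μ ≤ ε ^ (1 / 2 : ℝ) ∧
      (Measurable g ∧ (∃ K, ∀ ω, ‖g ω‖ ≤ K) ∧
      (∃ J : Finset Λ, ∀ ω ω' y, (∀ j ∈ J, ω j = ω' j) → g (ω, y) = g (ω', y))) := by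
    refine hfm.induction_dense (by simp)
      (fun g : (Λ → ℝ) × Y → ℂ => Measurable g ∧ (∃ K, ∀ ω, ‖g ω‖ ≤ K) ∧
      (∃ J : Finset Λ, ∀ ω ω' y, (∀ j ∈ J, ω j = ω' j) → g (ω, y) = g (ω', y))) ?_ ?_ ?_ hε'
    · intro c s hs _ δ hδ
      obtain ⟨η, hη0, hη⟩ := exists_eLpNorm_indicator_le (μ := μ) (p := 2) (by simp) c hδ
      obtain ⟨t, ht, hts⟩ := exists_measure_symmDiff_lt_of_generateFrom_isSetRing (μ := μ)
        (C := ye_loc_ring Λ Y) (ye_loc_isSetRing Λ Y)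
        ⟨{univ}, countable_singleton _, by
          rw [singleton_subset_iff]; exact ye_loc_univ Λ Y, by simp⟩
        (ye_loc_gen Λ Y) hs (ε := (η : ℝ≥0∞)) (by exact_mod_cast hη0)
      refine ⟨t.indicator fun _ => c, ?_, ?_, ⟨‖c‖, ?_⟩, ?_⟩
      · have e1 : eLpNorm ((t.indicator fun _ => c) - s.indicator fun _ => c) 2 μ
            = eLpNorm ((symmDiff t s).indicator fun _ => c) 2 μ := by
          have := eLpNorm_indicator_sub_indicator (μ := μ) (p := 2) t s (fun _ => c)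
          exact this
        rw [e1]
        exact hη _ hts.le
      · exact measurable_const.indicator ht.1
      · intro ω
        by_cases h : ω ∈ t
        · rw [indicator_of_mem h]
        · rw [indicator_of_notMem h, norm_zero]; exact norm_nonneg _
      · obtain ⟨_, J, hJ⟩ := ht
        refine ⟨J, fun ω ω' y h => ?_⟩
        have h1 := hJ ω ω' y h
        by_cases h2 : (ω, y) ∈ t
        · rw [indicator_of_mem h2, indicator_of_mem (h1.1 h2)]
        · rw [indicator_of_notMem h2, indicator_of_notMem (fun h3 => h2 (h1.2 h3))]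
    · rintro f g ⟨hf1, ⟨K1, hf2⟩, ⟨J1, hf3⟩⟩ ⟨hg1, ⟨K2, hg2⟩, ⟨J2, hg3⟩⟩
      refine ⟨hf1.add hg1, ⟨K1 + K2, fun ω => (norm_add_le _ _).trans (add_le_add (hf2 ω) (hg2 ω))⟩,
        ⟨J1 ∪ J2, fun ω ω' y h => ?_⟩⟩
      simp only [Pi.add_apply]
      rw [hf3 ω ω' y fun j hj => h j (Finset.mem_union_left _ hj),
        hg3 ω ω' y fun j hj => h j (Finset.mem_union_right _ hj)]
    · rintro f ⟨hf1, _⟩
      exact hf1.aestronglyMeasurable
  obtain ⟨g, hg1, hg2, hg3, hg4⟩ := key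
  refine ⟨g, hg2, hg3, hg4, ?_⟩
  rw [eLpNorm_eq_lintegral_rpow_enorm_toReal (by simp) (by simp)] at hg1
  have h2 := ENNReal.rpow_le_rpow hg1 (show (0:ℝ) ≤ 2 by norm_num)
  rw [← ENNReal.rpow_mul, ← ENNReal.rpow_mul] at h2
  simpa using h2

variable {Λ : Type*} [DecidableEq Λ] [AddCommGroup Λ] [Countable Λ] {Y : Type*}
  [MeasurableSpace Y] {E : Type*}
  [NormedAddCommGroup E] [InnerProductSpace ℂ E] [CompleteSpace E] {c : ℝ} {e : Λ → E}
  {H : (Λ → ℝ) → (E →L[ℂ] E)} {ν : Measure Y} {τ : Λ → Y → Y}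
  {A B : (Λ → ℝ) × Y → (E →L[ℂ] E)} {K L : ℝ} {V : Λ → (E ≃ₗᵢ[ℂ] E)}

/-- port of Model.locApprox_of_bdd (Cc/Approx, Cc/Loc): the approximating functions depend on
finitely many coordinates of the potential, and arbitrarily on the environment -/
theorem Model.yloc (M : Model c e H) (hν : IsProbabilityMeasure ν) (hK : ∀ p, ‖B p‖ ≤ K)
    (hBm : ∀ x z, Measurable fun p => ⟪e x, B p (e z)⟫_ℂ) : YLoc c ν e B := by
  have hP : IsProbabilityMeasure (PY Λ c ν) := PY_prob Λ M.hc hν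
  intro ε hε
  set a : Λ → (Λ → ℝ) × Y → ℂ := fun k ω => ⟪e k, B ω (e 0)⟫_ℂ with ha
  have ham : ∀ k, Measurable (a k) := fun k => hBm k 0
  have haB : ∀ k ω, ‖a k ω‖ ≤ K := by
    intro k ω
    calc ‖a k ω‖ ≤ ‖e k‖ * ‖B ω (e 0)‖ := norm_inner_le_norm _ _
      _ ≤ ‖e k‖ * (‖B ω‖ * ‖e 0‖) := by gcongr; exact (B ω).le_opNorm _
      _ = ‖B ω‖ := by rw [M.ortho.1 k, M.ortho.1 0]; ring
      _ ≤ K := hK ω
  have haK : ∀ ω, ∑' k, ‖a k ω‖ₑ ^ 2 ≤ ENNReal.ofReal K ^ 2 := by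
    intro ω
    rw [← M.parseval_enorm (B ω (e 0))]
    have h1 : ‖B ω (e 0)‖ ≤ K := by
      calc ‖B ω (e 0)‖ ≤ ‖B ω‖ * ‖e 0‖ := (B ω).le_opNorm _
        _ ≤ K := by rw [M.ortho.1 0, mul_one]; exact hK ω
    have h2 : ‖B ω (e 0)‖ₑ ≤ ENNReal.ofReal K := by
      rw [← ofReal_norm]
      exact ENNReal.ofReal_le_ofReal h1
    gcongr
  have ham2 : ∀ k, Measurable fun ω => ‖a k ω‖ₑ ^ 2 := fun k => (ham k).enorm.pow_const 2
  have hsum : ∑' k, ∫⁻ ω, ‖a k ω‖ₑ ^ 2 ∂(PY Λ c ν) ≠ ∞ := by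
    rw [← lintegral_tsum fun k => (ham2 k).aemeasurable]
    refine ne_top_of_le_ne_top ?_ (lintegral_mono haK)
    rw [lintegral_const, measure_univ, mul_one]
    exact ENNReal.pow_ne_top ENNReal.ofReal_ne_top
  have hε2 : ENNReal.ofReal (ε / 2) ≠ 0 := by simpa using hε
  obtain ⟨F, hF⟩ := cc_loc_tail hsum hε2
  have hδ : ENNReal.ofReal (ε / 2) / (F.card + 1 : ℕ) ≠ 0 := by
    rw [Ne, ENNReal.div_eq_zero_iff]
    rintro (h | h)
    · exact hε2 h
    · exact ENNReal.natCast_ne_top _ h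
  choose g hg1 hg2 hg3 hg4 using fun k => ye_loc_approx (PY Λ c ν) (ham k) (haB k) hδ
  choose Kg hKg using hg2
  choose J hJ using hg3
  have hne : Nonempty Y := by
    by_contra h
    rw [not_nonempty_iff] at h
    have h1 : ν univ = 1 := measure_univ
    rw [eq_empty_of_isEmpty (univ : Set Y), measure_empty] at h1
    exact zero_ne_one h1
  obtain ⟨y0⟩ := hne
  have hKg0 : ∀ k, 0 ≤ Kg k := fun k => (norm_nonneg _).trans (hKg k (0, y0))
  refine ⟨F, F.biUnion J, fun k ω => if k ∈ F then g k ω else 0, ∑ k ∈ F, Kg k, ?_, ?_, ?_, ?_, ?_⟩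
  · intro k
    by_cases hk : k ∈ F
    · simpa [hk] using hg1 k
    · simp [hk]
  · intro k ω
    by_cases hk : k ∈ F
    · simp only [hk, if_true]
      exact (hKg k ω).trans (Finset.single_le_sum (fun i _ => hKg0 i) hk)
    · simp only [hk, if_false, norm_zero]
      exact Finset.sum_nonneg fun i _ => hKg0 i
  · intro k hk ω
    simp [hk]
  · intro k ω ω' y h
    by_cases hk : k ∈ F
    · simp only [hk, if_true]
      exact hJ k ω ω' y fun j hj => h j (Finset.mem_biUnion.2 ⟨k, hk, hj⟩)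
    · simp [hk]
  · have hmk : ∀ k, Measurable fun ω => ‖a k ω - (if k ∈ F then g k ω else 0)‖ₑ ^ 2 := by
      intro k
      by_cases hk : k ∈ F
      · simp only [hk, if_true]
        exact ((ham k).sub (hg1 k)).enorm.pow_const 2
      · simp only [hk, if_false, sub_zero]
        exact ham2 k
    change ∫⁻ ω, ∑' k, ‖a k ω - (if k ∈ F then g k ω else 0)‖ₑ ^ 2 ∂(PY Λ c ν) ≤ _
    rw [lintegral_tsum fun k => (hmk k).aemeasurable, cc_loc_split _ F]
    have h1 : ∑ k ∈ F, ∫⁻ ω, ‖a k ω - (if k ∈ F then g k ω else 0)‖ₑ ^ 2 ∂(PY Λ c ν)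
        ≤ ENNReal.ofReal (ε / 2) := by
      calc ∑ k ∈ F, ∫⁻ ω, ‖a k ω - (if k ∈ F then g k ω else 0)‖ₑ ^ 2 ∂(PY Λ c ν)
          ≤ ∑ _k ∈ F, ENNReal.ofReal (ε / 2) / (F.card + 1 : ℕ) := by
            refine Finset.sum_le_sum fun k hk => ?_
            simp only [hk, if_true]
            exact hg4 k
        _ = F.card * (ENNReal.ofReal (ε / 2) / (F.card + 1 : ℕ)) := by
            rw [Finset.sum_const, nsmul_eq_mul]
        _ ≤ (F.card + 1 : ℕ) * (ENNReal.ofReal (ε / 2) / (F.card + 1 : ℕ)) := by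
            gcongr
            exact Nat.le_succ _
        _ = ENNReal.ofReal (ε / 2) := by
            rw [ENNReal.mul_div_cancel (by simp) (ENNReal.natCast_ne_top _)]
    have h2 : ∑' k : {k // k ∉ F},
        ∫⁻ ω, ‖a k ω - (if (k : Λ) ∈ F then g k ω else 0)‖ₑ ^ 2 ∂(PY Λ c ν)
        ≤ ENNReal.ofReal (ε / 2) := by
      refine le_trans (le_of_eq ?_) hF
      refine tsum_congr fun k => ?_
      have hk := k.2
      simp only [hk, if_false, sub_zero]
    calc _ ≤ ENNReal.ofReal (ε / 2) + ENNReal.ofReal (ε / 2) := add_le_add h1 h2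
      _ = ENNReal.ofReal ε := by
          rw [← ENNReal.ofReal_add (by linarith) (by linarith)]
          congr 1; ring

end Pool.Agent.Lib.MP_562b47_mp
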