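import Mathlib
import Pool.Agent.Lib.MP_562b47_mp.Ye.Defs
import Pool.Agent.Lib.MP_562b47_mp.Cc.XXx

/-!
The change of a covariant operator in an environment.
(Anderson model, MP_562b47_mp.)
-/

open MeasureTheory Set Filter Topology Complex
open scoped Real ENNReal NNReal InnerProductSpace

set_option linter.unusedSectionVars false

namespace Pool.Agent.Lib.MP_562b47_mp

variable {Λ : Type*} [DecidableEq Λ] [AddCommGroup Λ] [Countable Λ] {Y : Type*}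
  [MeasurableSpace Y] {E : Type*}
  [NormedAddCommGroup E] [InnerProductSpace ℂ E] [CompleteSpace E] {c : ℝ} {e : Λ → E}
  {H : (Λ → ℝ) → (E →L[ℂ] E)} {ν : Measure Y} {τ : Λ → Y → Y}
  {A B : (Λ → ℝ) × Y → (E →L[ℂ] E)} {K L : ℝ} {V : Λ → (E ≃ₗᵢ[ℂ] E)}

/-! ### Measurability -/

theorem ye_xx_measurable_BR (M : Model c e H)
    (hBm : ∀ x y, Measurable fun p => ⟪e x, B p (e y)⟫_ℂ) {P : Type*} [MeasurableSpace P]
    {f : P → (Λ → ℝ) × Y} {g : P → Λ → ℝ} (hf : Measurable f)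
    (hg : Measurable g) {t : ℝ} (ht : 0 < t) {h : P → ℝ} (hh : Measurable h) (x y : Λ) :
    Measurable fun q => ⟪e x, B (f q) (Rv (H (g q)) (Zt t (h q)) (e y))⟫_ℂ := by
  refine measurable_of_tendsto_metrizable' (atTop : Filter (Finset Λ))
    (f := fun s q => ∑ w ∈ s, ⟪e x, B (f q) (e w)⟫_ℂ * Gr e H (g q) (Zt t (h q)) w y) ?_ ?_
  · intro s
    refine Finset.measurable_fun_sum _ fun w _ => ?_
    exact ((hBm x w).comp hf).mul (M.measurable_Gr hg ht hh w y)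
  · rw [tendsto_pi_nhds]
    intro q
    exact M.hasSum_inner (B (f q)) (e x) (Rv (H (g q)) (Zt t (h q)) (e y))

/-! ### Mass transport -/

theorem ye_xx_mt_kernel (hc : 0 < c) (hE : Env ν τ) {q : Λ → Λ → (Λ → ℝ) × Y → ℝ≥0∞}
    (hm : ∀ x y, Measurable (q x y))
    (hcov : ∀ a x y, ∀ᵐ p ∂(PY Λ c ν), q x y (sh τ a p) = q (x + a) (y + a) p) :
    ∑' x, ∫⁻ p, q x 0 p ∂(PY Λ c ν) = ∑' y, ∫⁻ p, q 0 y p ∂(PY Λ c ν) := by
  have h1 : ∀ x, ∫⁻ p, q x 0 p ∂(PY Λ c ν) = ∫⁻ p, q 0 (-x) p ∂(PY Λ c ν) := by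
    intro x
    have h2 := mp_sh (Λ := Λ) hc hE x
    rw [← h2.lintegral_comp (hm 0 (-x))]
    refine lintegral_congr_ae ?_
    filter_upwards [hcov x 0 (-x)] with p hp
    rw [hp, zero_add, neg_add_cancel]
  simp_rw [h1]
  exact (Equiv.neg Λ).tsum_eq (fun y => ∫⁻ p, q 0 y p ∂(PY Λ c ν))

/-- the difference of `B R` and its local approximation -/
noncomputable def ye_xx_QQ (e : Λ → E) (H : (Λ → ℝ) → (E →L[ℂ] E))
    (B : (Λ → ℝ) × Y → (E →L[ℂ] E)) (τ : Λ → Y → Y) (F : Finset Λ)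
    (β : Λ → (Λ → ℝ) × Y → ℂ) (x y : Λ) (p : (Λ → ℝ) × Y) (z : ℂ) : ℂ :=
  ⟪e x, B p (Rv (H p.1) z (e y))⟫_ℂ - ∑ k ∈ F, β k (sh τ (x - k) p) * Gr e H p.1 z (x - k) y

theorem ye_xx_measurable_QQ (M : Model c e H) (hE : Env ν τ)
    (hBm : ∀ x y, Measurable fun p => ⟪e x, B p (e y)⟫_ℂ) {F : Finset Λ}
    {β : Λ → (Λ → ℝ) × Y → ℂ} (hβ : ∀ k, Measurable (β k)) {P : Type*} [MeasurableSpace P]
    {g : P → (Λ → ℝ) × Y} (hg : Measurable g) {t : ℝ} (ht : 0 < t) {h : P → ℝ}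
    (hh : Measurable h) (x y : Λ) :
    Measurable fun q => ye_xx_QQ e H B τ F β x y (g q) (Zt t (h q)) := by
  unfold ye_xx_QQ
  refine (ye_xx_measurable_BR M hBm hg (measurable_fst.comp hg) ht hh x y).sub ?_
  refine Finset.measurable_fun_sum _ fun k _ => ?_
  exact ((hβ k).comp ((mp_sh M.hc hE (x - k)).measurable.comp hg)).mul
    (M.measurable_Gr (measurable_fst.comp hg) ht hh _ y)

theorem ye_xx_sh_sh (hE : Env ν τ) (a b : Λ) (p : (Λ → ℝ) × Y) :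
    sh τ b (sh τ a p) = sh τ (b + a) p := by
  unfold sh
  refine Prod.ext ?_ ?_
  · funext j
    show p.1 (j + b + a) = p.1 (j + (b + a))
    rw [add_assoc]
  · exact (hE.add b a p.2).symm

theorem ye_xx_QQ_cov (M : Model c e H) (hcov : ShiftCov e H) (hE : Env ν τ)
    (hBc : ∀ a x y, ∀ᵐ p ∂(PY Λ c ν), ⟪e x, B (sh τ a p) (e y)⟫_ℂ
        = ⟪e (x + a), B p (e (y + a))⟫_ℂ) (F : Finset Λ)
    (β : Λ → (Λ → ℝ) × Y → ℂ) {z : ℂ} (hz : 0 < z.im) (a x y : Λ) :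
    ∀ᵐ p ∂(PY Λ c ν), ye_xx_QQ e H B τ F β x y (sh τ a p) z
      = ye_xx_QQ e H B τ F β (x + a) (y + a) p z := by
  have h1 : ∀ᵐ p ∂(PY Λ c ν), ∀ w, ⟪e x, B (sh τ a p) (e w)⟫_ℂ
      = ⟪e (x + a), B p (e (w + a))⟫_ℂ := ae_all_iff.mpr fun w => hBc a x w
  filter_upwards [h1] with p hp
  unfold ye_xx_QQ
  congr 1
  · have h2 := M.hasSum_inner (B (sh τ a p)) (e x)
      (Rv (H (fun j => p.1 (j + a))) z (e y))
    have h3 := M.hasSum_inner (B p) (e (x + a)) (Rv (H p.1) z (e (y + a)))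
    have h4 := (Equiv.addRight a).hasSum_iff.mpr h3
    refine h2.unique ?_
    convert h4 using 2 with w
    simp only [Function.comp, Equiv.coe_addRight]
    rw [hp w]
    congr 1
    exact hcov a p.1 z w y hz
  · refine Finset.sum_congr rfl fun k _ => ?_
    have e2 : x - k + a = x + a - k := by abel
    rw [ye_xx_sh_sh hE, e2]
    show β k _ * Gr e H (fun j => p.1 (j + a)) z (x - k) y = _
    rw [hcov a p.1 z (x - k) y hz, e2]

/-- the row vector -/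
noncomputable def ye_xx_ww (e : Λ → E) (B : (Λ → ℝ) × Y → (E →L[ℂ] E)) (τ : Λ → Y → Y)
    (F : Finset Λ) (β : Λ → (Λ → ℝ) × Y → ℂ) (p : (Λ → ℝ) × Y) : E :=
  (B p).adjoint (e 0) - ∑ k ∈ F, (starRingEnd ℂ) (β k (sh τ (0 - k) p)) • e (0 - k)

theorem ye_xx_QQ_row (H : (Λ → ℝ) → (E →L[ℂ] E)) (F : Finset Λ) (β : Λ → (Λ → ℝ) × Y → ℂ)
    (p : (Λ → ℝ) × Y) (z : ℂ) (y : Λ) :
    ye_xx_QQ e H B τ F β 0 y p z = ⟪ye_xx_ww e B τ F β p, Rv (H p.1) z (e y)⟫_ℂ := by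
  unfold ye_xx_QQ ye_xx_ww
  rw [inner_sub_left, sum_inner, ContinuousLinearMap.adjoint_inner_left]
  congr 1
  refine Finset.sum_congr rfl fun k _ => ?_
  rw [inner_smul_left, Complex.conj_conj]
  rfl

theorem ye_xx_tsum_QQ_row (M : Model c e H) (F : Finset Λ) (β : Λ → (Λ → ℝ) × Y → ℂ)
    (p : (Λ → ℝ) × Y) {z : ℂ} (hz : 0 < z.im) :
    ∑' y, ‖ye_xx_QQ e H B τ F β 0 y p z‖ₑ ^ 2 = ‖Rv (H p.1) z (ye_xx_ww e B τ F β p)‖ₑ ^ 2 := by
  have h1 : ∀ y, ‖ye_xx_QQ e H B τ F β 0 y p z‖ₑ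
      = ‖⟪e y, Rv (H p.1) ((starRingEnd ℂ) z) (ye_xx_ww e B τ F β p)⟫_ℂ‖ₑ := by
    intro y
    rw [ye_xx_QQ_row, ← Rv_conj (M.sa p.1) hz.ne', ← ofReal_norm, ← ofReal_norm, norm_inner_symm]
  simp_rw [h1]
  rw [← M.parseval_enorm, ← ofReal_norm, ← ofReal_norm, norm_Rv_conj (M.sa p.1) hz.ne']

theorem ye_xx_lintegral_ww (M : Model c e H) (hE : Env ν τ)
    (hBm : ∀ x y, Measurable fun p => ⟪e x, B p (e y)⟫_ℂ)
    (hBc : ∀ a x y, ∀ᵐ p ∂(PY Λ c ν), ⟪e x, B (sh τ a p) (e y)⟫_ℂ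
        = ⟪e (x + a), B p (e (y + a))⟫_ℂ) {F : Finset Λ}
    {β : Λ → (Λ → ℝ) × Y → ℂ} (hβ : ∀ k, Measurable (β k))
    (hF : ∀ k, k ∉ F → ∀ p, β k p = 0) :
    ∫⁻ p, ‖ye_xx_ww e B τ F β p‖ₑ ^ 2 ∂(PY Λ c ν)
      ≤ ∫⁻ p, ∑' k, ‖⟪e k, B p (e 0)⟫_ℂ - β k p‖ₑ ^ 2 ∂(PY Λ c ν) := by
  have hgm : ∀ k, Measurable fun p => ‖⟪e k, B p (e 0)⟫_ℂ - β k p‖ₑ ^ 2 := fun k =>
    (((hBm k 0).sub (hβ k)).enorm).pow_const 2
  have h1 : ∀ p k, ⟪e (0 - k), ye_xx_ww e B τ F β p⟫_ℂ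
      = (starRingEnd ℂ) (⟪e 0, B p (e (0 - k))⟫_ℂ - β k (sh τ (0 - k) p)) := by
    intro p k
    unfold ye_xx_ww
    rw [inner_sub_right, ContinuousLinearMap.adjoint_inner_right, inner_sum, map_sub,
      inner_conj_symm]
    congr 1
    have h2 : ∀ i ∈ F, ⟪e (0 - k), (starRingEnd ℂ) (β i (sh τ (0 - i) p)) • e (0 - i)⟫_ℂ
        = if i = k then (starRingEnd ℂ) (β k (sh τ (0 - k) p)) else 0 := by
      intro i _
      rw [inner_smul_right, orthonormal_iff_ite.mp M.ortho]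
      by_cases h : i = k
      · subst h; simp
      · rw [if_neg, if_neg h, mul_zero]
        intro h'
        exact h (by simpa using h'.symm)
    rw [Finset.sum_congr rfl h2, Finset.sum_ite_eq']
    by_cases hk : k ∈ F
    · rw [if_pos hk]
    · rw [if_neg hk, hF k hk, map_zero]
  have h2 : ∀ p, ‖ye_xx_ww e B τ F β p‖ₑ ^ 2 = ∑' k, ‖⟪e 0, B p (e (0 - k))⟫_ℂ
      - β k (sh τ (0 - k) p)‖ₑ ^ 2 := by
    intro p
    rw [M.parseval_enorm, ← (Equiv.subLeft (0:Λ)).tsum_eq]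
    refine tsum_congr fun k => ?_
    rw [Equiv.subLeft_apply, h1, ← ofReal_norm, ← ofReal_norm, Complex.norm_conj]
  have hm2 : ∀ k, Measurable fun p : (Λ → ℝ) × Y => ‖⟪e 0, B p (e (0 - k))⟫_ℂ
      - β k (sh τ (0 - k) p)‖ₑ ^ 2 := fun k =>
    (((hBm 0 (0 - k)).sub ((hβ k).comp (mp_sh M.hc hE (0 - k)).measurable)).enorm).pow_const 2
  simp_rw [h2]
  rw [lintegral_tsum (fun k => (hm2 k).aemeasurable), lintegral_tsum (fun k => (hgm k).aemeasurable)]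
  refine ENNReal.tsum_le_tsum fun k => le_of_eq ?_
  have h3 := mp_sh (Λ := Λ) M.hc hE (0 - k)
  rw [← h3.lintegral_comp (hgm k)]
  refine lintegral_congr_ae ?_
  filter_upwards [hBc (0 - k) k 0] with p hp
  rw [hp]
  have e1 : k + (0 - k) = 0 := by abel
  have e2 : 0 + (0 - k) = 0 - k := by abel
  rw [e1, e2]

/-- the mean square of the error -/
noncomputable def ye_xx_yy (e : Λ → E) (H : (Λ → ℝ) → (E →L[ℂ] E))
    (B : (Λ → ℝ) × Y → (E →L[ℂ] E)) (τ : Λ → Y → Y) (F : Finset Λ)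
    (β : Λ → (Λ → ℝ) × Y → ℂ) (t : ℝ) (r : ((Λ → ℝ) × Y) × ℝ) : ℝ≥0∞ :=
  ENNReal.ofReal (Zt t r.2).im * ∑' x, ‖ye_xx_QQ e H B τ F β x 0 r.1 (Zt t r.2)‖ₑ ^ 2

theorem ye_xx_measurable_yy (M : Model c e H) (hE : Env ν τ)
    (hBm : ∀ x y, Measurable fun p => ⟪e x, B p (e y)⟫_ℂ) {F : Finset Λ}
    {β : Λ → (Λ → ℝ) × Y → ℂ} (hβ : ∀ k, Measurable (β k)) {t : ℝ} (ht : 0 < t) :
    Measurable (ye_xx_yy e H B τ F β t) := by
  unfold ye_xx_yy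
  refine (measurable_Zt_im measurable_snd).mul ?_
  refine Measurable.ennreal_tsum fun x => ?_
  exact ((ye_xx_measurable_QQ M hE hBm hβ measurable_fst ht measurable_snd x 0).enorm).pow_const 2

theorem ye_xx_lintegral_yy (M : Model c e H) (hcov : ShiftCov e H) (hE : Env ν τ)
    (hBm : ∀ x y, Measurable fun p => ⟪e x, B p (e y)⟫_ℂ)
    (hBc : ∀ a x y, ∀ᵐ p ∂(PY Λ c ν), ⟪e x, B (sh τ a p) (e y)⟫_ℂ
        = ⟪e (x + a), B p (e (y + a))⟫_ℂ) {F : Finset Λ}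
    {β : Λ → (Λ → ℝ) × Y → ℂ} (hβ : ∀ k, Measurable (β k))
    (hF : ∀ k, k ∉ F → ∀ p, β k p = 0) {t : ℝ} (ht : 0 < t) :
    ∫⁻ r, ye_xx_yy e H B τ F β t r ∂((PY Λ c ν).prod kap)
      ≤ ∫⁻ p, ∑' k, ‖⟪e k, B p (e 0)⟫_ℂ - β k p‖ₑ ^ 2 ∂(PY Λ c ν) := by
  have := PY_prob (Y := Y) Λ M.hc hE.prob
  set q : ℝ → Λ → Λ → (Λ → ℝ) × Y → ℝ≥0∞ := fun s x y p =>
    ‖ye_xx_QQ e H B τ F β x y p (Zt t s)‖ₑ ^ 2 with hq
  have hQ : ∀ x y, Measurable fun r : ((Λ → ℝ) × Y) × ℝ => q r.2 x y r.1 := fun x y =>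
    ((ye_xx_measurable_QQ M hE hBm hβ measurable_fst ht measurable_snd x y).enorm).pow_const 2
  have hQs : ∀ s x y, Measurable (q s x y) := by
    intro s x y
    have h := ye_xx_measurable_QQ (P := (Λ → ℝ) × Y) (g := fun p => p) (h := fun _ => s) M hE hBm
      hβ (F := F) measurable_id ht measurable_const x y
    exact (h.enorm).pow_const 2
  have hyy : ∀ p s, ye_xx_yy e H B τ F β t (p, s)
      = ENNReal.ofReal (Zt t s).im * ∑' x, q s x 0 p := fun p s => rfl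
  have hrow : ∀ p s, ENNReal.ofReal (Zt t s).im * ∑' y, q s 0 y p
      = ENNReal.ofReal (Zt t s).im * ‖Rv (H p.1) (Zt t s) (ye_xx_ww e B τ F β p)‖ₑ ^ 2 := by
    intro p s
    rw [← ye_xx_tsum_QQ_row M F β p (Zt_im_pos ht s)]
  have hqcov : ∀ s a x y, ∀ᵐ p ∂(PY Λ c ν), q s x y (sh τ a p) = q s (x + a) (y + a) p := by
    intro s a x y
    filter_upwards [ye_xx_QQ_cov M hcov hE hBc F β (Zt_im_pos ht s) a x y] with p hp
    simp only [hq]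
    rw [hp]
  have hmeasyy := ye_xx_measurable_yy M hE hBm hβ ht (F := F)
  clear_value q
  have h1 : ∀ s, ∫⁻ p, ye_xx_yy e H B τ F β t (p, s) ∂(PY Λ c ν)
      = ∫⁻ p, ENNReal.ofReal (Zt t s).im * ∑' y, q s 0 y p ∂(PY Λ c ν) := by
    intro s
    simp_rw [hyy]
    rw [lintegral_const_mul _ (Measurable.ennreal_tsum fun x => hQs s x 0),
      lintegral_const_mul _ (Measurable.ennreal_tsum fun y => hQs s 0 y),
      lintegral_tsum (fun x => (hQs s x 0).aemeasurable),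
      lintegral_tsum (fun y => (hQs s 0 y).aemeasurable)]
    congr 1
    exact ye_xx_mt_kernel M.hc hE (fun x y => hQs s x y) (hqcov s)
  have hR : Measurable fun r : ((Λ → ℝ) × Y) × ℝ => ENNReal.ofReal (Zt t r.2).im
      * ∑' y, q r.2 0 y r.1 :=
    (measurable_Zt_im measurable_snd).mul (Measurable.ennreal_tsum fun y => hQ 0 y)
  have h2 : ∫⁻ r, ye_xx_yy e H B τ F β t r ∂((PY Λ c ν).prod kap)
      = ∫⁻ s, ∫⁻ p, ye_xx_yy e H B τ F β t (p, s) ∂(PY Λ c ν) ∂kap :=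
    lintegral_prod_symm _ hmeasyy.aemeasurable
  have h3 : ∫⁻ s, ∫⁻ p, ENNReal.ofReal (Zt t s).im * ∑' y, q s 0 y p ∂(PY Λ c ν) ∂kap
      = ∫⁻ p, ∫⁻ s, ENNReal.ofReal (Zt t s).im * ∑' y, q s 0 y p ∂kap ∂(PY Λ c ν) := by
    have h4 := lintegral_prod_symm (μ := PY Λ c ν) (ν := kap) _ hR.aemeasurable
    have h5 := lintegral_prod (μ := PY Λ c ν) (ν := kap) _ hR.aemeasurable
    exact h4.symm.trans h5
  rw [h2, lintegral_congr h1, h3]
  refine le_trans (lintegral_mono fun p => ?_) (ye_xx_lintegral_ww M hE hBm hBc hβ hF)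
  refine le_trans (le_of_eq ?_) (lintegral_Rv_le (M.sa p.1) ht (ye_xx_ww e B τ F β p))
  exact lintegral_congr fun s => hrow p s

/-- the mean square of the error, at `x` -/
noncomputable def ye_xx_yyx (e : Λ → E) (H : (Λ → ℝ) → (E →L[ℂ] E))
    (B : (Λ → ℝ) × Y → (E →L[ℂ] E)) (τ : Λ → Y → Y) (F : Finset Λ)
    (β : Λ → (Λ → ℝ) × Y → ℂ) (t : ℝ) (x : Λ) (r : ((Λ → ℝ) × Y) × ℝ) : ℝ≥0∞ :=
  ENNReal.ofReal (Zt t r.2).im * ∑' y, ‖ye_xx_QQ e H B τ F β y x r.1 (Zt t r.2)‖ₑ ^ 2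

theorem ye_xx_measurable_yyx (M : Model c e H) (hE : Env ν τ)
    (hBm : ∀ x y, Measurable fun p => ⟪e x, B p (e y)⟫_ℂ) {F : Finset Λ}
    {β : Λ → (Λ → ℝ) × Y → ℂ} (hβ : ∀ k, Measurable (β k)) {t : ℝ} (ht : 0 < t) (x : Λ) :
    Measurable (ye_xx_yyx e H B τ F β t x) := by
  unfold ye_xx_yyx
  refine (measurable_Zt_im measurable_snd).mul ?_
  refine Measurable.ennreal_tsum fun y => ?_
  exact ((ye_xx_measurable_QQ M hE hBm hβ measurable_fst ht measurable_snd y x).enorm).pow_const 2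

theorem ye_xx_lintegral_yyx (M : Model c e H) (hcov : ShiftCov e H) (hE : Env ν τ)
    (hBm : ∀ x y, Measurable fun p => ⟪e x, B p (e y)⟫_ℂ)
    (hBc : ∀ a x y, ∀ᵐ p ∂(PY Λ c ν), ⟪e x, B (sh τ a p) (e y)⟫_ℂ
        = ⟪e (x + a), B p (e (y + a))⟫_ℂ) {F : Finset Λ}
    {β : Λ → (Λ → ℝ) × Y → ℂ} (hβ : ∀ k, Measurable (β k))
    (hF : ∀ k, k ∉ F → ∀ p, β k p = 0) {t : ℝ} (ht : 0 < t) (x : Λ) :
    ∫⁻ r, ye_xx_yyx e H B τ F β t x r ∂((PY Λ c ν).prod kap)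
      ≤ ∫⁻ p, ∑' k, ‖⟪e k, B p (e 0)⟫_ℂ - β k p‖ₑ ^ 2 ∂(PY Λ c ν) := by
  have := PY_prob (Y := Y) Λ M.hc hE.prob
  refine le_trans (le_of_eq ?_) (ye_xx_lintegral_yy M hcov hE hBm hBc hβ hF ht)
  rw [lintegral_prod_symm _ (ye_xx_measurable_yyx M hE hBm hβ ht x).aemeasurable,
    lintegral_prod_symm _ (ye_xx_measurable_yy M hE hBm hβ ht).aemeasurable]
  refine lintegral_congr fun s => ?_
  have hsh := mp_sh (Λ := Λ) M.hc hE x
  have hm : Measurable fun p => ye_xx_yy e H B τ F β t (p, s) :=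
    (ye_xx_measurable_yy M hE hBm hβ ht).comp (measurable_id.prodMk measurable_const)
  rw [← hsh.lintegral_comp hm]
  refine lintegral_congr_ae ?_
  have h1 : ∀ᵐ p ∂(PY Λ c ν), ∀ y, ye_xx_QQ e H B τ F β y 0 (sh τ x p) (Zt t s)
      = ye_xx_QQ e H B τ F β (y + x) (0 + x) p (Zt t s) :=
    ae_all_iff.mpr fun y => ye_xx_QQ_cov M hcov hE hBc F β (Zt_im_pos ht s) x y 0
  filter_upwards [h1] with p hp
  show ye_xx_yyx e H B τ F β t x (p, s) = ye_xx_yy e H B τ F β t (sh τ x p, s)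
  unfold ye_xx_yyx ye_xx_yy
  congr 1
  show ∑' y, ‖ye_xx_QQ e H B τ F β y x p (Zt t s)‖ₑ ^ 2
    = ∑' y, ‖ye_xx_QQ e H B τ F β y 0 (sh τ x p) (Zt t s)‖ₑ ^ 2
  simp_rw [hp, zero_add]
  exact ((Equiv.addRight x).tsum_eq (fun y => ‖ye_xx_QQ e H B τ F β y x p (Zt t s)‖ₑ ^ 2)).symm

theorem ye_xx_le (M : Model c e H) {F J : Finset Λ} {β : Λ → (Λ → ℝ) × Y → ℂ} {C : ℝ}
    (hC : ∀ k p, ‖β k p‖ ≤ C)
    (hJ : ∀ k ω ω' y, (∀ j ∈ J, ω j = ω' j) → β k (ω, y) = β k (ω', y)) (x : Λ) (k : ℕ)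
    (q : (((Λ → ℝ) × Y) × ℝ) × ℝ) :
    ENNReal.ofReal (Zt (tk k) q.2).im
        * ‖(B (yup q) - B q.1.1) (Rv (H (yup q).1) (Zt (tk k) q.2) (e x))‖ₑ ^ 2
      ≤ 4 * ye_xx_yyx e H B τ F β (tk k) x (yup q, q.2)
        + 4 * ye_xx_yyx e H B τ F β (tk k) x (q.1.1, q.2)
        + 4 * ye_xx_yy e H B τ F β (tk k) (q.1.1, q.2) * ‖cc_XXx_tau c e H x k (fgt q)‖ₑ ^ 2
        + ENNReal.ofReal (Zt (tk k) q.2).im
          * (4 * ((F.card : ℝ≥0∞) * ENNReal.ofReal (2 * C)) ^ 2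
            * cc_XXx_SSg e H J x k ((yup q).1, q.2) ^ 2) := by
  set z := Zt (tk k) q.2 with hzdef
  have hz : 0 < z.im := Zt_im_pos (tk_pos k) q.2
  set ω := q.1.1 with hω
  set ω' := yup q with hω'
  have hω'e : ω'.1 = Function.update ω.1 0 q.1.2 := rfl
  set s : ℂ := ((clp c q.1.2 - clp c (ω.1 0) : ℝ) : ℂ) with hs
  set θ := cc_XXx_tau c e H x k (fgt q) with hθ
  have hθ' : θ = s * ⟪e 0, Rv (H ω'.1) z (e x)⟫_ℂ := rfl
  have hR : Rv (H ω'.1) z (e x) = Rv (H ω.1) z (e x) - θ • Rv (H ω.1) z (e 0) := by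
    have h1 := Rv_sub_Rv (M.sa ω'.1) (M.sa ω.1) hz.ne' hz.ne' (e x)
    have h2 : (H ω.1 - H ω'.1) (Rv (H ω'.1) z (e x))
        = -(θ • e 0) := by
      have := M.upd ω.1 0 q.1.2 (Rv (H ω'.1) z (e x))
      rw [← hω'e, ← hs] at this
      show H ω.1 (Rv (H ω'.1) z (e x)) - H ω'.1 (Rv (H ω'.1) z (e x)) = _
      rw [this, hθ', smul_smul]; abel
    rw [h2, sub_self, zero_smul, sub_zero, map_neg, neg_neg, map_smul] at h1
    rw [← h1]; abel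
  have hG : ∀ w, Gr e H ω'.1 z w x = Gr e H ω.1 z w x - θ * Gr e H ω.1 z w 0 := by
    intro w
    unfold Gr
    rw [hR, inner_sub_right, inner_smul_right]
  set L : Λ → ℂ := fun y => ∑ i ∈ F, (β i (sh τ (y - i) ω')
    - β i (sh τ (y - i) ω)) * Gr e H ω'.1 z (y - i) x with hL
  have h1 : ∀ y, ⟪e y, (B ω' - B ω) (Rv (H ω'.1) z (e x))⟫_ℂ
      = ye_xx_QQ e H B τ F β y x ω' z - ye_xx_QQ e H B τ F β y x ω z
        + θ * ye_xx_QQ e H B τ F β y 0 ω z + L y := by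
    intro y
    have h2 : ⟪e y, B ω (Rv (H ω'.1) z (e x))⟫_ℂ
        = ⟪e y, B ω (Rv (H ω.1) z (e x))⟫_ℂ - θ * ⟪e y, B ω (Rv (H ω.1) z (e 0))⟫_ℂ := by
      rw [hR, map_sub, map_smul, inner_sub_right, inner_smul_right]
    have h3 : ∑ i ∈ F, β i (sh τ (y - i) ω) * Gr e H ω'.1 z (y - i) x
        = ∑ i ∈ F, β i (sh τ (y - i) ω) * Gr e H ω.1 z (y - i) x
          - θ * ∑ i ∈ F, β i (sh τ (y - i) ω) * Gr e H ω.1 z (y - i) 0 := by
      rw [Finset.mul_sum, ← Finset.sum_sub_distrib]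
      refine Finset.sum_congr rfl fun i _ => ?_
      rw [hG]; ring
    have h4 : L y = ∑ i ∈ F, β i (sh τ (y - i) ω') * Gr e H ω'.1 z (y - i) x
        - ∑ i ∈ F, β i (sh τ (y - i) ω) * Gr e H ω'.1 z (y - i) x := by
      rw [hL]
      simp only [sub_mul, Finset.sum_sub_distrib]
    rw [h4, h3]
    unfold ye_xx_QQ
    show ⟪e y, B ω' (Rv (H ω'.1) z (e x)) - B ω (Rv (H ω'.1) z (e x))⟫_ℂ = _
    rw [inner_sub_right, h2]
    ring
  -- the local part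
  set f : Λ → ℝ≥0∞ := fun y =>
    if -y ∈ J then ENNReal.ofReal (2 * C) * ‖Gr e H ω'.1 z y x‖ₑ else 0 with hf
  have hLf : ∀ y, ‖L y‖ₑ ≤ ∑ i ∈ F, f (y - i) := by
    intro y
    rw [hL]
    refine (enorm_sum_le _ _).trans (Finset.sum_le_sum fun i _ => ?_)
    rw [hf]
    simp only
    by_cases hy : -(y - i) ∈ J
    · rw [if_pos hy, enorm_mul]
      gcongr
      rw [← ofReal_norm]
      refine ENNReal.ofReal_le_ofReal ((norm_sub_le _ _).trans ?_)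
      linarith [hC i (sh τ (y - i) ω'), hC i (sh τ (y - i) ω)]
    · rw [if_neg hy]
      have : β i (sh τ (y - i) ω') = β i (sh τ (y - i) ω) := by
        refine hJ i _ _ _ fun j hj => ?_
        rw [hω'e, Function.update_of_ne]
        intro h0
        apply hy
        have : j = -(y - i) := eq_neg_of_add_eq_zero_left h0
        rwa [← this]
      rw [this, sub_self, zero_mul, enorm_zero]
  have hsum : ∑' y, ‖L y‖ₑ
      ≤ (F.card : ℝ≥0∞) * ENNReal.ofReal (2 * C) * cc_XXx_SSg e H J x k (ω'.1, q.2) := by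
    calc ∑' y, ‖L y‖ₑ ≤ ∑' y, ∑ i ∈ F, f (y - i) := ENNReal.tsum_le_tsum hLf
      _ = ∑ i ∈ F, ∑' y, f (y - i) := Summable.tsum_finsetSum fun i _ => ENNReal.summable
      _ = ∑ i ∈ F, ∑' y, f y := by
          refine Finset.sum_congr rfl fun i _ => ?_
          exact (Equiv.subRight i).tsum_eq f
      _ = (F.card : ℝ≥0∞) * ∑' y, f y := by rw [Finset.sum_const, nsmul_eq_mul]
      _ = _ := by
          rw [mul_assoc]
          congr 1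
          rw [← (Equiv.neg Λ).tsum_eq]
          unfold cc_XXx_SSg
          rw [Finset.mul_sum, tsum_eq_sum (s := J)]
          · refine Finset.sum_congr rfl fun j hj => ?_
            rw [hf]
            simp only [Equiv.neg_apply, neg_neg]
            rw [if_pos hj]
          · intro j hj
            rw [hf]
            simp only [Equiv.neg_apply, neg_neg]
            rw [if_neg hj]
  have hsum2 : ∑' y, ‖L y‖ₑ ^ 2
      ≤ ((F.card : ℝ≥0∞) * ENNReal.ofReal (2 * C)) ^ 2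
        * cc_XXx_SSg e H J x k (ω'.1, q.2) ^ 2 := by
    refine (tsum_sq_le _).trans ?_
    rw [← mul_pow]
    gcongr
  rw [M.parseval_enorm]
  have h2 : ∀ y, ‖⟪e y, (B ω' - B ω) (Rv (H ω'.1) z (e x))⟫_ℂ‖ₑ ^ 2
      ≤ 4 * (‖ye_xx_QQ e H B τ F β y x ω' z‖ₑ ^ 2 + ‖ye_xx_QQ e H B τ F β y x ω z‖ₑ ^ 2
        + ‖θ‖ₑ ^ 2 * ‖ye_xx_QQ e H B τ F β y 0 ω z‖ₑ ^ 2 + ‖L y‖ₑ ^ 2) := by
    intro y
    rw [h1]
    refine le_trans ?_ (le_trans (cc_XXx_sq_four ‖ye_xx_QQ e H B τ F β y x ω' z‖ₑ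
      ‖ye_xx_QQ e H B τ F β y x ω z‖ₑ (‖θ‖ₑ * ‖ye_xx_QQ e H B τ F β y 0 ω z‖ₑ) ‖L y‖ₑ)
      (le_of_eq (by rw [mul_pow])))
    refine pow_le_pow_left' ?_ 2
    refine (enorm_add_le _ _).trans ?_
    gcongr
    refine (enorm_add_le _ _).trans ?_
    rw [enorm_mul]
    gcongr
    exact enorm_sub_le
  calc ENNReal.ofReal z.im * ∑' y, ‖⟪e y, (B ω' - B ω) (Rv (H ω'.1) z (e x))⟫_ℂ‖ₑ ^ 2
      ≤ ENNReal.ofReal z.im * ∑' y, 4 * (‖ye_xx_QQ e H B τ F β y x ω' z‖ₑ ^ 2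
        + ‖ye_xx_QQ e H B τ F β y x ω z‖ₑ ^ 2
        + ‖θ‖ₑ ^ 2 * ‖ye_xx_QQ e H B τ F β y 0 ω z‖ₑ ^ 2 + ‖L y‖ₑ ^ 2) := by
        gcongr with y
        exact h2 y
    _ = 4 * (ENNReal.ofReal z.im * ∑' y, ‖ye_xx_QQ e H B τ F β y x ω' z‖ₑ ^ 2)
        + 4 * (ENNReal.ofReal z.im * ∑' y, ‖ye_xx_QQ e H B τ F β y x ω z‖ₑ ^ 2)
        + 4 * (ENNReal.ofReal z.im * ∑' y, ‖ye_xx_QQ e H B τ F β y 0 ω z‖ₑ ^ 2) * ‖θ‖ₑ ^ 2
        + ENNReal.ofReal z.im * (4 * ∑' y, ‖L y‖ₑ ^ 2) := by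
        rw [ENNReal.tsum_mul_left, ENNReal.tsum_add, ENNReal.tsum_add, ENNReal.tsum_add,
          ENNReal.tsum_mul_left]
        ring
    _ ≤ _ := by
        unfold ye_xx_yyx ye_xx_yy
        refine add_le_add le_rfl (mul_le_mul' le_rfl ?_)
        rw [mul_assoc]
        exact mul_le_mul' le_rfl hsum2

/-- port of Model.null_XXx (Comm2, Cc/XXx) -/
theorem Model.ynull_XX (M : Model c e H) (hcov : ShiftCov e H) (hE : Env ν τ)
    (hB : YCov c ν τ e B K) (hBl : YLoc c ν e B) (x : Λ) :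
    Null (M4 Λ c ν) (fun k q => YX e H B k x q) := by
  have hBm := hB.meas
  have hBc := hB.cov
  have := M4_prob (Y := Y) Λ M.hc hE.prob
  unfold Null
  rw [ENNReal.tendsto_atTop_zero]
  intro η hη
  have hη5 : 0 < η / 5 := ENNReal.div_pos hη.ne' (by norm_num)
  have htau : Tght (M4 Λ c ν) (fun k q => ‖cc_XXx_tau c e H x k (fgt q)‖ₑ ^ 2) :=
    (cc_XXx_tght_tau M x).comp (mp4_fgt M.hc hE.prob)
      (fun k => ((cc_XXx_measurable_tau M x k).enorm).pow_const 2)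
  obtain ⟨δ, hδ0, hδ1, hδ⟩ := htau (η / 5) hη5
  have hδinv : δ⁻¹ ≠ ⊤ := ENNReal.inv_ne_top.mpr hδ0.ne'
  -- choice of `ε`
  have hθ : 0 < η / 5 / (4 * δ⁻¹) := ENNReal.div_pos hη5.ne' (ENNReal.mul_ne_top (by norm_num) hδinv)
  obtain ⟨ε, hε0, hεle⟩ := exists_ofReal_le hθ
  have h3ε : 4 * δ⁻¹ * ENNReal.ofReal ε ≤ η / 5 := by
    rw [mul_comm]
    exact (ENNReal.le_div_iff_mul_le (Or.inl (by simp [hδ1.trans_lt ENNReal.one_lt_top |>.ne]))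
      (Or.inl (ENNReal.mul_ne_top (by norm_num) hδinv))).mp hεle
  have h3ε' : 4 * ENNReal.ofReal ε ≤ η / 5 := by
    refine le_trans ?_ h3ε
    have : 1 ≤ δ⁻¹ := ENNReal.one_le_inv.mpr hδ1
    calc 4 * ENNReal.ofReal ε = 4 * 1 * ENNReal.ofReal ε := by rw [mul_one]
      _ ≤ _ := by gcongr
  obtain ⟨F, J, β, C, hβm, hβC, hβF, hβJ, hβε⟩ := hBl ε hε0
  have hyle : ∀ k, ∫⁻ r, ye_xx_yy e H B τ F β (tk k) r ∂((PY Λ c ν).prod kap)
      ≤ ENNReal.ofReal ε := fun k =>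
    (ye_xx_lintegral_yy M hcov hE hBm hBc hβm hβF (tk_pos k)).trans hβε
  have hym : ∀ k, Measurable (ye_xx_yy e H B τ F β (tk k)) := fun k =>
    ye_xx_measurable_yy M hE hBm hβm (tk_pos k)
  have hyxle : ∀ k, ∫⁻ r, ye_xx_yyx e H B τ F β (tk k) x r ∂((PY Λ c ν).prod kap)
      ≤ ENNReal.ofReal ε := fun k =>
    (ye_xx_lintegral_yyx M hcov hE hBm hBc hβm hβF (tk_pos k) x).trans hβε
  have hyxm : ∀ k, Measurable (ye_xx_yyx e H B τ F β (tk k) x) := fun k =>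
    ye_xx_measurable_yyx M hE hBm hβm (tk_pos k) x
  have hnew := mp4_new (Λ := Λ) M.hc hE.prob
  have hold := mp4_old (Λ := Λ) M.hc hE.prob
  have hnewp : MeasurePreserving (fun q : (((Λ → ℝ) × Y) × ℝ) × ℝ => ((yup q).1, q.2))
      (M4 Λ c ν) ((PP Λ c).prod kap) := (mp_pk M.hc hE.prob).comp hnew
  -- the four terms
  set A0 : ℕ → ((((Λ → ℝ) × Y) × ℝ) × ℝ) → ℝ≥0∞ := fun k q =>
    4 * ye_xx_yyx e H B τ F β (tk k) x (q.1.1, q.2) with hA0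
  set A1 : ℕ → ((((Λ → ℝ) × Y) × ℝ) × ℝ) → ℝ≥0∞ := fun k q =>
    4 * ye_xx_yyx e H B τ F β (tk k) x (yup q, q.2) with hA1
  set A2 : ℕ → ((((Λ → ℝ) × Y) × ℝ) × ℝ) → ℝ≥0∞ := fun k q =>
    4 * ye_xx_yy e H B τ F β (tk k) (q.1.1, q.2) with hA2
  set A3 : ℕ → ((((Λ → ℝ) × Y) × ℝ) × ℝ) → ℝ≥0∞ := fun k q => ENNReal.ofReal (Zt (tk k) q.2).im
    * (4 * ((F.card : ℝ≥0∞) * ENNReal.ofReal (2 * C)) ^ 2
      * cc_XXx_SSg e H J x k ((yup q).1, q.2) ^ 2) with hA3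
  have hA0m : ∀ k, Measurable (A0 k) := fun k => ((hyxm k).comp hold.measurable).const_mul _
  have hA1m : ∀ k, Measurable (A1 k) := fun k => ((hyxm k).comp hnew.measurable).const_mul _
  have hA2m : ∀ k, Measurable (A2 k) := fun k => ((hym k).comp hold.measurable).const_mul _
  have hSm : ∀ k, Measurable fun q : (((Λ → ℝ) × Y) × ℝ) × ℝ =>
      cc_XXx_SSg e H J x k ((yup q).1, q.2) :=
    fun k => (cc_XXx_measurable_SSg M J x k).comp hnewp.measurable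
  have hA0i : ∀ k, ∫⁻ q, A0 k q ∂(M4 Λ c ν) ≤ 4 * ENNReal.ofReal ε := by
    intro k
    rw [hA0]
    simp only
    rw [lintegral_const_mul' _ _ (by norm_num)]
    gcongr
    rw [hold.lintegral_comp (hyxm k)]
    exact hyxle k
  have hA1i : ∀ k, ∫⁻ q, A1 k q ∂(M4 Λ c ν) ≤ 4 * ENNReal.ofReal ε := by
    intro k
    rw [hA1]
    simp only
    rw [lintegral_const_mul' _ _ (by norm_num)]
    gcongr
    rw [hnew.lintegral_comp (hyxm k)]
    exact hyxle k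
  have hA2i : ∀ k, ∫⁻ q, A2 k q ∂(M4 Λ c ν) ≤ 4 * ENNReal.ofReal ε := by
    intro k
    rw [hA2]
    simp only
    rw [lintegral_const_mul' _ _ (by norm_num)]
    gcongr
    rw [hold.lintegral_comp (hym k)]
    exact hyle k
  have hSt : Tght (M4 Λ c ν) (fun k q => cc_XXx_SSg e H J x k ((yup q).1, q.2)) :=
    (cc_XXx_tght_SSg M J x).comp hnewp (cc_XXx_measurable_SSg M J x)
  have hA3n : Null (M4 Λ c ν) A3 := by
    have h1 : Null (M4 Λ c ν) (fun k q => ENNReal.ofReal (Zt (tk k) q.2).im) :=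
      null_im.comp (mp4_snd M.hc hE.prob) (fun k => measurable_Zt_im measurable_id)
    have h2 : Tght (M4 Λ c ν) (fun k q => 4 * ((F.card : ℝ≥0∞) * ENNReal.ofReal (2 * C)) ^ 2
        * cc_XXx_SSg e H J x k ((yup q).1, q.2) ^ 2) := by
      have h3 := Tght.const (μ := M4 Λ c ν)
        (g := fun _ => 4 * ((F.card : ℝ≥0∞) * ENNReal.ofReal (2 * C)) ^ 2) measurable_const
        (ae_of_all _ fun _ => ENNReal.mul_ne_top (by norm_num) (ENNReal.pow_ne_top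
          (ENNReal.mul_ne_top (ENNReal.natCast_ne_top _) ENNReal.ofReal_ne_top)))
      have h4 := hSt.mul hSt hSm
      have h5 := h3.mul h4 (fun k => (hSm k).mul (hSm k))
      refine h5.mono fun k => ae_of_all _ fun q => ?_
      rw [sq (cc_XXx_SSg e H J x k ((yup q).1, q.2))]
    exact h1.mul_tght h2 (fun k => ((hSm k).pow_const 2).const_mul _)
  unfold Null at hA3n
  rw [ENNReal.tendsto_atTop_zero] at hA3n
  obtain ⟨N, hN⟩ := hA3n (η / 5) hη5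
  refine ⟨N, fun k hk => ?_⟩
  have hA3m : Measurable (A3 k) :=
    (measurable_Zt_im measurable_snd).mul (((hSm k).pow_const 2).const_mul _)
  calc ∫⁻ q, min 1 (YX e H B k x q) ∂(M4 Λ c ν)
      ≤ ∫⁻ q, (A1 k q + (A0 k q + (δ⁻¹ * A2 k q
          + min 1 (δ * ‖cc_XXx_tau c e H x k (fgt q)‖ₑ ^ 2)))
          + min 1 (A3 k q)) ∂(M4 Λ c ν) := by
        refine lintegral_mono fun q => ?_
        refine (min_le_min_left 1 (ye_xx_le M (B := B) (F := F) (τ := τ) hβC hβJ x k q)).trans ?_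
        refine (min_one_add_le_enn _ _).trans ?_
        gcongr
        rw [add_assoc]
        refine (min_one_add_le_enn _ _).trans ?_
        refine add_le_add (min_le_right _ _) ?_
        refine (min_one_add_le_enn _ _).trans ?_
        refine add_le_add (min_le_right _ _) ?_
        refine (min_one_mul_le_enn _ _ hδ0 hδ1).trans ?_
        gcongr
        exact min_le_right _ _
    _ = ∫⁻ q, A1 k q ∂(M4 Λ c ν) + (∫⁻ q, A0 k q ∂(M4 Λ c ν) + (δ⁻¹ * ∫⁻ q, A2 k q ∂(M4 Λ c ν)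
          + ∫⁻ q, min 1 (δ * ‖cc_XXx_tau c e H x k (fgt q)‖ₑ ^ 2) ∂(M4 Λ c ν)))
          + ∫⁻ q, min 1 (A3 k q) ∂(M4 Λ c ν) := by
        rw [lintegral_add_right _ (measurable_const.min hA3m), lintegral_add_left (hA1m k),
          lintegral_add_left (hA0m k),
          lintegral_add_left ((hA2m k).const_mul _), lintegral_const_mul' _ _ hδinv]
    _ ≤ η / 5 + (η / 5 + (η / 5 + η / 5)) + η / 5 := by
        gcongr
        · exact (hA1i k).trans h3ε'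
        · exact (hA0i k).trans h3ε'
        · calc δ⁻¹ * ∫⁻ q, A2 k q ∂(M4 Λ c ν) ≤ δ⁻¹ * (4 * ENNReal.ofReal ε) := by
                gcongr; exact hA2i k
            _ = 4 * δ⁻¹ * ENNReal.ofReal ε := by ring
            _ ≤ η / 5 := h3ε
        · exact hδ k
        · exact hN k hk
    _ = η := by
        have h4 : η / 5 + (η / 5 + (η / 5 + η / 5)) + η / 5 = 5 * (η / 5) := by ring
        rw [h4]
        exact ENNReal.mul_div_cancel (by norm_num) (by norm_num)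

end Pool.Agent.Lib.MP_562b47_mp
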