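import Mathlib
import Pool.Agent.Lib.MP_562b47_mp.Ye.Claim
import Pool.Agent.Lib.MP_562b47_mp.Ye.Loc
import Pool.Agent.Lib.MP_562b47_mp.Ye.XX
import Pool.Agent.Lib.MP_562b47_mp.Ye.Lim

/-!
The limit eigenvalues of a covariant operator in an environment, and their invariance.
(Anderson model, MP_562b47_mp.)
-/

open MeasureTheory Set Filter Topology Complex
open scoped Real ENNReal NNReal InnerProductSpace

set_option linter.unusedSectionVars false

namespace Pool.Agent.Lib.MP_562b47_mp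

variable {Λ : Type*} [DecidableEq Λ] [AddCommGroup Λ] [Countable Λ] {Y : Type*}
  [MeasurableSpace Y] {E : Type*}
  [NormedAddCommGroup E] [InnerProductSpace ℂ E] [CompleteSpace E] {c : ℝ} {e : Λ → E}
  {H : (Λ → ℝ) → (E →L[ℂ] E)} {ν : Measure Y} {τ : Λ → Y → Y}
  {A B : (Λ → ℝ) × Y → (E →L[ℂ] E)} {K L : ℝ} {φ : ℕ → ℕ}

/-! ### Covariance -/

theorem Model.yRB_shift (M : Model c e H) (hcov : ShiftCov e H) (a : Λ) (ω : Λ → ℝ)
    {T T' : E →L[ℂ] E} (h : ∀ x z, ⟪e x, T' (e z)⟫_ℂ = ⟪e (x + a), T (e (z + a))⟫_ℂ)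
    {z : ℂ} (hz : 0 < z.im) (y x : Λ) :
    ⟪e y, Rv (H fun j => ω (j + a)) z (T' (e x))⟫_ℂ
      = ⟪e (y + a), Rv (H ω) z (T (e (x + a)))⟫_ℂ := by
  have h1 := M.hasSum_inner (Rv (H fun j => ω (j + a)) z) (e y) (T' (e x))
  have h2 := M.hasSum_inner (Rv (H ω) z) (e (y + a)) (T (e (x + a)))
  rw [← (Equiv.addRight a).hasSum_iff] at h2
  refine h1.unique ?_
  refine h2.congr_fun ?_ |> id
  intro w
  simp only [Function.comp, Equiv.coe_addRight]
  rw [h w x]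
  congr 1
  exact hcov a ω z y w hz

theorem y22_shift (hcov : ShiftCov e H) (M : Model c e H) (k : ℕ) (x a : Λ)
    (p : (Λ → ℝ) × Y)
    (h : ∀ x z, ⟪e x, B (sh τ a p) (e z)⟫_ℂ = ⟪e (x + a), B p (e (z + a))⟫_ℂ) (s : ℝ) :
    y22 e H B k x (sh τ a p, s) = y22 e H B k (x + a) (p, s) := by
  unfold y22
  have hz := Zt_im_pos (tk_pos k) s
  have h1 := M.inner_shift a (u := Rv (H p.1) (Zt (tk k) s) (B p (e (x + a))))
    (v := Rv (H p.1) (Zt (tk k) s) (B p (e (x + a))))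
    (u' := Rv (H fun j => p.1 (j + a)) (Zt (tk k) s) (B (sh τ a p) (e x)))
    (v' := Rv (H fun j => p.1 (j + a)) (Zt (tk k) s) (B (sh τ a p) (e x)))
    (fun w => M.yRB_shift hcov a p.1 h hz w x) (fun w => M.yRB_shift hcov a p.1 h hz w x)
  rw [inner_self_eq_norm_sq_to_K, inner_self_eq_norm_sq_to_K] at h1
  have h2 : ‖Rv (H fun j => p.1 (j + a)) (Zt (tk k) s) (B (sh τ a p) (e x))‖ ^ 2
      = ‖Rv (H p.1) (Zt (tk k) s) (B p (e (x + a)))‖ ^ 2 := by exact_mod_cast h1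
  show (Zt (tk k) s).im * ‖Rv (H fun j => p.1 (j + a)) (Zt (tk k) s) (B (sh τ a p) (e x))‖ ^ 2 = _
  rw [h2]

theorem y12_shift (hcov : ShiftCov e H) (M : Model c e H) (k : ℕ) (x a : Λ)
    (p : (Λ → ℝ) × Y)
    (h : ∀ x z, ⟪e x, B (sh τ a p) (e z)⟫_ℂ = ⟪e (x + a), B p (e (z + a))⟫_ℂ) (s : ℝ) :
    y12 e H B k x (sh τ a p, s) = y12 e H B k (x + a) (p, s) := by
  unfold y12
  have hz := Zt_im_pos (tk_pos k) s
  have h1 := M.inner_shift a (u := Rv (H p.1) (Zt (tk k) s) (e (x + a)))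
    (v := Rv (H p.1) (Zt (tk k) s) (B p (e (x + a))))
    (u' := Rv (H fun j => p.1 (j + a)) (Zt (tk k) s) (e x))
    (v' := Rv (H fun j => p.1 (j + a)) (Zt (tk k) s) (B (sh τ a p) (e x)))
    (fun w => hcov a p.1 _ w x hz) (fun w => M.yRB_shift hcov a p.1 h hz w x)
  show ((Zt (tk k) s).im : ℂ) * ⟪Rv (H fun j => p.1 (j + a)) (Zt (tk k) s) (e x),
    Rv (H fun j => p.1 (j + a)) (Zt (tk k) s) (B (sh τ a p) (e x))⟫_ℂ = _
  rw [h1]

/-! ### The limit eigenvalue on the joint space -/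

/-- limit eigenvalue -/
noncomputable def ybt (e : Λ → E) (H : (Λ → ℝ) → (E →L[ℂ] E)) (B : (Λ → ℝ) × Y → (E →L[ℂ] E))
    (φ : ℕ → ℕ) (x : Λ) (r : ((Λ → ℝ) × Y) × ℝ) : ℂ := bt e H (fib B r.1.2) φ x (r.1.1, r.2)

theorem Model.ymeas_bt (M : Model c e H)
    (hBm : ∀ x z, Measurable fun p => ⟪e x, B p (e z)⟫_ℂ) (x : Λ) :
    Measurable (ybt e H B φ x) := by
  have hn : Measurable fun r : ((Λ → ℝ) × Y) × ℝ => nl e H φ x (r.1.1, r.2) :=
    (M.measurable_nl x).comp ((measurable_fst.comp measurable_fst).prodMk measurable_snd)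
  have hm : Measurable fun r : ((Λ → ℝ) × Y) × ℝ => ml e H (fib B r.1.2) φ x (r.1.1, r.2) := by
    have h1 : (fun r : ((Λ → ℝ) × Y) × ℝ => ml e H (fib B r.1.2) φ x (r.1.1, r.2))
        = fun r => limUnder atTop (fun k => y12 e H B (φ k) x r) := rfl
    rw [h1]
    exact (StronglyMeasurable.limUnder fun k => (M.ymeas_12 hBm (φ k) x).stronglyMeasurable).measurable
  unfold ybt bt
  exact Measurable.ite (measurableSet_lt measurable_const hn)
    (hm.div (Complex.measurable_ofReal.comp hn)) measurable_const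

theorem ybt_shift (M : Model c e H) (hcov : ShiftCov e H) (x a : Λ) (p : (Λ → ℝ) × Y)
    (h : ∀ x z, ⟪e x, B (sh τ a p) (e z)⟫_ℂ = ⟪e (x + a), B p (e (z + a))⟫_ℂ) (s : ℝ) :
    ybt e H B φ x (sh τ a p, s) = ybt e H B φ (x + a) (p, s) := by
  have e1 : nl e H φ x (fun j => p.1 (j + a), s) = nl e H φ (x + a) (p.1, s) := by
    unfold nl
    congr 1
    funext k
    exact n11_shift hcov M (φ k) x a p.1 s
  have e2 : ml e H (fib B (τ a p.2)) φ x (fun j => p.1 (j + a), s)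
      = ml e H (fib B p.2) φ (x + a) (p.1, s) := by
    unfold ml
    congr 1
    funext k
    exact y12_shift hcov M (φ k) x a p h s
  show bt e H (fib B (τ a p.2)) φ x (fun j => p.1 (j + a), s) = bt e H (fib B p.2) φ (x + a) (p.1, s)
  unfold bt
  rw [e1, e2]

/-! ### The subsequence -/

theorem Model.yexists_good (M : Model c e H) (hcov : ShiftCov e H) (hD : HasDens H)
    (hE : Env ν τ) (hB : YCov c ν τ e B K)
    (hBH : ∀ᵐ p ∂(PY Λ c ν), Commute (B p) (H p.1)) :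
    ∃ φ : ℕ → ℕ, StrictMono φ ∧
      (∀ᵐ r ∂((PY Λ c ν).prod kap), Good e H (fib B r.1.2) φ (r.1.1, r.2)) ∧
      ∀ᵐ q ∂(M4 Λ c ν), ∀ x, Tendsto (fun k => (Zt (tk (φ k)) q.2).im
        * ‖(B (yup q) - B q.1.1) (Rv (H (yup q).1) (Zt (tk (φ k)) q.2) (e x))‖ ^ 2)
        atTop (𝓝 0) := by
  have hν := hE.prob
  have := M4_prob (Y := Y) Λ M.hc hν
  have := PY_prob (Y := Y) Λ M.hc hν
  have := unif_prob M.hc
  obtain ⟨B', hB'1, hB'2, hB'3⟩ := M.yexists_conj B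
  have hBm' : ∀ x z, Measurable fun p => ⟪e x, B' p (e z)⟫_ℂ := by
    intro x z
    simp_rw [hB'1]
    exact Complex.continuous_conj.measurable.comp (hB.meas x z)
  have hB'c : YCov c ν τ e B' K := by
    refine ⟨fun p => (hB'2 p).trans (hB.bdd p), hBm', fun a x z => ?_⟩
    filter_upwards [hB.cov a x z] with p hp
    rw [hB'1, hB'1, hp]
  have hX := fun x => M.ynull_XX hcov hE hB (M.yloc hν hB.bdd hB.meas) x
  have hX' := fun x => M.ynull_XX hcov hE hB'c (M.yloc hν hB'c.bdd hBm') x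
  have hcl := M.ynull_claim hν hB.meas hBH hB'1 hB'3 (hX 0) (hX' 0)
  obtain ⟨φ, hφ, h1⟩ := M.yexists_lim hD hν hB.meas
  -- the countable family
  obtain ⟨ψ, hψ, h2⟩ := exists_subseq_null (μ := M4 Λ c ν) (ι := Option Λ)
    (a := fun i => match i with
      | none => fun k q => ENNReal.ofReal (n11 e H k 0 (q.1.1.1, q.2)
          * (n11 e H k 0 (q.1.1.1, q.2) * y22 e H B k 0 (q.1.1, q.2)
            - ‖y12 e H B k 0 (q.1.1, q.2)‖ ^ 2))
      | some x => fun k q => YX e H B k x q)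
    (by
      rintro (_ | x) k
      · have hm : Measurable fun q : (((Λ → ℝ) × Y) × ℝ) × ℝ => (q.1.1, q.2) := by fun_prop
        have hm' : Measurable fun q : (((Λ → ℝ) × Y) × ℝ) × ℝ => (q.1.1.1, q.2) := by fun_prop
        have e1 := (M.measurable_n11 k 0).comp hm'
        have e2 := (M.ymeas_22 hB.meas k 0).comp hm
        have e3 := (M.ymeas_12 hB.meas k 0).comp hm
        exact (e1.mul ((e1.mul e2).sub (e3.norm.pow_const 2))).ennreal_ofReal
      · exact M.ymeas_YX hB.meas k x)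
    (by
      rintro (_ | x)
      · exact hcl
      · exact hX x) hφ
  refine ⟨φ ∘ ψ, hφ.comp hψ, ?_, ?_⟩
  · -- the claim at all sites
    have hme : ∀ k, Measurable fun r : ((Λ → ℝ) × Y) × ℝ => ENNReal.ofReal
        (n11 e H (φ (ψ k)) 0 (r.1.1, r.2) * (n11 e H (φ (ψ k)) 0 (r.1.1, r.2)
          * y22 e H B (φ (ψ k)) 0 r - ‖y12 e H B (φ (ψ k)) 0 r‖ ^ 2)) := by
      intro k
      have hm' : Measurable fun r : ((Λ → ℝ) × Y) × ℝ => (r.1.1, r.2) := by fun_prop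
      have e1 := (M.measurable_n11 (φ (ψ k)) 0).comp hm'
      have e2 := M.ymeas_22 hB.meas (φ (ψ k)) 0
      have e3 := M.ymeas_12 hB.meas (φ (ψ k)) 0
      exact (e1.mul ((e1.mul e2).sub (e3.norm.pow_const 2))).ennreal_ofReal
    have h3 : ∀ᵐ r ∂((PY Λ c ν).prod kap), Tendsto (fun k => ENNReal.ofReal
        (n11 e H (φ (ψ k)) 0 (r.1.1, r.2) * (n11 e H (φ (ψ k)) 0 (r.1.1, r.2)
          * y22 e H B (φ (ψ k)) 0 r - ‖y12 e H B (φ (ψ k)) 0 r‖ ^ 2))) atTop (𝓝 0) := by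
      have h4 := measurableSet_tendsto (𝓝 (0:ℝ≥0∞)) hme (l := atTop)
      rw [← (mp4_old (Λ := Λ) M.hc hν).map_eq,
        ae_map_iff (mp4_old M.hc hν).measurable.aemeasurable h4]
      filter_upwards [h2] with q hq
      exact hq none
    have h5 : ∀ᵐ r ∂((PY Λ c ν).prod kap), ∀ x, Tendsto (fun k => ENNReal.ofReal
        (n11 e H (φ (ψ k)) x (r.1.1, r.2) * (n11 e H (φ (ψ k)) x (r.1.1, r.2)
          * y22 e H B (φ (ψ k)) x r - ‖y12 e H B (φ (ψ k)) x r‖ ^ 2))) atTop (𝓝 0) := by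
      rw [ae_all_iff]
      intro a
      have hT : MeasurePreserving
          (Prod.map (sh τ a) id : ((Λ → ℝ) × Y) × ℝ → ((Λ → ℝ) × Y) × ℝ)
          ((PY Λ c ν).prod kap) ((PY Λ c ν).prod kap) :=
        (mp_sh M.hc hE a).prod (MeasurePreserving.id kap)
      have h6 := hT.quasiMeasurePreserving.ae h3
      have h7 : ∀ᵐ p ∂(PY Λ c ν), ∀ x z, ⟪e x, B (sh τ a p) (e z)⟫_ℂ
          = ⟪e (x + a), B p (e (z + a))⟫_ℂ := by
        rw [ae_all_iff]; intro x
        rw [ae_all_iff]; intro z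
        exact hB.cov a x z
      have h8 := (Measure.quasiMeasurePreserving_fst (μ := PY Λ c ν) (ν := kap)).ae h7
      filter_upwards [h6, h8] with r hr hr2
      refine hr.congr fun k => ?_
      have e1 := n11_shift hcov M (φ (ψ k)) 0 a r.1.1 r.2
      have e2 := y22_shift hcov M (φ (ψ k)) 0 a r.1 hr2 r.2
      have e3 := y12_shift hcov M (φ (ψ k)) 0 a r.1 hr2 r.2
      rw [zero_add] at e1 e2 e3
      simp only [Prod.map, id]
      rw [e2, e3]
      have e4 : n11 e H (φ (ψ k)) 0 ((sh τ a r.1).1, r.2) = n11 e H (φ (ψ k)) a (r.1.1, r.2) := e1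
      rw [e4]
    have h9 := (Measure.quasiMeasurePreserving_fst (μ := PY Λ c ν) (ν := kap)).ae hBH
    filter_upwards [h1, h5, h9] with r hp1 hp2 hp3
    refine ⟨hp3, fun x => ⟨?_, ?_, ?_⟩⟩
    · obtain ⟨l, hl⟩ := (hp1 x).1
      exact ⟨l, hl.comp hψ.tendsto_atTop⟩
    · obtain ⟨l, hl⟩ := (hp1 x).2
      exact ⟨l, hl.comp hψ.tendsto_atTop⟩
    · have h10 := (ENNReal.tendsto_toReal ENNReal.zero_ne_top).comp (hp2 x)
      rw [ENNReal.toReal_zero] at h10
      refine h10.congr fun k => ?_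
      simp only [Function.comp]
      rw [ENNReal.toReal_ofReal]
      · rfl
      · exact mul_nonneg (n11_nonneg _ _ _ _ _)
          (sub_nonneg.mpr (n12_sq_le e H (fib B r.1.2) _ x (r.1.1, r.2)))
  · filter_upwards [h2] with q hq x
    have h10 := (ENNReal.tendsto_toReal ENNReal.zero_ne_top).comp (hq (some x))
    rw [ENNReal.toReal_zero] at h10
    refine h10.congr fun k => ?_
    simp only [Function.comp]
    unfold YX
    rw [ENNReal.toReal_mul, ENNReal.toReal_ofReal (Zt_im_pos (tk_pos _) q.2).le,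
      ENNReal.toReal_pow, toReal_enorm]

end Pool.Agent.Lib.MP_562b47_mp
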