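import Mathlib
import Pool.Agent.Lib.MP_562b47_mp.Ye.Good

/-!
The limit eigenvalues do not depend on the potential.
(Anderson model, MP_562b47_mp.)
-/

open MeasureTheory Set Filter Topology Complex
open scoped Real ENNReal NNReal InnerProductSpace

set_option linter.unusedSectionVars false

namespace Pool.Agent.Lib.MP_562b47_mp

/-! ### Rearrangements of products -/

section perm

variable {α β γ : Type*} [MeasurableSpace α] [MeasurableSpace β] [MeasurableSpace γ]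

theorem mp_perm (μ : Measure α) (ν : Measure β) (κ : Measure γ) [SFinite μ] [SFinite ν]
    [SFinite κ] : MeasurePreserving (fun w : (α × γ) × β => ((w.1.1, w.2), w.1.2))
      ((μ.prod κ).prod ν) ((μ.prod ν).prod κ) := by
  have e1 := measurePreserving_prodAssoc μ κ ν
  have e2 : MeasurePreserving (Prod.map id Prod.swap : α × (γ × β) → α × (β × γ))
      (μ.prod (κ.prod ν)) (μ.prod (ν.prod κ)) :=
    (MeasurePreserving.id μ).prod (Measure.measurePreserving_swap)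
  have e3 := (measurePreserving_prodAssoc μ ν κ).symm
  exact (e3.comp e2).comp e1

end perm

variable {Λ : Type*} [DecidableEq Λ] [AddCommGroup Λ] [Countable Λ] {Y : Type*}
  [MeasurableSpace Y] {E : Type*}
  [NormedAddCommGroup E] [InnerProductSpace ℂ E] [CompleteSpace E] {c : ℝ} {e : Λ → E}
  {H : (Λ → ℝ) → (E →L[ℂ] E)} {ν : Measure Y} {τ : Λ → Y → Y}
  {A B : (Λ → ℝ) × Y → (E →L[ℂ] E)} {K L : ℝ} {φ : ℕ → ℕ}

theorem mp_re2 (hc : 0 < c) (hν : IsProbabilityMeasure ν) :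
    MeasurePreserving (fun w : ((Λ → ℝ) × ℝ) × Y => ((w.1.1, w.2), w.1.2))
      (((PP Λ c).prod kap).prod ν) ((PY Λ c ν).prod kap) := by
  have := PP_prob Λ hc
  exact mp_perm (PP Λ c) ν kap

theorem mp_re4 (hc : 0 < c) (hν : IsProbabilityMeasure ν) :
    MeasurePreserving (fun w : (((Λ → ℝ) × ℝ) × ℝ) × Y => (((w.1.1.1, w.2), w.1.1.2), w.1.2))
      ((M3 Λ c).prod ν) (M4 Λ c ν) := by
  have := PP_prob Λ hc
  have := unif_prob hc
  have e1 := mp_perm ((PP Λ c).prod (unif c)) ν kap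
  have e2 := (mp_perm (PP Λ c) ν (unif c)).prod (MeasurePreserving.id kap)
  exact e2.comp e1

theorem mp_re4' (hc : 0 < c) (hν : IsProbabilityMeasure ν) :
    MeasurePreserving (fun q : (((Λ → ℝ) × Y) × ℝ) × ℝ => (fgt q, q.1.1.2))
      (M4 Λ c ν) ((M3 Λ c).prod ν) := by
  have := PP_prob Λ hc
  have := unif_prob hc
  have e1 := (mp_perm (PP Λ c) (unif c) ν).prod (MeasurePreserving.id kap)
  have e2 := mp_perm ((PP Λ c).prod (unif c)) kap ν
  exact e2.comp e1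

/-! ### Invariance -/

theorem Model.ybt_upd (M : Model c e H) (hν : IsProbabilityMeasure ν)
    (hBm : ∀ x z, Measurable fun p => ⟪e x, B p (e z)⟫_ℂ)
    (hgood : ∀ᵐ r ∂((PY Λ c ν).prod kap), Good e H (fib B r.1.2) φ (r.1.1, r.2))
    (hX : ∀ᵐ q ∂(M4 Λ c ν), ∀ x, Tendsto (fun k => (Zt (tk (φ k)) q.2).im
        * ‖(B (yup q) - B q.1.1) (Rv (H (yup q).1) (Zt (tk (φ k)) q.2) (e x))‖ ^ 2)
        atTop (𝓝 0)) :
    ∀ᵐ q ∂(M4 Λ c ν), ∀ x, ybt e H B φ x (yup q, q.2) = ybt e H B φ x (q.1.1, q.2) := by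
  have := PP_prob Λ M.hc
  have := M3_prob Λ M.hc
  have h1 := ae_swap ((mp_re2 (Λ := Λ) M.hc hν).quasiMeasurePreserving.ae hgood)
  have h2 := ae_swap ((mp_re4 (Λ := Λ) M.hc hν).quasiMeasurePreserving.ae hX)
  have h3 : ∀ᵐ y ∂ν, ∀ᵐ q ∂(M3 Λ c), ∀ x, bt e H (fib B y) φ x (up q, q.2)
      = bt e H (fib B y) φ x (q.1.1, q.2) := by
    filter_upwards [h1, h2] with y hy1 hy2
    exact M.bt_upd (B := fib B y) hy1 hy2
  set S : Set ((((Λ → ℝ) × ℝ) × ℝ) × Y) := {w | ∀ x, bt e H (fib B w.2) φ x (up w.1, w.1.2)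
      = bt e H (fib B w.2) φ x (w.1.1.1, w.1.2)} with hS
  have hSm : MeasurableSet S := by
    have h4 : S = ⋂ x, {w : (((Λ → ℝ) × ℝ) × ℝ) × Y | ybt e H B φ x ((up w.1, w.2), w.1.2)
        = ybt e H B φ x ((w.1.1.1, w.2), w.1.2)} := by
      ext w
      simp only [hS, Set.mem_ofPred_eq, mem_iInter]
      exact Iff.rfl
    rw [h4]
    refine MeasurableSet.iInter fun x => measurableSet_eq_fun ?_ ?_
    · refine (M.ymeas_bt hBm x).comp (((measurable_up.comp measurable_fst).prodMk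
        measurable_snd).prodMk (measurable_snd.comp measurable_fst))
    · exact (M.ymeas_bt hBm x).comp (by fun_prop)
  have h5 : ∀ᵐ w ∂((M3 Λ c).prod ν), w ∈ S := by
    have h6 := (Measure.ae_prod_iff_ae_ae (μ := ν) (ν := M3 Λ c)
      (p := fun w => (w.2, w.1) ∈ S) (measurable_swap hSm)).mpr h3
    exact (Measure.measurePreserving_swap (μ := M3 Λ c) (ν := ν)).quasiMeasurePreserving.ae h6
  exact (mp_re4' (Λ := Λ) M.hc hν).quasiMeasurePreserving.ae h5

theorem Model.ybt_upd_all (M : Model c e H) (hcov : ShiftCov e H) (hE : Env ν τ)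
    (hB : YCov c ν τ e B K)
    (h0 : ∀ᵐ q ∂(M4 Λ c ν), ∀ x, ybt e H B φ x (yup q, q.2) = ybt e H B φ x (q.1.1, q.2))
    (a : Λ) :
    ∀ᵐ q ∂(M4 Λ c ν), ∀ x, ybt e H B φ x ((Function.update q.1.1.1 a q.1.2, q.1.1.2), q.2)
      = ybt e H B φ x (q.1.1, q.2) := by
  have hν := hE.prob
  have := PY_prob (Y := Y) Λ M.hc hν
  have := unif_prob M.hc
  have hT : MeasurePreserving
      (Prod.map (Prod.map (sh τ a) id) id :
        (((Λ → ℝ) × Y) × ℝ) × ℝ → (((Λ → ℝ) × Y) × ℝ) × ℝ) (M4 Λ c ν) (M4 Λ c ν) :=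
    ((mp_sh M.hc hE a).prod (MeasurePreserving.id (unif c))).prod (MeasurePreserving.id kap)
  have h1 := hT.quasiMeasurePreserving.ae h0
  have h7 : ∀ᵐ p ∂(PY Λ c ν), ∀ x z, ⟪e x, B (sh τ a p) (e z)⟫_ℂ
      = ⟪e (x + a), B p (e (z + a))⟫_ℂ := by
    rw [ae_all_iff]; intro x
    rw [ae_all_iff]; intro z
    exact hB.cov a x z
  have h8 := (qmp4_old (Λ := Λ) M.hc hν).ae h7
  have h9 : ∀ᵐ q ∂(M4 Λ c ν), ∀ x z,
      ⟪e x, B (sh τ a (Function.update q.1.1.1 a q.1.2, q.1.1.2)) (e z)⟫_ℂ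
      = ⟪e (x + a), B (Function.update q.1.1.1 a q.1.2, q.1.1.2) (e (z + a))⟫_ℂ := by
    have h10 := (mp_yupd (Λ := Λ) M.hc hν a).quasiMeasurePreserving.ae h7
    have h11 := (Measure.quasiMeasurePreserving_fst (μ := (PY Λ c ν).prod (unif c))
      (ν := kap)).ae h10
    exact h11
  filter_upwards [h1, h8, h9] with q hq1 hq2 hq3 x
  have e1 := ybt_shift (φ := φ) M hcov (x - a) a q.1.1 hq2 q.2
  have e2 := ybt_shift (φ := φ) M hcov (x - a) a
    (Function.update q.1.1.1 a q.1.2, q.1.1.2) hq3 q.2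
  rw [sub_add_cancel] at e1 e2
  rw [← e1, ← e2]
  have e3 := hq1 (x - a)
  simp only [Prod.map, id] at e3
  rw [← e3]
  congr 2
  show (sh τ a (Function.update q.1.1.1 a q.1.2, q.1.1.2)) = (Function.update (sh τ a q.1.1).1 0
    q.1.2, (sh τ a q.1.1).2)
  unfold sh
  simp only [Prod.mk.injEq, and_true]
  funext j
  show Function.update q.1.1.1 a q.1.2 (j + a) = Function.update (fun j => q.1.1.1 (j + a)) 0 q.1.2 j
  by_cases hj : j = 0
  · subst hj
    rw [zero_add, Function.update_self, Function.update_self]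
  · rw [Function.update_of_ne hj, Function.update_of_ne (by simpa using hj)]

/-- **The limit eigenvalues, as functions of the environment.** -/
theorem Model.yexists_alpha0 (M : Model c e H) (hcov : ShiftCov e H) (hD : HasDens H)
    (hE : Env ν τ) (hB : YCov c ν τ e B K)
    (hBH : ∀ᵐ p ∂(PY Λ c ν), Commute (B p) (H p.1)) :
    ∃ α : Λ → Y → ℝ → ℂ, (∀ x, Measurable fun w : Y × ℝ => α x w.1 w.2) ∧
      (∀ x y s, ‖α x y s‖ ≤ K) ∧
      (∀ a x, ∀ᵐ w ∂(ν.prod kap), α x (τ a w.1) w.2 = α (x + a) w.1 w.2) ∧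
      ∃ φ : ℕ → ℕ, StrictMono φ ∧
        (∀ᵐ r ∂((PY Λ c ν).prod kap), Good e H (fib B r.1.2) φ (r.1.1, r.2)) ∧
        (∀ᵐ q ∂(M4 Λ c ν), ∀ x, Tendsto (fun k => (Zt (tk (φ k)) q.2).im
          * ‖(B (yup q) - B q.1.1) (Rv (H (yup q).1) (Zt (tk (φ k)) q.2) (e x))‖ ^ 2)
          atTop (𝓝 0)) ∧
        ∀ᵐ r ∂((PY Λ c ν).prod kap), ∀ x,
          EigAt e H (fib B r.1.2) φ r.1.1 r.2 x (α x r.1.2 r.2) := by
  have hν := hE.prob
  have := PP_prob Λ M.hc
  have := PY_prob (Y := Y) Λ M.hc hν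
  have := M4_prob (Y := Y) Λ M.hc hν
  have := unif_prob M.hc
  have hK0 : 0 ≤ K := by
    have hne : (univ : Set ((Λ → ℝ) × Y)).Nonempty := by
      by_contra h
      rw [not_nonempty_iff_eq_empty] at h
      have h1 : (PY Λ c ν) univ = 1 := measure_univ
      rw [h, measure_empty] at h1
      exact zero_ne_one h1
    obtain ⟨p, _⟩ := hne
    exact (norm_nonneg _).trans (hB.bdd p)
  obtain ⟨φ, hφ, hgood, hX⟩ := M.yexists_good hcov hD hE hB hBH
  have hupd := M.ybt_upd_all hcov hE hB (M.ybt_upd hν hB.meas hgood hX)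
  set F : Λ → ((Λ → ℝ) × Y) × ℝ → ℂ := fun x r => if ‖ybt e H B φ x r‖ ≤ K then ybt e H B φ x r
    else 0 with hF
  have hFm : ∀ x, Measurable (F x) := fun x =>
    Measurable.ite (measurableSet_le (M.ymeas_bt hB.meas x).norm measurable_const)
      (M.ymeas_bt hB.meas x) measurable_const
  have hFb : ∀ x r, ‖F x r‖ ≤ K := by
    intro x r
    simp only [hF]
    split_ifs with h
    · exact h
    · rwa [norm_zero]
  have hFbt : ∀ᵐ r ∂((PY Λ c ν).prod kap), ∀ x, F x r = ybt e H B φ x r := by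
    filter_upwards [hgood] with r hr x
    have h0 : ‖fib B r.1.2 r.1.1‖ ≤ K := hB.bdd (r.1.1, r.1.2)
    have h1 : ‖ybt e H B φ x r‖ ≤ K := 
      Good.bt_le (B := fib B r.1.2) (p := (r.1.1, r.2)) h0 hr x
    simp only [hF]
    rw [if_pos h1]
  have hFeq : ∀ x r r', ybt e H B φ x r = ybt e H B φ x r' → F x r = F x r' := by
    intro x r r' h
    simp only [hF, h]
  set α : Λ → Y → ℝ → ℂ := fun x y s => ∫ ω, F x ((ω, y), s) ∂(PP Λ c) with hα
  have hαm : ∀ x, Measurable fun w : Y × ℝ => α x w.1 w.2 := by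
    intro x
    have h1 : StronglyMeasurable (fun w : (Y × ℝ) × (Λ → ℝ) => F x ((w.2, w.1.1), w.1.2)) :=
      ((hFm x).comp (by fun_prop)).stronglyMeasurable
    exact h1.integral_prod_right.measurable
  have hαb : ∀ x y s, ‖α x y s‖ ≤ K := by
    intro x y s
    calc ‖α x y s‖ ≤ ∫ ω, ‖F x ((ω, y), s)‖ ∂(PP Λ c) := norm_integral_le_integral_norm _
      _ ≤ ∫ _ω, K ∂(PP Λ c) := by
          refine integral_mono_of_nonneg (ae_of_all _ fun ω => norm_nonneg _)
            (integrable_const K) (ae_of_all _ fun ω => hFb x _)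
      _ = K := by simp
  -- the zero-one law
  have hmp : MeasurePreserving (fun w : ((Λ → ℝ) × ℝ) × (Y × ℝ) => (((w.1.1, w.2.1), w.1.2), w.2.2))
      (((PP Λ c).prod (unif c)).prod (ν.prod kap)) (M4 Λ c ν) := by
    have e1 := (measurePreserving_prodAssoc ((PP Λ c).prod (unif c)) ν kap).symm
    have e2 := (mp_perm (PP Λ c) ν (unif c)).prod (MeasurePreserving.id kap)
    exact e2.comp e1
  have hmp2 : MeasurePreserving (fun w : (Λ → ℝ) × (Y × ℝ) => ((w.1, w.2.1), w.2.2))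
      ((PP Λ c).prod (ν.prod kap)) ((PY Λ c ν).prod kap) :=
    (measurePreserving_prodAssoc (PP Λ c) ν kap).symm
  have hmp3 : MeasurePreserving (fun r : ((Λ → ℝ) × Y) × ℝ => (r.1.1, (r.1.2, r.2)))
      ((PY Λ c ν).prod kap) ((PP Λ c).prod (ν.prod kap)) :=
    measurePreserving_prodAssoc (PP Λ c) ν kap
  have h1 : ∀ᵐ w ∂(ν.prod kap), ∀ x, ∀ᵐ ω ∂(PP Λ c), F x ((ω, w.1), w.2) = α x w.1 w.2 := by
    have h2 : ∀ᵐ w ∂(ν.prod kap), ∀ a, ∀ᵐ p ∂((PP Λ c).prod (unif c)), ∀ x,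
        F x ((Function.update p.1 a p.2, w.1), w.2) = F x ((p.1, w.1), w.2) := by
      rw [ae_all_iff]; intro a
      have h3 := ae_swap (hmp.quasiMeasurePreserving.ae (hupd a))
      filter_upwards [h3] with w hw
      filter_upwards [hw] with p hp x
      exact hFeq x _ _ (hp x)
    filter_upwards [h2] with w hw x
    have h3 := ae_const_of_upd (Λ := Λ) M.hc (f := fun ω => F x ((ω, w.1), w.2))
      ((hFm x).comp (by fun_prop)) (fun ω => hFb x _) (fun a => by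
        filter_upwards [hw a] with p hp
        exact hp x)
    exact h3
  have h2 : ∀ᵐ r ∂((PY Λ c ν).prod kap), ∀ x, F x r = α x r.1.2 r.2 := by
    rw [ae_all_iff]; intro x
    have hms : MeasurableSet {w : (Λ → ℝ) × (Y × ℝ) | F x ((w.1, w.2.1), w.2.2)
        = α x w.2.1 w.2.2} :=
      measurableSet_eq_fun ((hFm x).comp (by fun_prop)) ((hαm x).comp (by fun_prop))
    have h4 : ∀ᵐ w ∂((PP Λ c).prod (ν.prod kap)), F x ((w.1, w.2.1), w.2.2) = α x w.2.1 w.2.2 := by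
      rw [Measure.ae_prod_iff_ae_ae hms]
      have h3 : ∀ᵐ w ∂(ν.prod kap), ∀ᵐ ω ∂(PP Λ c), F x ((ω, w.1), w.2) = α x w.1 w.2 := by
        filter_upwards [h1] with w hw using hw x
      exact (Measure.ae_ae_comm (μ := PP Λ c) (ν := ν.prod kap)
        (p := fun ω w => F x ((ω, w.1), w.2) = α x w.1 w.2) hms).mpr h3
    exact hmp3.quasiMeasurePreserving.ae h4
  refine ⟨α, hαm, hαb, ?_, φ, hφ, hgood, hX, ?_⟩
  · -- covariance
    intro a x
    have h7 : ∀ᵐ p ∂(PY Λ c ν), ∀ x z, ⟪e x, B (sh τ a p) (e z)⟫_ℂ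
        = ⟪e (x + a), B p (e (z + a))⟫_ℂ := by
      rw [ae_all_iff]; intro x
      rw [ae_all_iff]; intro z
      exact hB.cov a x z
    have h8 := (Measure.quasiMeasurePreserving_fst (μ := PY Λ c ν) (ν := kap)).ae h7
    have h9 : ∀ᵐ w ∂(ν.prod kap), ∀ᵐ ω ∂(PP Λ c), F x (sh τ a (ω, w.1), w.2)
        = F (x + a) ((ω, w.1), w.2) := by
      have h10 := ae_swap (hmp2.quasiMeasurePreserving.ae h8)
      filter_upwards [h10] with w hw
      filter_upwards [hw] with ω hω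
      have e1 := ybt_shift (φ := φ) M hcov x a (ω, w.1) hω w.2
      simp only [hF, e1]
    filter_upwards [h9] with w hw
    have hsh := measurePreserving_shift (Λ := Λ) (unif c) a
    have h6 := integral_map (μ := PP Λ c) (φ := fun ω : Λ → ℝ => fun j => ω (j + a))
      (f := fun ω => F x ((ω, τ a w.1), w.2)) hsh.measurable.aemeasurable
      ((hFm x).comp (by fun_prop : Measurable fun ω : Λ → ℝ => ((ω, τ a w.1), w.2))).aestronglyMeasurable
    have h11 : Measure.map (fun ω : Λ → ℝ => fun j => ω (j + a)) (PP Λ c) = PP Λ c := hsh.map_eq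
    rw [h11] at h6
    show ∫ ω, F x ((ω, τ a w.1), w.2) ∂(PP Λ c) = ∫ ω, F (x + a) ((ω, w.1), w.2) ∂(PP Λ c)
    rw [h6]
    exact integral_congr_ae hw
  · filter_upwards [hgood, h2, hFbt] with r hr1 hr2 hr3 x
    rw [← hr2 x, hr3 x]
    exact M.good_eig (B := fib B r.1.2) (p := (r.1.1, r.2)) hr1 x

end Pool.Agent.Lib.MP_562b47_mp
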