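import Mathlib
import Pool.Agent.Lib.MP_562b47_mp.Ye.Inv

/-!
The limit eigenvalues at neighbouring sites are equal.
(Anderson model, MP_562b47_mp.)
-/

open MeasureTheory Set Filter Topology Complex
open scoped Real ENNReal NNReal InnerProductSpace

set_option linter.unusedSectionVars false

namespace Pool.Agent.Lib.MP_562b47_mp

section fixed

variable {Λ : Type*} [DecidableEq Λ] [AddCommGroup Λ] [Countable Λ] {E : Type*}
  [NormedAddCommGroup E] [InnerProductSpace ℂ E] [CompleteSpace E] {c : ℝ} {e : Λ → E}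
  {H : (Λ → ℝ) → (E →L[ℂ] E)} {B : (Λ → ℝ) → (E →L[ℂ] E)} {φ : ℕ → ℕ}

/-- nearest neighbour equation and symmetry between the neighbours of `0` -/
structure SymNbr (c : ℝ) (e : Λ → E) (H : (Λ → ℝ) → (E →L[ℂ] E)) {ι : Type*} [Fintype ι]
    (u : ι → Λ) (κ : ℝ) : Prop where
  eqn : ∀ ω (z : ℂ), 0 < z.im → ((κ : ℂ) + (clp c (ω 0) : ℂ) - z) * Gr e H ω z 0 0
      - ∑ i, Gr e H ω z 0 (u i) = 1
  sym : ∀ i j, ∃ T : (Λ → ℝ) → (Λ → ℝ), MeasurePreserving T (PP Λ c) (PP Λ c) ∧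
      ∀ ω (z : ℂ), 0 < z.im → Gr e H (T ω) z 0 0 = Gr e H ω z 0 0 ∧
        Gr e H (T ω) z 0 (u i) = Gr e H ω z 0 (u j)

theorem n11_eq_im (M : Model c e H) (k : ℕ) (x : Λ) (ω : Λ → ℝ) (s : ℝ) :
    n11 e H k x (ω, s) = (Gr e H ω (Zt (tk k) s) x x).im := by
  unfold n11 Gr
  rw [im_inner_Rv (M.sa ω) (Zt_im_pos (tk_pos k) s).ne']

/-- different limit eigenvalues force the Green function to vanish -/
theorem Model.gr_zero (M : Model c e H) {ω : Λ → ℝ} {v s : ℝ}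
    (h1 : Commute (B ω) (H ω)) (h2 : Commute (B (Function.update ω 0 v)) (H (Function.update ω 0 v)))
    {x : Λ} {β β0 : ℂ} (hne : β ≠ β0) (hv : clp c v ≠ clp c (ω 0))
    (hE : EigAt e H B φ ω s x β) (hE0 : EigAt e H B φ ω s 0 β0)
    (hE' : EigAt e H B φ (Function.update ω 0 v) s x β)
    (hX : Tendsto (fun k => (Zt (tk (φ k)) s).im
      * ‖(B (Function.update ω 0 v) - B ω)
          (Rv (H (Function.update ω 0 v)) (Zt (tk (φ k)) s) (e x))‖ ^ 2) atTop (𝓝 0))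
    {n : ℝ} (hn : 0 < n) (hn0 : Tendsto (fun k => n11 e H (φ k) 0 (ω, s)) atTop (𝓝 n)) :
    Tendsto (fun k => Gr e H (Function.update ω 0 v) (Zt (tk (φ k)) s) 0 x) atTop (𝓝 0) := by
  set ω' := Function.update ω 0 v with hω'
  set σ : ℂ := ((clp c v - clp c (ω 0) : ℝ) : ℂ) with hσ
  set t : ℕ → ℂ := fun k => σ * Gr e H ω' (Zt (tk (φ k)) s) 0 x with ht
  have hσ0 : σ ≠ 0 := by
    rw [hσ]
    exact_mod_cast sub_ne_zero.mpr hv
  have hrel : ∀ k, xs (H ω') φ s (e x) k = xs (H ω) φ s (e x) k - t k • xs (H ω) φ s (e 0) k := by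
    intro k
    have h := M.Rv_upd_gen ω (Zt_im_pos (tk_pos (φ k)) s).ne' 0 v (e x)
    rw [← hω', ← hσ] at h
    unfold xs
    rw [h, smul_sub, smul_smul, smul_smul]
    congr 2
    show _ = σ * Gr e H ω' (Zt (tk (φ k)) s) 0 x * _
    unfold Gr
    ring
  have hE1 := (eigAt_iff h1 φ s x β).mp hE
  have hE01 := (eigAt_iff h1 φ s 0 β0).mp hE0
  have hE'1 := (eigAt_iff h2 φ s x β).mp hE'
  have hX1 : Tendsto (fun k => (B ω' - B ω) (xs (H ω') φ s (e x) k)) atTop (𝓝 0) := by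
    rw [tendsto_zero_iff_norm_tendsto_zero]
    have h3 := hX.sqrt
    rw [Real.sqrt_zero] at h3
    refine h3.congr fun k => ?_
    have h4 : (Zt (tk (φ k)) s).im * ‖(B ω' - B ω) (Rv (H ω') (Zt (tk (φ k)) s) (e x))‖ ^ 2
        = ‖(B ω' - B ω) (xs (H ω') φ s (e x) k)‖ ^ 2 := by
      unfold xs
      rw [map_smul, norm_smul, mul_pow, Complex.norm_real, Real.norm_eq_abs, sq_abs,
        Real.sq_sqrt (Zt_im_pos (tk_pos _) s).le]
    rw [h4, Real.sqrt_sq (norm_nonneg _)]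
  set y : ℕ → E := xs (H ω) φ s (e 0) with hy
  -- `t (B y - β y) → 0`
  have h3 : Tendsto (fun k => t k • (B ω (y k) - β • y k)) atTop (𝓝 0) := by
    have h4 := (hE1.sub hE'1).add hX1
    simp only [sub_zero, add_zero] at h4
    refine h4.congr fun k => ?_
    rw [hrel k]
    simp only [sub_apply, map_sub, map_smul]
    module
  -- the norm of `B y - β y` has a positive limit
  have h4 : Tendsto (fun k => ‖B ω (y k) - β • y k‖) atTop (𝓝 (‖β0 - β‖ * √n)) := by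
    have h5 : Tendsto (fun k => ‖y k‖) atTop (𝓝 (√n)) := by
      refine hn0.sqrt.congr fun k => ?_
      rw [n11_eq, Real.sqrt_sq (norm_nonneg _)]
    have h6 : Tendsto (fun k => ‖(β0 - β) • y k‖) atTop (𝓝 (‖β0 - β‖ * √n)) := by
      simp_rw [norm_smul]
      exact h5.const_mul _
    have h7 : Tendsto (fun k => ‖B ω (y k) - β • y k‖ - ‖(β0 - β) • y k‖) atTop (𝓝 0) := by
      refine squeeze_zero_norm (fun k => ?_) (tendsto_zero_iff_norm_tendsto_zero.mp hE01)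
      rw [Real.norm_eq_abs]
      refine (abs_norm_sub_norm_le _ _).trans (le_of_eq ?_)
      congr 1
      module
    have h8 := h7.add h6
    simp only [sub_add_cancel, zero_add] at h8
    exact h8
  have hpos : 0 < ‖β0 - β‖ * √n :=
    mul_pos (norm_pos_iff.mpr (sub_ne_zero.mpr hne.symm)) (Real.sqrt_pos.mpr hn)
  have h5 : Tendsto (fun k => ‖t k‖) atTop (𝓝 0) := by
    have h6 := (tendsto_zero_iff_norm_tendsto_zero.mp h3).div h4 hpos.ne'
    rw [zero_div] at h6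
    refine h6.congr' ?_
    filter_upwards [h4.eventually (lt_mem_nhds hpos)] with k hk
    rw [Pi.div_apply, norm_smul, mul_div_assoc, div_self hk.ne', mul_one]
  rw [tendsto_zero_iff_norm_tendsto_zero]
  have h6 := h5.const_mul ‖σ‖⁻¹
  rw [mul_zero] at h6
  refine h6.congr fun k => ?_
  rw [ht, norm_mul, ← mul_assoc, inv_mul_cancel₀ (norm_ne_zero_iff.mpr hσ0), one_mul]

/-- if the Green function vanishes at all neighbours, the density vanishes -/
theorem Model.n11_zero_of_nbr (M : Model c e H) {ι : Type*} [Fintype ι] {u : ι → Λ} {κ : ℝ}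
    (hu : SymNbr c e H u κ) (hφ : StrictMono φ) {ω : Λ → ℝ} {s : ℝ}
    (hne : κ + clp c (ω 0) - s ≠ 0)
    (h : ∀ i, Tendsto (fun k => Gr e H ω (Zt (tk (φ k)) s) 0 (u i)) atTop (𝓝 0)) :
    Tendsto (fun k => n11 e H (φ k) 0 (ω, s)) atTop (𝓝 0) := by
  have hzre : Tendsto (fun k => (Zt (tk (φ k)) s).re) atTop (𝓝 s) :=
    ((tendsto_Zt_re s).comp tendsto_tk).comp hφ.tendsto_atTop
  have hzim : Tendsto (fun k => (Zt (tk (φ k)) s).im) atTop (𝓝 0) :=
    ((tendsto_Zt_im s).comp tendsto_tk).comp hφ.tendsto_atTop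
  have hz : Tendsto (fun k => Zt (tk (φ k)) s) atTop (𝓝 (s : ℂ)) := by
    have h1 := ((Complex.continuous_ofReal.tendsto _).comp hzre).add
      (((Complex.continuous_ofReal.tendsto _).comp hzim).mul_const I)
    simp only [Complex.ofReal_zero, zero_mul, add_zero] at h1
    refine h1.congr fun k => ?_
    exact Complex.re_add_im _
  have h1 : Tendsto (fun k => (κ : ℂ) + (clp c (ω 0) : ℂ) - Zt (tk (φ k)) s) atTop
      (𝓝 ((κ : ℂ) + (clp c (ω 0) : ℂ) - (s : ℂ))) := hz.const_sub _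
  have hne' : (κ : ℂ) + (clp c (ω 0) : ℂ) - (s : ℂ) ≠ 0 := by exact_mod_cast hne
  have h2 : Tendsto (fun k => 1 + ∑ i, Gr e H ω (Zt (tk (φ k)) s) 0 (u i)) atTop (𝓝 1) := by
    have h3 := tendsto_finsetSum (Finset.univ : Finset ι) fun i _ => h i
    rw [Finset.sum_const_zero] at h3
    simpa using h3.const_add 1
  have h3 : Tendsto (fun k => Gr e H ω (Zt (tk (φ k)) s) 0 0) atTop
      (𝓝 (1 / ((κ : ℂ) + (clp c (ω 0) : ℂ) - (s : ℂ)))) := by
    refine (h2.div h1 hne').congr' ?_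
    filter_upwards [h1.eventually_ne hne'] with k hk
    have h4 := hu.eqn ω (Zt (tk (φ k)) s) (Zt_im_pos (tk_pos _) s)
    rw [Pi.div_apply, div_eq_iff hk]
    linear_combination -h4
  have h4 := (Complex.continuous_im.tendsto _).comp h3
  have h5 : (1 / ((κ : ℂ) + (clp c (ω 0) : ℂ) - (s : ℂ))).im = 0 := by
    have : (1 / ((κ : ℂ) + (clp c (ω 0) : ℂ) - (s : ℂ)))
        = ((1 / (κ + clp c (ω 0) - s) : ℝ) : ℂ) := by push_cast; ring
    rw [this, Complex.ofReal_im]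
  rw [h5] at h4
  refine h4.congr fun k => ?_
  rw [n11_eq_im M]
  rfl

/-- a.s. version at a fixed energy -/
theorem Model.ae_gr_zero (M : Model c e H) {s : ℝ} {a : Λ → ℂ} {x : Λ} (hne : a x ≠ a 0)
    (h1 : ∀ᵐ ω ∂(PP Λ c), Good e H B φ (ω, s) ∧ ∀ x, EigAt e H B φ ω s x (a x))
    (h3 : ∀ᵐ p ∂((PP Λ c).prod (unif c)), Tendsto (fun k => (Zt (tk (φ k)) s).im
      * ‖(B (Function.update p.1 0 p.2) - B p.1)
          (Rv (H (Function.update p.1 0 p.2)) (Zt (tk (φ k)) s) (e x))‖ ^ 2) atTop (𝓝 0))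
    (h4 : ∀ᵐ p ∂((PP Λ c).prod (unif c)), (0 < nl e H φ 0 (p.1, s) ↔
      0 < nl e H φ 0 (Function.update p.1 0 p.2, s))) :
    ∀ᵐ ω ∂(PP Λ c), 0 < nl e H φ 0 (ω, s) →
      Tendsto (fun k => Gr e H ω (Zt (tk (φ k)) s) 0 x) atTop (𝓝 0) := by
  have := PP_prob Λ M.hc
  have := unif_prob M.hc
  have hup := measurePreserving_upd (Λ := Λ) (unif c) 0
  have h5 := hup.quasiMeasurePreserving.ae h1
  have h6 := (measurePreserving_fst (μ := PP Λ c) (ν := unif c)).quasiMeasurePreserving.ae h1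
  have h7 : ∀ᵐ p ∂((PP Λ c).prod (unif c)), clp c p.2 ≠ clp c (p.1 0) := by
    rw [Measure.ae_prod_iff_ae_ae]
    · exact ae_of_all _ fun ω => ae_clp_ne c (ω 0)
    · exact (measurableSet_eq_fun ((measurable_clp c).comp measurable_snd)
        ((measurable_clp c).comp ((measurable_pi_apply 0).comp measurable_fst))).compl
  have h8 : ∀ᵐ p ∂((PP Λ c).prod (unif c)), 0 < nl e H φ 0 (Function.update p.1 0 p.2, s) →
      Tendsto (fun k => Gr e H (Function.update p.1 0 p.2) (Zt (tk (φ k)) s) 0 x) atTop (𝓝 0) := by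
    filter_upwards [h3, h4, h5, h6, h7] with p hp3 hp4 hp5 hp6 hp7 hpos
    exact M.gr_zero hp6.1.1 hp5.1.1 hne hp7 (hp6.2 x) (hp6.2 0) (hp5.2 x) hp3 (hp4.mpr hpos)
      (hp6.1.nl 0)
  have hms : MeasurableSet {ω : Λ → ℝ | 0 < nl e H φ 0 (ω, s) →
      Tendsto (fun k => Gr e H ω (Zt (tk (φ k)) s) 0 x) atTop (𝓝 0)} := by
    have e1 : {ω : Λ → ℝ | 0 < nl e H φ 0 (ω, s) →
        Tendsto (fun k => Gr e H ω (Zt (tk (φ k)) s) 0 x) atTop (𝓝 0)}
        = {ω | 0 < nl e H φ 0 (ω, s)}ᶜ ∪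
          {ω | Tendsto (fun k => Gr e H ω (Zt (tk (φ k)) s) 0 x) atTop (𝓝 0)} := by
      ext ω
      simp only [Set.mem_ofPred_eq, mem_union, mem_compl_iff]
      tauto
    rw [e1]
    refine (measurableSet_lt measurable_const
      ((M.measurable_nl 0).comp (by fun_prop))).compl.union ?_
    refine measurableSet_tendsto (𝓝 0) fun k => ?_
    exact M.measurable_Gr (P := Λ → ℝ) (g := fun ω => ω) (h := fun _ => s) measurable_id
      (tk_pos _) measurable_const 0 x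
  have h9 : Measure.map (fun p : (Λ → ℝ) × ℝ => Function.update p.1 0 p.2)
      ((PP Λ c).prod (unif c)) = PP Λ c := hup.map_eq
  rw [← h9, ae_map_iff hup.measurable.aemeasurable hms]
  exact h8

/-- at a fixed energy: either the limit eigenvalues at `0` and at a neighbour agree, or the density
vanishes -/
theorem Model.ae_nl_zero (M : Model c e H) {ι : Type*} [Fintype ι] {u : ι → Λ} {κ : ℝ}
    (hu : SymNbr c e H u κ) (hφ : StrictMono φ) {s : ℝ}
    (hnl : ∀ᵐ ω ∂(PP Λ c), Tendsto (fun k => n11 e H (φ k) 0 (ω, s)) atTop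
      (𝓝 (nl e H φ 0 (ω, s)))) (i : ι)
    (h : ∀ᵐ ω ∂(PP Λ c), 0 < nl e H φ 0 (ω, s) →
      Tendsto (fun k => Gr e H ω (Zt (tk (φ k)) s) 0 (u i)) atTop (𝓝 0)) :
    ∀ᵐ ω ∂(PP Λ c), nl e H φ 0 (ω, s) = 0 := by
  have := PP_prob Λ M.hc
  have := unif_prob M.hc
  have h1 : ∀ j, ∀ᵐ ω ∂(PP Λ c), 0 < nl e H φ 0 (ω, s) →
      Tendsto (fun k => Gr e H ω (Zt (tk (φ k)) s) 0 (u j)) atTop (𝓝 0) := by
    intro j
    obtain ⟨T, hT, hTG⟩ := hu.sym i j
    filter_upwards [hT.quasiMeasurePreserving.ae h] with ω hω hpos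
    have e1 : nl e H φ 0 (T ω, s) = nl e H φ 0 (ω, s) := by
      unfold nl
      congr 1
      funext k
      rw [n11_eq_im M, n11_eq_im M, (hTG ω _ (Zt_im_pos (tk_pos _) s)).1]
    refine (hω (by rwa [e1])).congr fun k => ?_
    exact (hTG ω _ (Zt_im_pos (tk_pos _) s)).2
  have h2 : ∀ᵐ ω ∂(PP Λ c), κ + clp c (ω 0) - s ≠ 0 := by
    have h3 : ∀ᵐ v ∂(unif c), κ + clp c v - s ≠ 0 := by
      have h4 : ∀ᵐ v ∂(unif c), v ≠ s - κ := by
        rw [ae_iff]
        simpa using unif_singleton c (s - κ)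
      filter_upwards [h4, ae_unif c] with v hv hv2
      rw [clp_of_mem hv2]
      intro h5
      exact hv (by linarith)
    exact (measurePreserving_eval_infinitePi (fun _ : Λ => unif c) 0).quasiMeasurePreserving.ae h3
  filter_upwards [ae_all_iff.mpr h1, h2, hnl] with ω hω1 hω2 hω3
  by_contra hne
  have hpos : 0 < nl e H φ 0 (ω, s) := by
    refine lt_of_le_of_ne ?_ (Ne.symm hne)
    exact ge_of_tendsto' hω3 fun k => n11_nonneg e H (φ k) 0 (ω, s)
  have h3 := M.n11_zero_of_nbr hu hφ hω2 fun j => hω1 j hpos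
  exact hne (tendsto_nhds_unique hω3 h3)

end fixed

end Pool.Agent.Lib.MP_562b47_mp
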