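import Mathlib
import Pool.Agent.Lib.MP_562b47_mp.Ye.Nbr

/-!
The common limit eigenvalue of a covariant family in an ergodic environment.
(Anderson model, MP_562b47_mp.)
-/

open MeasureTheory Set Filter Topology Complex
open scoped Real ENNReal NNReal InnerProductSpace

set_option linter.unusedSectionVars false

namespace Pool.Agent.Lib.MP_562b47_mp

variable {Λ : Type*} [DecidableEq Λ] [AddCommGroup Λ] [Countable Λ] {Y : Type*}
  [MeasurableSpace Y] {E : Type*}
  [NormedAddCommGroup E] [InnerProductSpace ℂ E] [CompleteSpace E] {c : ℝ} {e : Λ → E}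
  {H : (Λ → ℝ) → (E →L[ℂ] E)} {ν : Measure Y} {τ : Λ → Y → Y}
  {A B : (Λ → ℝ) × Y → (E →L[ℂ] E)} {K L : ℝ} {φ : ℕ → ℕ}

/-- ergodicity of the environment: strictly invariant measurable sets are trivial -/
def ErgEnv (ν : Measure Y) (τ : Λ → Y → Y) : Prop :=
  ∀ S : Set Y, MeasurableSet S → (∀ a, τ a ⁻¹' S = S) → ν S = 0 ∨ ν Sᶜ = 0

theorem ae_const_of_inv (hE : Env ν τ) (herg : ErgEnv ν τ) {f : Y → ℂ} (hf : Measurable f)
    (hinv : ∀ a, ∀ᵐ y ∂ν, f (τ a y) = f y) : ∀ᵐ y ∂ν, f y = ∫ y, f y ∂ν := by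
  have := hE.prob
  obtain ⟨a, ha⟩ : ∃ a, f =ᵐ[ν] Function.const Y a := by
    refine exists_eventuallyEq_const_of_forall_separating MeasurableSet fun U hU => ?_
    set S₀ : Set Y := f ⁻¹' U with hS₀
    have hS₀m : MeasurableSet S₀ := hf hU
    set S : Set Y := ⋂ a, τ a ⁻¹' S₀ with hS
    have hSm : MeasurableSet S := MeasurableSet.iInter fun a => (hE.mp a).measurable hS₀m
    have hSinv : ∀ b, τ b ⁻¹' S = S := by
      intro b
      ext y
      simp only [hS, mem_preimage, mem_iInter]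
      constructor
      · intro h a
        have := h (a - b)
        rwa [← hE.add, sub_add_cancel] at this
      · intro h a
        rw [← hE.add]
        exact h (a + b)
    have hiff : ∀ᵐ y ∂ν, y ∈ S ↔ y ∈ S₀ := by
      filter_upwards [ae_all_iff.mpr hinv] with y hy
      simp only [hS, mem_iInter, mem_preimage, hS₀]
      constructor
      · intro h
        have := h 0
        rwa [hE.zero] at this
      · intro h a
        rw [hy a]
        exact h
    rcases herg S hSm hSinv with h | h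
    · right
      have h1 : ∀ᵐ y ∂ν, y ∉ S := by rw [ae_iff]; simpa using h
      filter_upwards [h1, hiff] with y hy1 hy2 hy3
      exact hy1 (hy2.mpr hy3)
    · left
      have h1 : ∀ᵐ y ∂ν, y ∈ S := by rw [ae_iff]; exact h
      filter_upwards [h1, hiff] with y hy1 hy2
      exact hy2.mp hy1
  have h2 : ∫ y, f y ∂ν = a := by
    rw [integral_congr_ae ha]
    simp
  filter_upwards [ha] with y hy
  rw [hy, h2]
  rfl

/-- invariance under a generating set implies invariance -/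
theorem inv_of_gen (hE : Env ν τ) {ι : Type*} {u : ι → Λ}
    (hgen : AddSubgroup.closure (Set.range u) = ⊤) {f : Y → ℂ}
    (h : ∀ i, ∀ᵐ y ∂ν, f (τ (u i) y) = f y) (a : Λ) : ∀ᵐ y ∂ν, f (τ a y) = f y := by
  have ha : a ∈ AddSubgroup.closure (Set.range u) := by rw [hgen]; trivial
  induction ha using AddSubgroup.closure_induction with
  | mem x hx =>
      obtain ⟨i, rfl⟩ := hx
      exact h i
  | zero => exact ae_of_all _ fun y => by rw [hE.zero]
  | add x y _ _ hx hy =>
      filter_upwards [(hE.mp y).quasiMeasurePreserving.ae hx, hy] with w hw1 hw2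
      rw [hE.add, hw1, hw2]
  | neg x _ hx =>
      filter_upwards [(hE.mp (-x)).quasiMeasurePreserving.ae hx] with w hw
      rw [← hw, ← hE.add, add_neg_cancel, hE.zero]

/-- if the density at `0` vanishes a.s., it vanishes at all sites -/
theorem Model.nl_all_zero (M : Model c e H) (hcov : ShiftCov e H) {s : ℝ}
    (h : ∀ᵐ ω ∂(PP Λ c), nl e H φ 0 (ω, s) = 0) (x : Λ) :
    ∀ᵐ ω ∂(PP Λ c), nl e H φ x (ω, s) = 0 := by
  have := unif_prob M.hc
  have hsh := measurePreserving_shift (Λ := Λ) (unif c) x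
  filter_upwards [hsh.quasiMeasurePreserving.ae h] with ω hω
  rw [← hω]
  unfold nl
  congr 1
  funext k
  have e1 := n11_shift hcov M (φ k) 0 x ω s
  rw [zero_add] at e1
  exact e1.symm

/-- **The common limit eigenvalue in an ergodic environment.** -/
theorem Model.yexists_alpha (M : Model c e H) (hcov : ShiftCov e H) (hD : HasDens H)
    (hE : Env ν τ) (herg : ErgEnv ν τ) {ι : Type*} [Fintype ι] {u : ι → Λ} {κ : ℝ}
    (hu : SymNbr c e H u κ) (hgen : AddSubgroup.closure (Set.range u) = ⊤)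
    (hB : YCov c ν τ e B K)
    (hBH : ∀ᵐ p ∂(PY Λ c ν), Commute (B p) (H p.1)) :
    ∃ α : ℝ → ℂ, Measurable α ∧ (∀ s, ‖α s‖ ≤ K) ∧ ∃ φ : ℕ → ℕ, StrictMono φ ∧
      (∀ᵐ r ∂((PY Λ c ν).prod kap), Good e H (fib B r.1.2) φ (r.1.1, r.2)) ∧
      ∀ᵐ r ∂((PY Λ c ν).prod kap), ∀ x, EigAt e H (fib B r.1.2) φ r.1.1 r.2 x (α r.2) := by
  have hν := hE.prob
  have := PP_prob Λ M.hc
  have := PY_prob (Y := Y) Λ M.hc hν
  have := M4_prob (Y := Y) Λ M.hc hν
  have := M3_prob Λ M.hc
  have := unif_prob M.hc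
  obtain ⟨α0, hm, hb, hcov0, φ, hφ, hgood, hX, hEig⟩ := M.yexists_alpha0 hcov hD hE hB hBH
  set α : ℝ → ℂ := fun s => ∫ y, α0 0 y s ∂ν with hα
  have hαm : Measurable α := by
    have h1 : StronglyMeasurable (fun w : ℝ × Y => α0 0 w.2 w.1) :=
      ((hm 0).comp measurable_swap).stronglyMeasurable
    exact h1.integral_prod_right.measurable
  have hαb : ∀ s, ‖α s‖ ≤ K := by
    intro s
    have hne : Nonempty Y := by
      by_contra h
      rw [not_nonempty_iff] at h
      have h1 : ν univ = 1 := measure_univ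
      rw [univ_eq_empty_iff.mpr h, measure_empty] at h1
      exact zero_ne_one h1
    calc ‖α s‖ ≤ ∫ y, ‖α0 0 y s‖ ∂ν := norm_integral_le_integral_norm _
      _ ≤ ∫ _y, K ∂ν := by
          refine integral_mono_of_nonneg (ae_of_all _ fun y => norm_nonneg _)
            (integrable_const K) (ae_of_all _ fun y => hb 0 y s)
      _ = K := by simp
  -- the measure preserving rearrangements
  have hre : MeasurePreserving (fun w : ((Λ → ℝ) × Y) × ℝ => ((w.1.1, w.2), w.1.2))
      ((PY Λ c ν).prod kap) (((PP Λ c).prod kap).prod ν) := mp_perm (PP Λ c) kap ν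
  have hre' := mp_re2 (Λ := Λ) (ν := ν) M.hc hν
  have has : MeasurePreserving (fun w : (Λ → ℝ) × (Y × ℝ) => ((w.1, w.2.1), w.2.2))
      ((PP Λ c).prod (ν.prod kap)) ((PY Λ c ν).prod kap) :=
    (measurePreserving_prodAssoc (PP Λ c) ν kap).symm
  -- P1: at almost every energy, for almost every environment, for almost every potential
  have P1 : ∀ᵐ s ∂kap, ∀ᵐ y ∂ν, ∀ᵐ ω ∂(PP Λ c), Good e H (fib B y) φ (ω, s) ∧
      ∀ x, EigAt e H (fib B y) φ ω s x (α0 x y s) := by
    have h1 : ∀ᵐ r ∂((PY Λ c ν).prod kap), Good e H (fib B r.1.2) φ (r.1.1, r.2) ∧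
        ∀ x, EigAt e H (fib B r.1.2) φ r.1.1 r.2 x (α0 x r.1.2 r.2) := by
      filter_upwards [hgood, hEig] with r h1 h2 using ⟨h1, h2⟩
    exact ae_swap (ae_swap (has.quasiMeasurePreserving.ae h1))
  have hmp : MeasurePreserving (fun w : ((Λ → ℝ) × ℝ) × (Y × ℝ) => (((w.1.1, w.2.1), w.1.2), w.2.2))
      (((PP Λ c).prod (unif c)).prod (ν.prod kap)) (M4 Λ c ν) := by
    have e1 := (measurePreserving_prodAssoc ((PP Λ c).prod (unif c)) ν kap).symm
    have e2 := (mp_perm (PP Λ c) ν (unif c)).prod (MeasurePreserving.id kap)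
    exact e2.comp e1
  have P3 : ∀ᵐ s ∂kap, ∀ᵐ y ∂ν, ∀ᵐ p ∂((PP Λ c).prod (unif c)), ∀ x,
      Tendsto (fun k => (Zt (tk (φ k)) s).im
      * ‖(fib B y (Function.update p.1 0 p.2) - fib B y p.1)
          (Rv (H (Function.update p.1 0 p.2)) (Zt (tk (φ k)) s) (e x))‖ ^ 2) atTop (𝓝 0) :=
    ae_swap (ae_swap (hmp.quasiMeasurePreserving.ae hX))
  have P4 : ∀ᵐ s ∂kap, ∀ᵐ p ∂((PP Λ c).prod (unif c)), (0 < nl e H φ 0 (p.1, s) ↔
      0 < nl e H φ 0 (Function.update p.1 0 p.2, s)) := by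
    obtain ⟨y, hy⟩ := (ae_swap (hre'.quasiMeasurePreserving.ae hgood)).exists
    exact ae_swap (M.pos_iff (B := fib B y) hy 0)
  have P5 : ∀ᵐ s ∂kap, ∀ᵐ y ∂ν, ∀ a x, α0 x (τ a y) s = α0 (x + a) y s := by
    have h1 : ∀ᵐ w ∂(ν.prod kap), ∀ a x, α0 x (τ a w.1) w.2 = α0 (x + a) w.1 w.2 := by
      rw [ae_all_iff]; intro a
      rw [ae_all_iff]; intro x
      exact hcov0 a x
    exact ae_swap h1
  -- the alternative
  have halt : ∀ᵐ s ∂kap, (∀ᵐ y ∂ν, ∀ x, α0 x y s = α s) ∨
      (∀ᵐ ω ∂(PP Λ c), ∀ x, nl e H φ x (ω, s) = 0) := by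
    filter_upwards [P1, P3, P4, P5] with s h1 h3 h4 h5
    by_cases hA : ∀ i, ∀ᵐ y ∂ν, α0 (u i) y s = α0 0 y s
    · left
      have hms : Measurable fun y => α0 0 y s := (hm 0).comp (by fun_prop : Measurable fun y : Y => (y, s))
      have h6 : ∀ i, ∀ᵐ y ∂ν, (fun y => α0 0 y s) (τ (u i) y) = (fun y => α0 0 y s) y := by
        intro i
        filter_upwards [hA i, h5] with y hy1 hy2
        show α0 0 (τ (u i) y) s = α0 0 y s
        rw [hy2, zero_add, hy1]
      have h7 := ae_const_of_inv hE herg hms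
        (inv_of_gen (f := fun y => α0 0 y s) hE hgen h6)
      rw [ae_all_iff]
      intro x
      filter_upwards [h5, (hE.mp x).quasiMeasurePreserving.ae h7] with y hy1 hy2
      have h8 := hy1 x 0
      rw [zero_add] at h8
      rw [← h8]
      exact hy2
    · right
      push Not at hA
      obtain ⟨i, hi⟩ := hA
      obtain ⟨y, hy, hy1, hy3⟩ := (hi.and_eventually (h1.and h3)).exists
      have h6 := M.ae_gr_zero (B := fib B y) (a := fun x => α0 x y s) (x := u i) hy hy1
        (hy3.mono fun p hp => hp (u i)) h4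
      have h7 := M.ae_nl_zero hu hφ (hy1.mono fun ω hω => hω.1.nl 0) i h6
      rw [ae_all_iff]
      exact M.nl_all_zero hcov h7
  -- conclusion
  refine ⟨α, hαm, hαb, φ, hφ, hgood, ?_⟩
  have hms : ∀ x, MeasurableSet {w : ((Λ → ℝ) × Y) × ℝ | α0 x w.1.2 w.2 = α w.2 ∨
      nl e H φ x (w.1.1, w.2) = 0} := by
    intro x
    have e1 : MeasurableSet {w : ((Λ → ℝ) × Y) × ℝ | α0 x w.1.2 w.2 = α w.2} :=
      measurableSet_eq_fun ((hm x).comp (by fun_prop :
        Measurable fun w : ((Λ → ℝ) × Y) × ℝ => (w.1.2, w.2))) (hαm.comp measurable_snd)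
    have e2 : MeasurableSet {w : ((Λ → ℝ) × Y) × ℝ | nl e H φ x (w.1.1, w.2) = 0} :=
      measurableSet_eq_fun ((M.measurable_nl x).comp (by fun_prop :
        Measurable fun w : ((Λ → ℝ) × Y) × ℝ => (w.1.1, w.2))) measurable_const
    exact e1.union e2
  have h1 : ∀ᵐ r ∂((PY Λ c ν).prod kap), ∀ x, α0 x r.1.2 r.2 = α r.2 ∨
      nl e H φ x (r.1.1, r.2) = 0 := by
    rw [ae_all_iff]; intro x
    have h2 : ∀ᵐ s ∂kap, ∀ᵐ p ∂(PY Λ c ν), α0 x p.2 s = α s ∨ nl e H φ x (p.1, s) = 0 := by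
      filter_upwards [halt] with s hs
      rcases hs with hs | hs
      · have h3 : MeasurePreserving (Prod.snd : (Λ → ℝ) × Y → Y) ((PP Λ c).prod ν) ν :=
          measurePreserving_snd
        filter_upwards [h3.quasiMeasurePreserving.ae hs] with p hp
        exact Or.inl (hp x)
      · have h3 : MeasurePreserving (Prod.fst : (Λ → ℝ) × Y → Λ → ℝ) ((PP Λ c).prod ν) (PP Λ c) :=
          measurePreserving_fst
        filter_upwards [h3.quasiMeasurePreserving.ae hs] with p hp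
        exact Or.inr (hp x)
    rw [Measure.ae_prod_iff_ae_ae (hms x)]
    exact (Measure.ae_ae_comm (μ := PY Λ c ν) (ν := kap)
      (p := fun p s => α0 x p.2 s = α s ∨ nl e H φ x (p.1, s) = 0) (hms x)).mpr h2
  filter_upwards [hgood, hEig, h1] with r hr1 hr2 hr3 x
  rcases hr3 x with h | h
  · rw [← h]
    exact hr2 x
  · have h4 := hr1.nl x
    rw [h] at h4
    exact eigAt_of_zero hr1.1 h4 _

end Pool.Agent.Lib.MP_562b47_mp
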