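import Mathlib
import Pool.Agent.Lib.MP_562b47_mp.Ye.Defs
import Pool.Agent.Lib.MP_562b47_mp.Qe.Trace

/-!
The mean ergodic theorem for covariant families in an environment.
(Anderson model, MP_562b47_mp.)
-/

open MeasureTheory Set Filter Topology Complex
open scoped Real ENNReal NNReal InnerProductSpace

set_option linter.unusedSectionVars false

namespace Pool.Agent.Lib.MP_562b47_mp

variable {Λ : Type*} [DecidableEq Λ] [AddCommGroup Λ] [Countable Λ] {Y : Type*}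
  [MeasurableSpace Y] {E : Type*}
  [NormedAddCommGroup E] [InnerProductSpace ℂ E] [CompleteSpace E] {c : ℝ} {e : Λ → E}
  {H : (Λ → ℝ) → (E →L[ℂ] E)} {ν : Measure Y} {τ : Λ → Y → Y}
  {A B D D' X W : (Λ → ℝ) × Y → (E →L[ℂ] E)} {K L : ℝ} {V : Λ → (E ≃ₗᵢ[ℂ] E)}

/-- mass transport -/
theorem ye_Erg_mt_kernel (hc : 0 < c) (hE : Env ν τ) {q : Λ → Λ → (Λ → ℝ) × Y → ℝ≥0∞}
    (hm : ∀ x y, Measurable (q x y))
    (hcov : ∀ a x y, ∀ᵐ ω ∂(PY Λ c ν), q x y (sh τ a ω) = q (x + a) (y + a) ω) :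
    ∑' x, ∫⁻ ω, q x 0 ω ∂(PY Λ c ν) = ∑' y, ∫⁻ ω, q 0 y ω ∂(PY Λ c ν) := by
  have h1 : ∀ x, ∫⁻ ω, q x 0 ω ∂(PY Λ c ν) = ∫⁻ ω, q 0 (-x) ω ∂(PY Λ c ν) := by
    intro x
    have h2 : MeasurePreserving (sh τ x) (PY Λ c ν) (PY Λ c ν) := mp_sh hc hE x
    rw [← h2.lintegral_comp (hm 0 (-x))]
    refine lintegral_congr_ae ?_
    filter_upwards [hcov x 0 (-x)] with ω hω
    rw [hω, zero_add, neg_add_cancel]
  simp_rw [h1]
  exact (Equiv.neg Λ).tsum_eq (fun y => ∫⁻ ω, q 0 y ω ∂(PY Λ c ν))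

/-- mean square -/
noncomputable def ye_Erg_MS (c : ℝ) (ν : Measure Y) (e : Λ → E) (A : (Λ → ℝ) × Y → (E →L[ℂ] E)) : ℝ :=
  ∫ ω, ‖A ω (e 0)‖ ^ 2 ∂(PY Λ c ν)

theorem ye_Erg_MS_nonneg : 0 ≤ ye_Erg_MS c ν e A := integral_nonneg fun ω => by positivity

private theorem YCov.nonneg (hE : Env ν τ) (hA : YCov c ν τ e A K) : 0 ≤ K := by
  have := hE.prob
  obtain ⟨y⟩ : Nonempty Y := ν.nonempty_of_neZero
  exact (norm_nonneg _).trans (hA.bdd ((fun _ => 0), y))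

private theorem YCov.mono (hA : YCov c ν τ e A K) (h : K ≤ L) : YCov c ν τ e A L where
  bdd ω := (hA.bdd ω).trans h
  meas := hA.meas
  cov := hA.cov

private theorem YCov.add (hA : YCov c ν τ e A K) (hB : YCov c ν τ e B L) :
    YCov c ν τ e (fun ω => A ω + B ω) (K + L) where
  bdd ω := (norm_add_le _ _).trans (add_le_add (hA.bdd ω) (hB.bdd ω))
  meas x y := by
    simp_rw [add_apply, inner_add_right]
    exact (hA.meas x y).add (hB.meas x y)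
  cov a x y := by
    filter_upwards [hA.cov a x y, hB.cov a x y] with ω h1 h2
    simp only [add_apply, inner_add_right, h1, h2]

private theorem YCov.smul (z : ℂ) (hA : YCov c ν τ e A K) : YCov c ν τ e (fun ω => z • A ω) (‖z‖ * K) where
  bdd ω := by
    rw [norm_smul]
    exact mul_le_mul_of_nonneg_left (hA.bdd ω) (norm_nonneg _)
  meas x y := by
    simp_rw [smul_apply, inner_smul_right]
    exact (hA.meas x y).const_mul z
  cov a x y := by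
    filter_upwards [hA.cov a x y] with ω h1
    simp only [smul_apply, inner_smul_right, h1]

private theorem YCov.sub (hA : YCov c ν τ e A K) (hB : YCov c ν τ e B L) :
    YCov c ν τ e (fun ω => A ω - B ω) (K + L) where
  bdd ω := (norm_sub_le _ _).trans (add_le_add (hA.bdd ω) (hB.bdd ω))
  meas x y := by
    simp_rw [sub_apply, inner_sub_right]
    exact (hA.meas x y).sub (hB.meas x y)
  cov a x y := by
    filter_upwards [hA.cov a x y, hB.cov a x y] with ω h1 h2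
    simp only [sub_apply, inner_sub_right, h1, h2]

private theorem YCov.adjoint (hA : YCov c ν τ e A K) : YCov c ν τ e (fun ω => (A ω).adjoint) K where
  bdd ω := by
    rw [LinearIsometryEquiv.norm_map]
    exact hA.bdd ω
  meas x y := by
    simp_rw [inner_adjoint_eq]
    exact Complex.continuous_conj.measurable.comp (hA.meas y x)
  cov a x y := by
    filter_upwards [hA.cov a y x] with ω h1
    rw [inner_adjoint_eq, inner_adjoint_eq, h1]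

private theorem YCov.mul (M : Model c e H) (hA : YCov c ν τ e A K) (hB : YCov c ν τ e B L) :
    YCov c ν τ e (fun ω => A ω * B ω) (K * L) where
  bdd ω := (norm_mul_le _ _).trans (mul_le_mul (hA.bdd ω) (hB.bdd ω) (norm_nonneg _)
    ((norm_nonneg _).trans (hA.bdd ω)))
  meas x y := by
    refine measurable_of_tendsto_metrizable' (atTop : Filter (Finset Λ))
      (f := fun s ω => ∑ w ∈ s, ⟪e x, A ω (e w)⟫_ℂ * ⟪e w, B ω (e y)⟫_ℂ) ?_ ?_
    · intro s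
      exact Finset.measurable_fun_sum _ fun w _ => (hA.meas x w).mul (hB.meas w y)
    · rw [tendsto_pi_nhds]
      intro ω
      exact M.hasSum_inner (A ω) (e x) (B ω (e y))
  cov a x y := by
    have h1 : ∀ᵐ ω ∂(PY Λ c ν), ∀ w, ⟪e x, A (sh τ a ω) (e w)⟫_ℂ
        = ⟪e (x + a), A ω (e (w + a))⟫_ℂ := by
      rw [ae_all_iff]; exact fun w => hA.cov a x w
    have h2 : ∀ᵐ ω ∂(PY Λ c ν), ∀ w, ⟪e w, B (sh τ a ω) (e y)⟫_ℂ
        = ⟪e (w + a), B ω (e (y + a))⟫_ℂ := by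
      rw [ae_all_iff]; exact fun w => hB.cov a w y
    filter_upwards [h1, h2] with ω h3 h4
    have h5 := M.hasSum_inner (A (sh τ a ω)) (e x) (B (sh τ a ω) (e y))
    have h6 := M.hasSum_inner (A ω) (e (x + a)) (B ω (e (y + a)))
    rw [← (Equiv.addRight a).hasSum_iff] at h6
    refine h5.unique ?_
    refine h6.congr_fun ?_ |> id
    intro w
    simp only [Function.comp, Equiv.coe_addRight]
    rw [h3 w, h4 w]

private theorem YCov.of_covOp {V : Λ → (E ≃ₗᵢ[ℂ] E)} (hV : Trans e V) {A : (Λ → ℝ) → (E →L[ℂ] E)}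
    (hA : CovOp V A) (hK : ∀ ω, ‖A ω‖ ≤ K) :
    YCov c ν τ e (fun p : (Λ → ℝ) × Y => A p.1) K where
  bdd p := hK p.1
  meas x y := ((continuous_const.inner (hA.cont (e y))).measurable).comp measurable_fst
  cov a x y := by
    refine ae_of_all _ fun p => ?_
    have h4 := hA.cov a p.1 (e (y + a))
    rw [hV.apply a y] at h4
    show ⟪e x, A (fun j => p.1 (j + a)) (e y)⟫_ℂ = _
    rw [← h4, ← hV.apply a x, LinearIsometryEquiv.inner_map_map]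

/-- the unitary group -/
private theorem ycov_Ut (M : Model c e H) {V : Λ → (E ≃ₗᵢ[ℂ] E)} (hV : Trans e V) (hH : CovOp V H)
    (t : ℝ) : YCov c ν τ e (fun p : (Λ → ℝ) × Y => Ut H p.1 t) 1 :=
  YCov.of_covOp hV (hH.Ut t) fun ω => ContinuousLinearMap.opNorm_le_bound _ zero_le_one fun u => by
    rw [norm_Ut_apply (M.sa ω), one_mul]

private theorem YCov.measurable_sq (M : Model c e H) (hA : YCov c ν τ e A K) (x : Λ) :
    Measurable fun ω => ‖A ω (e x)‖ₑ ^ 2 := by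
  simp_rw [M.parseval_enorm]
  exact Measurable.tsum fun k => (hA.meas k x).enorm.pow_const 2

private theorem YCov.measurable_norm (M : Model c e H) (hA : YCov c ν τ e A K) (x : Λ) :
    Measurable fun ω => ‖A ω (e x)‖ := by
  have h1 : (fun ω => ‖A ω (e x)‖) = fun ω => √((‖A ω (e x)‖ₑ ^ 2).toReal) := by
    funext ω
    rw [ENNReal.toReal_pow, toReal_enorm, Real.sqrt_sq (norm_nonneg _)]
  rw [h1]
  exact (hA.measurable_sq M x).ennreal_toReal.sqrt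

private theorem YCov.norm_apply_le (M : Model c e H) (hA : YCov c ν τ e A K) (ω : (Λ → ℝ) × Y) (x : Λ) :
    ‖A ω (e x)‖ ≤ K := by
  have h1 := (A ω).le_opNorm (e x)
  rw [M.ortho.1 x, mul_one] at h1
  exact h1.trans (hA.bdd ω)

/-- mass transport -/
private theorem YCov.mass_transport (M : Model c e H) (hE : Env ν τ) (hA : YCov c ν τ e A K) :
    ∫⁻ ω, ‖A ω (e 0)‖ₑ ^ 2 ∂(PY Λ c ν) = ∫⁻ ω, ‖(A ω).adjoint (e 0)‖ₑ ^ 2 ∂(PY Λ c ν) := by
  have h := ye_Erg_mt_kernel M.hc hE (q := fun x y ω => ‖⟪e x, A ω (e y)⟫_ℂ‖ₑ ^ 2)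
    (fun x y => (hA.meas x y).enorm.pow_const 2) (fun a x y => by
      filter_upwards [hA.cov a x y] with ω hω
      simp only [hω])
  simp_rw [M.parseval_enorm]
  rw [lintegral_tsum fun k => ((hA.meas k 0).enorm.pow_const 2).aemeasurable,
    lintegral_tsum fun k => ((hA.adjoint.meas k 0).enorm.pow_const 2).aemeasurable, h]
  refine tsum_congr fun y => lintegral_congr fun ω => ?_
  rw [inner_adjoint_eq, RCLike.enorm_conj]

/-- the mean square of a column does not depend on the column -/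
private theorem YCov.shift_lintegral (M : Model c e H) (hE : Env ν τ) (hA : YCov c ν τ e A K) (x : Λ) :
    ∫⁻ ω, ‖A ω (e x)‖ₑ ^ 2 ∂(PY Λ c ν) = ∫⁻ ω, ‖A ω (e 0)‖ₑ ^ 2 ∂(PY Λ c ν) := by
  have := unif_prob M.hc
  have hmp := mp_sh M.hc hE x
  have h1 : ∀ᵐ ω ∂(PY Λ c ν), ∀ w, ⟪e w, A (sh τ x ω) (e 0)⟫_ℂ
      = ⟪e (w + x), A ω (e x)⟫_ℂ := by
    rw [ae_all_iff]; intro w
    filter_upwards [hA.cov x w 0] with ω hω
    rw [hω, zero_add]
  have h2 : ∫⁻ ω, ‖A ω (e x)‖ₑ ^ 2 ∂(PY Λ c ν)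
      = ∫⁻ ω, ‖A (sh τ x ω) (e 0)‖ₑ ^ 2 ∂(PY Λ c ν) := by
    refine lintegral_congr_ae ?_
    filter_upwards [h1] with ω hω
    rw [M.parseval_enorm, M.parseval_enorm,
      ← (Equiv.addRight x).tsum_eq (fun k => ‖⟪e k, A ω (e x)⟫_ℂ‖ₑ ^ 2)]
    refine tsum_congr fun k => ?_
    rw [hω k, Equiv.coe_addRight]
  rw [h2]
  exact hmp.lintegral_comp (hA.measurable_sq M 0)

/-- invariance of the mean square under the dynamics -/
private theorem YCov.conj_lintegral (M : Model c e H) (hE : Env ν τ) {V : Λ → (E ≃ₗᵢ[ℂ] E)} (hV : Trans e V)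
    (hH : CovOp V H) (hA : YCov c ν τ e A K) (s : ℝ) :
    ∫⁻ ω, ‖(Ut H ω.1 (-s) * A ω * Ut H ω.1 s) (e 0)‖ₑ ^ 2 ∂(PY Λ c ν) =
      ∫⁻ ω, ‖A ω (e 0)‖ₑ ^ 2 ∂(PY Λ c ν) := by
  have h1 : ∀ ω, ‖(Ut H ω.1 (-s) * A ω * Ut H ω.1 s) (e 0)‖ₑ = ‖(A ω * Ut H ω.1 s) (e 0)‖ₑ := by
    intro ω
    rw [← ofReal_norm, ← ofReal_norm, mul_assoc]
    congr 1
    exact norm_Ut_apply (M.sa ω.1) (-s) _
  have h2 : ∀ ω, ‖(A ω * Ut H ω.1 s).adjoint (e 0)‖ₑ = ‖(A ω).adjoint (e 0)‖ₑ := by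
    intro ω
    have h3 : (A ω * Ut H ω.1 s).adjoint = Ut H ω.1 (-s) * (A ω).adjoint := by
      rw [← ContinuousLinearMap.star_eq_adjoint, star_mul,
        ContinuousLinearMap.star_eq_adjoint, ContinuousLinearMap.star_eq_adjoint,
        Ut_adjoint (M.sa ω.1)]
    rw [h3, ← ofReal_norm, ← ofReal_norm]
    congr 1
    exact norm_Ut_apply (M.sa ω.1) (-s) _
  simp_rw [h1]
  rw [(hA.mul M (ycov_Ut M hV hH s)).mass_transport M hE]
  simp_rw [h2]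
  rw [hA.mass_transport M hE]


/-- the closure of the orbit under midpoints -/
inductive ye_Erg_InC (H : (Λ → ℝ) → (E →L[ℂ] E)) (A : (Λ → ℝ) × Y → (E →L[ℂ] E)) : (((Λ → ℝ) × Y) → (E →L[ℂ] E)) → Prop
  | base (s : ℝ) : ye_Erg_InC H A (fun ω => Ut H ω.1 (-s) * A ω * Ut H ω.1 s)
  | half {D D' : (Λ → ℝ) × Y → (E →L[ℂ] E)} (hD : ye_Erg_InC H A D) (hD' : ye_Erg_InC H A D') :
      ye_Erg_InC H A (fun ω => (1 / 2 : ℂ) • (D ω + D' ω))

private theorem YCov.conj (M : Model c e H) (hV : Trans e V) (hH : CovOp V H) (hA : YCov c ν τ e A K)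
    (s : ℝ) : YCov c ν τ e (fun ω => Ut H ω.1 (-s) * A ω * Ut H ω.1 s) K := by
  have h := ((ycov_Ut M hV hH (-s)).mul M hA).mul M (ycov_Ut M hV hH s)
  rwa [one_mul, mul_one] at h

private theorem ye_Erg_InC.ycov (M : Model c e H) (hV : Trans e V) (hH : CovOp V H) (hA : YCov c ν τ e A K)
    (hD : ye_Erg_InC H A D) : YCov c ν τ e D K := by
  induction hD with
  | base s => exact hA.conj M hV hH s
  | half _ _ h1 h2 =>
    refine ((h1.add h2).smul (1 / 2)).mono (le_of_eq ?_)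
    norm_num
    ring

private theorem ye_Erg_InC.shift (hD : ye_Erg_InC H A D) (s : ℝ) :
    ye_Erg_InC H A (fun ω => Ut H ω.1 (-s) * D ω * Ut H ω.1 s) := by
  induction hD with
  | base t =>
    have h := ye_Erg_InC.base (H := H) (A := A) (t + s)
    have e1 : (fun ω => Ut H ω.1 (-(t + s)) * A ω * Ut H ω.1 (t + s))
        = fun ω => Ut H ω.1 (-s) * (Ut H ω.1 (-t) * A ω * Ut H ω.1 t) * Ut H ω.1 s := by
      funext ω
      rw [show -(t + s) = -s + -t by ring, Ut_add, Ut_add]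
      simp only [mul_assoc]
    rwa [e1] at h
  | @half D D' _ _ h1 h2 =>
    have h := ye_Erg_InC.half h1 h2
    have e1 : (fun ω => (1 / 2 : ℂ) • (Ut H ω.1 (-s) * D ω * Ut H ω.1 s +
        Ut H ω.1 (-s) * D' ω * Ut H ω.1 s)) =
        fun ω => Ut H ω.1 (-s) * ((1 / 2 : ℂ) • (D ω + D' ω)) * Ut H ω.1 s := by
      funext ω
      rw [mul_smul_comm, smul_mul_assoc, mul_add, add_mul]
    rwa [e1] at h

/-! ### Mean squares -/

private theorem YCov.integrable_sq (M : Model c e H) (hE : Env ν τ) (hA : YCov c ν τ e A K) (x : Λ) :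
    Integrable (fun ω => ‖A ω (e x)‖ ^ 2) (PY Λ c ν) := by
  have := PY_prob Λ M.hc hE.prob
  refine Integrable.of_bound (C := K ^ 2) ((hA.measurable_norm M x).pow_const 2).aestronglyMeasurable
    (ae_of_all _ fun ω => ?_)
  rw [Real.norm_of_nonneg (by positivity)]
  exact pow_le_pow_left₀ (norm_nonneg _) (hA.norm_apply_le M ω x) 2

private theorem YCov.lint_eq (M : Model c e H) (hE : Env ν τ) (hA : YCov c ν τ e A K) :
    ∫⁻ ω, ‖A ω (e 0)‖ₑ ^ 2 ∂(PY Λ c ν) = ENNReal.ofReal (ye_Erg_MS c ν e A) := by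
  unfold ye_Erg_MS
  rw [ofReal_integral_eq_lintegral_ofReal (hA.integrable_sq M hE 0)
    (ae_of_all _ fun ω => by positivity)]
  refine lintegral_congr fun ω => ?_
  rw [← ofReal_norm, ENNReal.ofReal_pow (norm_nonneg _)]

theorem ye_Erg_parallelogram (M : Model c e H) (hE : Env ν τ) (hD : YCov c ν τ e D K) (hD' : YCov c ν τ e D' K) :
    ye_Erg_MS c ν e (fun ω => D ω - D' ω) =
      2 * ye_Erg_MS c ν e D + 2 * ye_Erg_MS c ν e D' - 4 * ye_Erg_MS c ν e (fun ω => (1 / 2 : ℂ) • (D ω + D' ω)) := by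
  have iA := hD.integrable_sq M hE 0
  have iB := hD'.integrable_sq M hE 0
  have iD := ((hD.add hD').smul (1 / 2)).integrable_sq M hE 0
  unfold ye_Erg_MS
  rw [← integral_const_mul, ← integral_const_mul, ← integral_const_mul, ← integral_add,
    ← integral_sub]
  · refine integral_congr_ae (ae_of_all _ fun ω => ?_)
    simp only [sub_apply, smul_apply, add_apply, norm_smul]
    have h1 := parallelogram_law_with_norm ℂ (D ω (e 0)) (D' ω (e 0))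
    norm_num
    nlinarith [h1]
  · exact (iA.const_mul 2).add (iB.const_mul 2)
  · exact iD.const_mul 4
  · exact iA.const_mul 2
  · exact iB.const_mul 2

theorem ye_Erg_diff_bound (M : Model c e H) (hE : Env ν τ) (hV : Trans e V) (hH : CovOp V H) (hA : YCov c ν τ e A K)
    (hD : ye_Erg_InC H A D) (hD' : ye_Erg_InC H A D') {m : ℝ} (hm : ∀ D, ye_Erg_InC H A D → m ≤ ye_Erg_MS c ν e D) (x : Λ) :
    ∫⁻ ω, ‖D ω (e x) - D' ω (e x)‖ₑ ^ 2 ∂(PY Λ c ν) ≤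
      ENNReal.ofReal (2 * ye_Erg_MS c ν e D + 2 * ye_Erg_MS c ν e D' - 4 * m) := by
  have hDc := hD.ycov M hV hH hA
  have hDc' := hD'.ycov M hV hH hA
  have h1 := (hDc.sub hDc').shift_lintegral M hE x
  have h3 := (hDc.sub hDc').lint_eq M hE
  rw [h3, ye_Erg_parallelogram M hE hDc hDc'] at h1
  simp only [sub_apply] at h1
  rw [h1]
  refine ENNReal.ofReal_le_ofReal ?_
  have h4 := hm _ (hD.half hD')
  linarith

private theorem YCov.ms_conj (M : Model c e H) (hE : Env ν τ) (hV : Trans e V) (hH : CovOp V H) (hD : YCov c ν τ e D K)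
    (s : ℝ) : ye_Erg_MS c ν e (fun ω => Ut H ω.1 (-s) * D ω * Ut H ω.1 s) = ye_Erg_MS c ν e D := by
  have h := hD.conj_lintegral M hE hV hH s
  rw [(hD.conj M hV hH s).lint_eq M hE, hD.lint_eq M hE] at h
  exact (ENNReal.ofReal_eq_ofReal_iff ye_Erg_MS_nonneg ye_Erg_MS_nonneg).1 h

theorem ye_Erg_ae_geom {f : ℕ → (Λ → ℝ) × Y → E} (hf : ∀ n, Measurable fun ω => ‖f n ω‖ₑ ^ 2) {C : ℝ}
    (hC : 0 ≤ C)
    (h : ∀ n, ∫⁻ ω, ‖f n ω‖ₑ ^ 2 ∂(PY Λ c ν) ≤ ENNReal.ofReal (C * (1 / 16) ^ n)) :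
    ∀ᵐ ω ∂(PY Λ c ν), ∃ K : ℕ, ∀ n, ‖f n ω‖ ≤ K * (1 / 2) ^ n := by
  have hmeas : ∀ n, Measurable fun ω => ENNReal.ofReal ((4 : ℝ) ^ n) * ‖f n ω‖ₑ ^ 2 := fun n =>
    (hf n).const_mul _
  have h1 : ∫⁻ ω, ∑' n, ENNReal.ofReal ((4 : ℝ) ^ n) * ‖f n ω‖ₑ ^ 2 ∂(PY Λ c ν) ≠ ⊤ := by
    rw [lintegral_tsum fun n => (hmeas n).aemeasurable]
    have h2 : ∀ n, ∫⁻ ω, ENNReal.ofReal ((4 : ℝ) ^ n) * ‖f n ω‖ₑ ^ 2 ∂(PY Λ c ν) ≤
        ENNReal.ofReal (C * (1 / 4) ^ n) := by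
      intro n
      rw [lintegral_const_mul' _ _ ENNReal.ofReal_ne_top]
      calc ENNReal.ofReal ((4 : ℝ) ^ n) * ∫⁻ ω, ‖f n ω‖ₑ ^ 2 ∂(PY Λ c ν)
          ≤ ENNReal.ofReal ((4 : ℝ) ^ n) * ENNReal.ofReal (C * (1 / 16) ^ n) := by
            gcongr
            exact h n
        _ = ENNReal.ofReal (C * (1 / 4) ^ n) := by
            rw [← ENNReal.ofReal_mul (by positivity)]
            congr 1
            have h3 : (4 : ℝ) ^ n * (1 / 16) ^ n = (1 / 4) ^ n := by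
              rw [← mul_pow]; norm_num
            rw [← h3]; ring
    refine ne_top_of_le_ne_top ?_ (ENNReal.tsum_le_tsum h2)
    rw [← ENNReal.ofReal_tsum_of_nonneg (fun n => by positivity)
      ((summable_geometric_of_lt_one (by norm_num) (by norm_num)).mul_left C)]
    exact ENNReal.ofReal_ne_top
  have h3 := ae_lt_top (Measurable.tsum hmeas) h1
  filter_upwards [h3] with ω hω
  set S := ∑' n, ENNReal.ofReal ((4 : ℝ) ^ n) * ‖f n ω‖ₑ ^ 2 with hS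
  refine ⟨⌈Real.sqrt S.toReal⌉₊, fun n => ?_⟩
  have h4 : ENNReal.ofReal ((4 : ℝ) ^ n) * ‖f n ω‖ₑ ^ 2 ≤ S := ENNReal.le_tsum n
  have h5 : ENNReal.ofReal ((2 ^ n * ‖f n ω‖) ^ 2) ≤ S := by
    refine le_trans (le_of_eq ?_) h4
    rw [← ofReal_norm, ← ENNReal.ofReal_pow (norm_nonneg _),
      ← ENNReal.ofReal_mul (by positivity)]
    congr 1
    have h6 : (4 : ℝ) ^ n = (2 ^ n) ^ 2 := by rw [← pow_mul, mul_comm, pow_mul]; norm_num
    rw [h6]; ring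
  have h6 : (2 ^ n * ‖f n ω‖) ^ 2 ≤ S.toReal :=
    (ENNReal.ofReal_le_iff_le_toReal hω.ne).1 h5
  have h7 : 2 ^ n * ‖f n ω‖ ≤ Real.sqrt S.toReal := Real.le_sqrt_of_sq_le h6
  have h8 : 2 ^ n * ‖f n ω‖ ≤ (⌈Real.sqrt S.toReal⌉₊ : ℝ) := h7.trans (Nat.le_ceil _)
  have h9 : ‖f n ω‖ = (2 ^ n * ‖f n ω‖) * (1 / 2) ^ n := by
    have h10 : (2 : ℝ) ^ n * (1 / 2) ^ n = 1 := by rw [← mul_pow]; norm_num
    calc ‖f n ω‖ = ‖f n ω‖ * ((2 : ℝ) ^ n * (1 / 2) ^ n) := by rw [h10, mul_one]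
      _ = _ := by ring
  rw [h9]
  gcongr

/-- the limit of a minimising sequence -/
theorem ye_Erg_exists_B (M : Model c e H) (hE : Env ν τ) (hV : Trans e V) (hH : CovOp V H) (hA : YCov c ν τ e A K)
    {m : ℝ} (hm : ∀ D, ye_Erg_InC H A D → m ≤ ye_Erg_MS c ν e D) (D : ℕ → (Λ → ℝ) × Y → (E →L[ℂ] E))
    (hD : ∀ n, ye_Erg_InC H A (D n)) (hDm : ∀ n, ye_Erg_MS c ν e (D n) ≤ m + (1 / 16) ^ n) :
    ∃ B : (Λ → ℝ) × Y → (E →L[ℂ] E), YCov c ν τ e B K ∧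
      (∀ᵐ ω ∂(PY Λ c ν), Commute (B ω) (H ω.1)) ∧
      (∀ᵐ ω ∂(PY Λ c ν), ∀ u, Tendsto (fun n => D n ω u) atTop (𝓝 (B ω u))) := by
  classical
  have := PY_prob Λ M.hc hE.prob
  have := unif_prob M.hc
  have hcov : ∀ n, YCov c ν τ e (D n) K := fun n => (hD n).ycov M hV hH hA
  set G : Set ((Λ → ℝ) × Y) := {ω | ∀ x, ∃ K : ℕ, ∀ n, ‖(D (n + 1) ω - D n ω) (e x)‖ ≤
    K * (1 / 2) ^ n} with hGdef
  have hGm : MeasurableSet G := by
    have h1 : G = ⋂ x, ⋃ K : ℕ, ⋂ n, {ω | ‖(D (n + 1) ω - D n ω) (e x)‖ ≤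
        K * (1 / 2) ^ n} := by
      ext ω
      simp [hGdef]
    rw [h1]
    refine MeasurableSet.iInter fun x => MeasurableSet.iUnion fun K => MeasurableSet.iInter fun n => ?_
    exact measurableSet_le (((hcov (n + 1)).sub (hcov n)).measurable_norm M x) measurable_const
  have hlim : ∀ ω, ∃ L : E →L[ℂ] E,
      (ω ∈ G → ∀ u, Tendsto (fun n => D n ω u) atTop (𝓝 (L u))) ∧ (ω ∉ G → L = 0) ∧
        ‖L‖ ≤ K := by
    intro ω
    by_cases hω : ω ∈ G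
    · obtain ⟨L, h1, h2⟩ := me_limit M.ortho M.tot (fun n => D n ω) (K := K)
        (fun n => (hcov n).bdd ω) (fun x => by
          obtain ⟨K, hK⟩ := hω x
          refine cauchySeq_of_le_geometric (1 / 2) (K : ℝ) (by norm_num) fun n => ?_
          rw [dist_comm, dist_eq_norm]
          exact hK n)
      exact ⟨L, fun _ => h1, fun h => absurd hω h, h2⟩
    · exact ⟨0, fun h => absurd h hω, fun _ => rfl, by rw [norm_zero]; exact (norm_nonneg _).trans (hA.bdd ω)⟩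
  choose B hB1 hB2 hB3 using hlim
  have hG : ∀ᵐ ω ∂(PY Λ c ν), ω ∈ G := by
    rw [hGdef]
    simp only [Set.mem_ofPred_eq]
    rw [ae_all_iff]
    intro x
    refine ye_Erg_ae_geom (C := 4) (fun n => ((hcov (n + 1)).sub (hcov n)).measurable_sq M x)
      (by norm_num) fun n => ?_
    refine (ye_Erg_diff_bound M hE hV hH hA (hD (n + 1)) (hD n) hm x).trans
      (ENNReal.ofReal_le_ofReal ?_)
    have h1 := hDm (n + 1)
    have h2 := hDm n
    have h3 : (0 : ℝ) < (1 / 16) ^ n := by positivity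
    rw [pow_succ] at h1
    linarith
  refine ⟨B, ⟨hB3, ?_, ?_⟩, ?_, ?_⟩
  · intro x y
    refine measurable_of_tendsto_metrizable
      (f := fun n ω => G.indicator (fun ω => ⟪e x, D n ω (e y)⟫_ℂ) ω)
      (fun n => ((hcov n).meas x y).indicator hGm) ?_
    rw [tendsto_pi_nhds]
    intro ω
    by_cases hω : ω ∈ G
    · simp only [Set.indicator_of_mem hω]
      exact (continuous_const.inner continuous_id).continuousAt.tendsto.comp (hB1 ω hω (e y))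
    · simp only [Set.indicator_of_notMem hω, hB2 ω hω, zero_apply, inner_zero_right]
      exact tendsto_const_nhds
  · intro a x y
    have h1 := (mp_sh M.hc hE a).quasiMeasurePreserving.ae hG
    have h1' : ∀ᵐ ω ∂(PY Λ c ν), (sh τ a ω) ∈ G := h1
    have h0 : ∀ᵐ ω ∂(PY Λ c ν), ∀ n, ⟪e x, D n (sh τ a ω) (e y)⟫_ℂ
        = ⟪e (x + a), D n ω (e (y + a))⟫_ℂ := by
      rw [ae_all_iff]; exact fun n => (hcov n).cov a x y
    filter_upwards [hG, h1', h0] with ω hω hω' hω0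
    have h2 : Tendsto (fun n => ⟪e x, D n (sh τ a ω) (e y)⟫_ℂ) atTop
        (𝓝 ⟪e x, B (sh τ a ω) (e y)⟫_ℂ) := tendsto_const_nhds.inner (hB1 _ hω' (e y))
    have h3 : Tendsto (fun n => ⟪e (x + a), D n ω (e (y + a))⟫_ℂ) atTop
        (𝓝 ⟪e (x + a), B ω (e (y + a))⟫_ℂ) := tendsto_const_nhds.inner (hB1 _ hω (e (y + a)))
    exact tendsto_nhds_unique h2 (h3.congr fun n => (hω0 n).symm)
  · have hk : ∀ᵐ ω ∂(PY Λ c ν), ∀ (k : ℕ) (x : Λ), ∃ K : ℕ, ∀ n, ‖(D n ω -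
        (Ut H ω.1 (-(1 / (k + 1))) * D n ω * Ut H ω.1 (1 / (k + 1)))) (e x)‖ ≤ K * (1 / 2) ^ n := by
      rw [ae_all_iff]
      intro k
      rw [ae_all_iff]
      intro x
      have hS : ∀ n, YCov c ν τ e (fun ω => Ut H ω.1 (-(1 / ((k : ℝ) + 1))) * D n ω *
          Ut H ω.1 (1 / ((k : ℝ) + 1))) K := fun n => ((hD n).shift _).ycov M hV hH hA
      refine ye_Erg_ae_geom (C := 4) (fun n => ((hcov n).sub (hS n)).measurable_sq M x)
        (by norm_num) fun n => ?_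
      refine (ye_Erg_diff_bound M hE hV hH hA (hD n) ((hD n).shift _) hm x).trans
        (ENNReal.ofReal_le_ofReal ?_)
      rw [(hcov n).ms_conj M hE hV hH]
      have h2 := hDm n
      have h3 : (0 : ℝ) < (1 / 16) ^ n := by positivity
      linarith
    filter_upwards [hG, hk] with ω hω hω'
    refine me_commute fun k => ?_
    set s : ℝ := 1 / ((k : ℝ) + 1) with hs
    have h1 : B ω = Ut H ω.1 (-s) * B ω * Ut H ω.1 s := by
      refine me_ext M.ortho M.tot fun x => ?_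
      obtain ⟨K, hK⟩ := hω' k x
      have h2 := me_tendsto_zero hK
      have h3 : Tendsto (fun n => D n ω (e x) - (Ut H ω.1 (-s) * D n ω * Ut H ω.1 s) (e x)) atTop
          (𝓝 (B ω (e x) - (Ut H ω.1 (-s) * B ω * Ut H ω.1 s) (e x))) := by
        refine (hB1 ω hω (e x)).sub ?_
        exact ((Ut H ω.1 (-s)).continuous.continuousAt.tendsto.comp
          (hB1 ω hω (Ut H ω.1 s (e x))))
      have h4 := tendsto_nhds_unique h3 h2
      exact sub_eq_zero.1 h4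
    have h5 : Ut H ω.1 s * Ut H ω.1 (-s) = 1 := by
      rw [← Ut_add, add_neg_cancel, Ut_zero]
    calc B ω * Ut H ω.1 s = 1 * (B ω * Ut H ω.1 s) := (one_mul _).symm
      _ = Ut H ω.1 s * (Ut H ω.1 (-s) * B ω * Ut H ω.1 s) := by
          rw [← h5]; simp only [mul_assoc]
      _ = Ut H ω.1 s * B ω := by rw [← h1]
  · filter_upwards [hG] with ω hω
    exact hB1 ω hω

theorem ye_Erg_fatou (M : Model c e H) (hE : Env ν τ) (hV : Trans e V) (hH : CovOp V H) (hA : YCov c ν τ e A K)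
    {m : ℝ} (hm : ∀ D, ye_Erg_InC H A D → m ≤ ye_Erg_MS c ν e D) (D : ℕ → (Λ → ℝ) × Y → (E →L[ℂ] E))
    (hD : ∀ n, ye_Erg_InC H A (D n)) (hDm : ∀ n, ye_Erg_MS c ν e (D n) ≤ m + (1 / 16) ^ n)
    (hB : ∀ᵐ ω ∂(PY Λ c ν), ∀ u, Tendsto (fun n => D n ω u) atTop (𝓝 (B ω u))) (n : ℕ) (x : Λ) :
    ∫⁻ ω, ‖(D n ω - B ω) (e x)‖ₑ ^ 2 ∂(PY Λ c ν) ≤ ENNReal.ofReal (4 * (1 / 16) ^ n) := by
  have hcov : ∀ n, YCov c ν τ e (D n) K := fun n => (hD n).ycov M hV hH hA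
  have h1 : ∫⁻ ω, ‖(D n ω - B ω) (e x)‖ₑ ^ 2 ∂(PY Λ c ν) =
      ∫⁻ ω, liminf (fun k => ‖(D n ω - D k ω) (e x)‖ₑ ^ 2) atTop ∂(PY Λ c ν) := by
    refine lintegral_congr_ae ?_
    filter_upwards [hB] with ω hω
    have h2 : Tendsto (fun k => ‖(D n ω - D k ω) (e x)‖ₑ ^ 2) atTop
        (𝓝 (‖(D n ω - B ω) (e x)‖ₑ ^ 2)) :=
      ENNReal.Tendsto.pow ((hω (e x)).const_sub _).enorm
    exact h2.liminf_eq.symm
  rw [h1]
  refine (lintegral_liminf_le fun k => ((hcov n).sub (hcov k)).measurable_sq M x).trans ?_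
  refine liminf_le_of_frequently_le' ?_
  refine Eventually.frequently ?_
  filter_upwards [eventually_ge_atTop n] with k hk
  refine (ye_Erg_diff_bound M hE hV hH hA (hD n) (hD k) hm x).trans
    (ENNReal.ofReal_le_ofReal ?_)
  have h2 := hDm k
  have h3 := hDm n
  have h4 : (1 / 16 : ℝ) ^ k ≤ (1 / 16) ^ n :=
    pow_le_pow_of_le_one (by norm_num) (by norm_num) hk
  linarith

/-! ### Time averages -/

theorem ye_Erg_TA_diff (M : Model c e H) (hE : Env ν τ) (hA : YCov c ν τ e A K) (hD : ye_Erg_InC H A D) :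
    ∃ C : ℝ, 0 ≤ C ∧ ∀ (T : ℝ) (ω : (Λ → ℝ) × Y), 0 < T →
      ‖TA H ω.1 (A ω) T - TA H ω.1 (D ω) T‖ ≤ T⁻¹ * C := by
  induction hD with
  | base t =>
    refine ⟨2 * K * |t|, mul_nonneg (mul_nonneg zero_le_two (hA.nonneg hE)) (abs_nonneg _),
      fun T ω hT => ?_⟩
    refine (TA_shift M ω.1 (A ω) t hT).trans ?_
    have := hA.bdd ω
    gcongr
  | @half D D' hD hD' h1 h2 =>
    obtain ⟨C1, hC1, h1⟩ := h1
    obtain ⟨C2, hC2, h2⟩ := h2
    refine ⟨C1 + C2, by positivity, fun T ω hT => ?_⟩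
    rw [TA_smul, TA_add]
    set x := TA H ω.1 (A ω) T
    set y := TA H ω.1 (D ω) T with hy
    set w := TA H ω.1 (D' ω) T with hw
    have h4 : x - (1 / 2 : ℂ) • (y + w) = (1 / 2 : ℂ) • ((x - y) + (x - w)) := by
      have h5 : x = (1 / 2 : ℂ) • (x + x) := by
        rw [← two_smul ℂ x, smul_smul]
        norm_num
      conv_lhs => rw [h5]
      rw [← smul_sub]
      congr 1
      abel
    rw [h4, norm_smul]
    have h6 := norm_add_le (x - y) (x - w)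
    have h7 := h1 T ω hT
    have h8 := h2 T ω hT
    have h9 : ‖(1 / 2 : ℂ)‖ = 1 / 2 := by norm_num
    rw [h9]
    have h10 := norm_nonneg ((x - y) + (x - w))
    have h11 : T⁻¹ * (C1 + C2) = T⁻¹ * C1 + T⁻¹ * C2 := by ring
    linarith

theorem ye_Erg_meas_Ut1 (hH : CovOp V H) (w x : Λ) :
    Measurable fun r : (Λ → ℝ) × ℝ => ⟪e w, Ut H r.1 r.2 (e x)⟫_ℂ := by
  have h : Continuous fun r : (Λ → ℝ) × ℝ => ⟪e w, Ut H r.1 r.2 (e x)⟫_ℂ :=
    continuous_const.inner (continuous_Ut_apply hH continuous_fst continuous_snd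
      continuous_const)
  exact h.measurable

theorem ye_Erg_meas_pr : Measurable fun p : ((Λ → ℝ) × Y) × ℝ => (p.1.1, p.2) :=
  (measurable_fst.comp measurable_fst).prodMk measurable_snd

theorem ye_Erg_meas_Ut (hH : CovOp V H) (w x : Λ) :
    Measurable fun p : ((Λ → ℝ) × Y) × ℝ => ⟪e w, Ut H p.1.1 p.2 (e x)⟫_ℂ := by
  have h := (ye_Erg_meas_Ut1 (e := e) hH w x).comp (ye_Erg_meas_pr (Λ := Λ) (Y := Y))
  exact h

private theorem YCov.avg (M : Model c e H) (hE : Env ν τ) (hV : Trans e V) (hH : CovOp V H) (hD : YCov c ν τ e D K)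
    (x : Λ) {T : ℝ} (hT : 0 < T) :
    ∫⁻ ω, ‖TA H ω.1 (D ω) T (e x)‖ₑ ^ 2 ∂(PY Λ c ν) ≤ ∫⁻ ω, ‖D ω (e 0)‖ₑ ^ 2 ∂(PY Λ c ν) := by
  have := PY_prob Λ M.hc hE.prob
  have hm : Measurable fun p : ((Λ → ℝ) × Y) × ℝ =>
      ‖(Ut H p.1.1 (-p.2) * D p.1 * Ut H p.1.1 p.2) (e x)‖ₑ ^ 2 := by
    have h1 : ∀ p : ((Λ → ℝ) × Y) × ℝ, ‖(Ut H p.1.1 (-p.2) * D p.1 * Ut H p.1.1 p.2) (e x)‖ₑ ^ 2
        = ∑' k, ‖⟪e k, D p.1 (Ut H p.1.1 p.2 (e x))⟫_ℂ‖ₑ ^ 2 := by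
      intro p
      rw [← M.parseval_enorm]
      congr 1
      rw [← ofReal_norm, ← ofReal_norm]
      congr 1
      exact norm_Ut_apply (M.sa p.1.1) (-p.2) _
    simp_rw [h1]
    refine Measurable.tsum fun k => (Measurable.enorm ?_).pow_const 2
    refine measurable_of_tendsto_metrizable' (atTop : Filter (Finset Λ))
      (f := fun s p => ∑ w ∈ s, ⟪e k, D p.1 (e w)⟫_ℂ * ⟪e w, Ut H p.1.1 p.2 (e x)⟫_ℂ) ?_ ?_
    · intro s
      refine Finset.measurable_fun_sum _ fun w _ => ?_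
      have h2 : Measurable fun p : ((Λ → ℝ) × Y) × ℝ => ⟪e k, D p.1 (e w)⟫_ℂ :=
        (hD.meas k w).comp measurable_fst
      exact h2.mul (ye_Erg_meas_Ut hH w x)
    · rw [tendsto_pi_nhds]
      intro p
      exact M.hasSum_inner (D p.1) (e k) (Ut H p.1.1 p.2 (e x))
  have hTi : ENNReal.ofReal T⁻¹ * ENNReal.ofReal T = 1 := by
    rw [← ENNReal.ofReal_mul (inv_nonneg.mpr hT.le), inv_mul_cancel₀ hT.ne', ENNReal.ofReal_one]
  calc ∫⁻ ω, ‖TA H ω.1 (D ω) T (e x)‖ₑ ^ 2 ∂(PY Λ c ν)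
      ≤ ∫⁻ ω, (ENNReal.ofReal T⁻¹ * ∫⁻ s in Ioc (0 : ℝ) T,
          ‖(Ut H ω.1 (-s) * D ω * Ut H ω.1 s) (e x)‖ₑ ^ 2) ∂(PY Λ c ν) := by
        refine lintegral_mono fun ω => ?_
        have hcω := qe_cont H ω.1 (D ω)
        have hcx : Continuous fun s : ℝ => (Ut H ω.1 (-s) * D ω * Ut H ω.1 s) (e x) :=
          (ContinuousLinearMap.apply ℂ E (e x)).continuous.comp hcω
        have h1 : TA H ω.1 (D ω) T (e x)
            = (T⁻¹ : ℝ) • ∫ s in (0 : ℝ)..T, (Ut H ω.1 (-s) * D ω * Ut H ω.1 s) (e x) := by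
          unfold TA
          rw [smul_apply]
          congr 1
          exact ((ContinuousLinearMap.apply ℂ E (e x)).intervalIntegral_comp_comm
            (hcω.intervalIntegrable 0 T)).symm
        rw [h1, enorm_smul, mul_pow, intervalIntegral.integral_of_le hT.le]
        have h2 : ‖(T⁻¹ : ℝ)‖ₑ = ENNReal.ofReal T⁻¹ := by
          rw [← ofReal_norm, Real.norm_of_nonneg (inv_nonneg.mpr hT.le)]
        rw [h2]
        have h3 : ‖∫ s in Ioc (0 : ℝ) T, (Ut H ω.1 (-s) * D ω * Ut H ω.1 s) (e x)‖ₑ ^ 2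
            ≤ ENNReal.ofReal T * ∫⁻ s in Ioc (0 : ℝ) T,
              ‖(Ut H ω.1 (-s) * D ω * Ut H ω.1 s) (e x)‖ₑ ^ 2 := by
          have h4 : ‖∫ s in Ioc (0 : ℝ) T, (Ut H ω.1 (-s) * D ω * Ut H ω.1 s) (e x)‖ₑ ^ 2
              ≤ (∫⁻ s in Ioc (0 : ℝ) T, ‖(Ut H ω.1 (-s) * D ω * Ut H ω.1 s) (e x)‖ₑ) ^ 2 := by
            gcongr
            exact enorm_integral_le_lintegral_enorm _
          have h5 : (∫⁻ s in Ioc (0 : ℝ) T, ‖(Ut H ω.1 (-s) * D ω * Ut H ω.1 s) (e x)‖ₑ) ^ 2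
              ≤ (volume.restrict (Ioc (0 : ℝ) T)) univ * ∫⁻ s in Ioc (0 : ℝ) T,
                ‖(Ut H ω.1 (-s) * D ω * Ut H ω.1 s) (e x)‖ₑ ^ 2 :=
            me_cs _ (hcx.enorm.measurable.aemeasurable)
          rw [Measure.restrict_apply_univ, Real.volume_Ioc, sub_zero] at h5
          exact h4.trans h5
        calc ENNReal.ofReal T⁻¹ ^ 2
              * ‖∫ s in Ioc (0 : ℝ) T, (Ut H ω.1 (-s) * D ω * Ut H ω.1 s) (e x)‖ₑ ^ 2
            ≤ ENNReal.ofReal T⁻¹ ^ 2 * (ENNReal.ofReal T * ∫⁻ s in Ioc (0 : ℝ) T,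
              ‖(Ut H ω.1 (-s) * D ω * Ut H ω.1 s) (e x)‖ₑ ^ 2) := by gcongr
          _ = (ENNReal.ofReal T⁻¹ * ENNReal.ofReal T) * (ENNReal.ofReal T⁻¹
              * ∫⁻ s in Ioc (0 : ℝ) T, ‖(Ut H ω.1 (-s) * D ω * Ut H ω.1 s) (e x)‖ₑ ^ 2) := by
              ring
          _ = _ := by rw [hTi, one_mul]
    _ = ENNReal.ofReal T⁻¹ * ∫⁻ s in Ioc (0 : ℝ) T, ∫⁻ ω,
          ‖(Ut H ω.1 (-s) * D ω * Ut H ω.1 s) (e x)‖ₑ ^ 2 ∂(PY Λ c ν) := by
        rw [lintegral_const_mul' _ _ ENNReal.ofReal_ne_top]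
        congr 1
        exact lintegral_lintegral_swap hm.aemeasurable
    _ = ENNReal.ofReal T⁻¹ * ∫⁻ _s in Ioc (0 : ℝ) T, ∫⁻ ω, ‖D ω (e 0)‖ₑ ^ 2 ∂(PY Λ c ν) := by
        congr 1
        refine lintegral_congr fun s => ?_
        have h1 := (hD.conj M hV hH s).shift_lintegral M hE x
        rw [h1, hD.conj_lintegral M hE hV hH s]
    _ = ∫⁻ ω, ‖D ω (e 0)‖ₑ ^ 2 ∂(PY Λ c ν) := by
        rw [lintegral_const, Measure.restrict_apply_univ, Real.volume_Ioc, sub_zero,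
          mul_comm (∫⁻ ω, ‖D ω (e 0)‖ₑ ^ 2 ∂(PY Λ c ν)), ← mul_assoc, hTi, one_mul]


private theorem YCov.summable_prod (M : Model c e H) (hE : Env ν τ) (hX : YCov c ν τ e X K) (hW : YCov c ν τ e W L) :
    Summable fun w => ∫ ω, ‖⟪e 0, X ω (e w)⟫_ℂ * ⟪e w, W ω (e 0)⟫_ℂ‖ ∂(PY Λ c ν) := by
  have := PY_prob Λ M.hc hE.prob
  have hsq : ∀ {Z : (Λ → ℝ) × Y → (E →L[ℂ] E)} {N : ℝ}, YCov c ν τ e Z N → ∀ x y,
      Integrable (fun ω => ‖⟪e x, Z ω (e y)⟫_ℂ‖ ^ 2) (PY Λ c ν) := by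
    intro Z N hZ x y
    refine Integrable.of_bound (C := N ^ 2) (((hZ.meas x y).norm).pow_const 2).aestronglyMeasurable
      (ae_of_all _ fun ω => ?_)
    rw [Real.norm_of_nonneg (by positivity)]
    refine pow_le_pow_left₀ (norm_nonneg _) ?_ 2
    have h1 := norm_inner_le_norm (𝕜 := ℂ) (e x) (Z ω (e y))
    rw [M.ortho.1 x, one_mul] at h1
    exact h1.trans (hZ.norm_apply_le M ω y)
  have hsum : ∀ {Z : (Λ → ℝ) × Y → (E →L[ℂ] E)} {N : ℝ}, YCov c ν τ e Z N →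
      Summable fun w => ∫ ω, ‖⟪e w, Z ω (e 0)⟫_ℂ‖ ^ 2 ∂(PY Λ c ν) := by
    intro Z N hZ
    refine summable_of_sum_le (fun w => integral_nonneg fun ω => by positivity)
      (c := N ^ 2) fun s => ?_
    rw [← integral_finsetSum _ fun w _ => hsq hZ w 0]
    calc ∫ ω, ∑ w ∈ s, ‖⟪e w, Z ω (e 0)⟫_ℂ‖ ^ 2 ∂(PY Λ c ν)
        ≤ ∫ _ω, N ^ 2 ∂(PY Λ c ν) := by
          refine integral_mono_of_nonneg (ae_of_all _ fun ω => by positivity)
            (integrable_const _) (ae_of_all _ fun ω => ?_)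
          have h1 := M.ortho.sum_inner_products_le (x := Z ω (e 0)) (s := s)
          exact h1.trans (pow_le_pow_left₀ (norm_nonneg _) (hZ.norm_apply_le M ω 0) 2)
      _ = N ^ 2 := by simp
  have hX' := hsum hX.adjoint
  have hW' := hsum hW
  refine Summable.of_nonneg_of_le (fun w => integral_nonneg fun ω => norm_nonneg _)
    (fun w => ?_) (hX'.add hW')
  rw [← integral_add (hsq hX.adjoint w 0) (hsq hW w 0)]
  refine integral_mono_of_nonneg (ae_of_all _ fun ω => norm_nonneg _)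
    ((hsq hX.adjoint w 0).add (hsq hW w 0)) (ae_of_all _ fun ω => ?_)
  simp only [norm_mul]
  have h1 : ‖⟪e w, (X ω).adjoint (e 0)⟫_ℂ‖ = ‖⟪e 0, X ω (e w)⟫_ℂ‖ := by
    rw [inner_adjoint_eq, Complex.norm_conj]
  rw [h1]
  nlinarith [sq_nonneg (‖⟪e 0, X ω (e w)⟫_ℂ‖ - ‖⟪e w, W ω (e 0)⟫_ℂ‖),
    sq_nonneg (‖⟪e 0, X ω (e w)⟫_ℂ‖), sq_nonneg (‖⟪e w, W ω (e 0)⟫_ℂ‖)]

private theorem YCov.integral_mul (M : Model c e H) (hE : Env ν τ) (hX : YCov c ν τ e X K) (hW : YCov c ν τ e W L) :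
    ∫ ω, ⟪e 0, (X ω * W ω) (e 0)⟫_ℂ ∂(PY Λ c ν)
      = ∑' w, ∫ ω, ⟪e 0, X ω (e w)⟫_ℂ * ⟪e w, W ω (e 0)⟫_ℂ ∂(PY Λ c ν) := by
  have := PY_prob Λ M.hc hE.prob
  have h1 := hasSum_integral_of_summable_integral_norm (μ := PY Λ c ν)
    (F := fun w ω => ⟪e 0, X ω (e w)⟫_ℂ * ⟪e w, W ω (e 0)⟫_ℂ) (fun w => by
      refine Integrable.of_bound (C := K * L) ((hX.meas 0 w).mul (hW.meas w 0)).aestronglyMeasurable
        (ae_of_all _ fun ω => ?_)
      rw [norm_mul]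
      have h1 := norm_inner_le_norm (𝕜 := ℂ) (e 0) (X ω (e w))
      rw [M.ortho.1 0, one_mul] at h1
      have h2 := norm_inner_le_norm (𝕜 := ℂ) (e w) (W ω (e 0))
      rw [M.ortho.1 w, one_mul] at h2
      exact mul_le_mul (h1.trans (hX.norm_apply_le M ω w)) (h2.trans (hW.norm_apply_le M ω 0))
        (norm_nonneg _) (hX.nonneg hE)) (hX.summable_prod M hE hW)
  rw [h1.tsum_eq]
  refine integral_congr_ae (ae_of_all _ fun ω => ?_)
  exact (M.hasSum_inner (X ω) (e 0) (W ω (e 0))).tsum_eq.symm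

/-- the trace per unit volume is a trace -/
private theorem YCov.trace_comm (M : Model c e H) (hE : Env ν τ) (hX : YCov c ν τ e X K) (hW : YCov c ν τ e W L) :
    ∫ ω, ⟪e 0, (X ω * W ω) (e 0)⟫_ℂ ∂(PY Λ c ν) = ∫ ω, ⟪e 0, (W ω * X ω) (e 0)⟫_ℂ ∂(PY Λ c ν) := by
  have := PY_prob Λ M.hc hE.prob
  have := unif_prob M.hc
  rw [hX.integral_mul M hE hW, hW.integral_mul M hE hX]
  rw [← (Equiv.neg Λ).tsum_eq (fun w => ∫ ω, ⟪e 0, W ω (e w)⟫_ℂ * ⟪e w, X ω (e 0)⟫_ℂ ∂(PY Λ c ν))]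
  refine tsum_congr fun w => ?_
  rw [Equiv.neg_apply]
  have hsh := mp_sh M.hc hE w
  have h6 := integral_map (μ := PY Λ c ν) (φ := fun ω : (Λ → ℝ) × Y => sh τ w ω)
    (f := fun ω => ⟪e 0, W ω (e (-w))⟫_ℂ * ⟪e (-w), X ω (e 0)⟫_ℂ) hsh.measurable.aemeasurable
    ((hW.meas 0 (-w)).mul (hX.meas (-w) 0)).aestronglyMeasurable
  have h8 : Measure.map (fun ω : (Λ → ℝ) × Y => sh τ w ω) (PY Λ c ν) = PY Λ c ν := hsh.map_eq
  rw [h8] at h6
  rw [h6]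
  refine integral_congr_ae ?_
  filter_upwards [hW.cov w 0 (-w), hX.cov w (-w) 0] with ω h1 h2
  rw [h1, h2, zero_add, neg_add_cancel, mul_comm]

/-- the trace is invariant under the dynamics -/
private theorem ye_Erg_InC.trace_eq (M : Model c e H) (hE : Env ν τ) (hV : Trans e V) (hH : CovOp V H) (hA : YCov c ν τ e A K)
    (hX : YCov c ν τ e X L) (hXH : ∀ ω, Commute (X ω) (H ω.1)) (hD : ye_Erg_InC H A D) :
    ∫ ω, ⟪e 0, X ω (D ω (e 0))⟫_ℂ ∂(PY Λ c ν) = ∫ ω, ⟪e 0, X ω (A ω (e 0))⟫_ℂ ∂(PY Λ c ν) := by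
  have := PY_prob Λ M.hc hE.prob
  have hint : ∀ {Z : (Λ → ℝ) × Y → (E →L[ℂ] E)} {N : ℝ}, YCov c ν τ e Z N →
      Integrable (fun ω => ⟪e 0, Z ω (e 0)⟫_ℂ) (PY Λ c ν) := by
    intro Z N hZ
    refine Integrable.of_bound (C := N) (hZ.meas 0 0).aestronglyMeasurable
      (ae_of_all _ fun ω => ?_)
    have h1 := norm_inner_le_norm (𝕜 := ℂ) (e 0) (Z ω (e 0))
    rw [M.ortho.1 0, one_mul] at h1
    exact h1.trans (hZ.norm_apply_le M ω 0)
  induction hD with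
  | base s =>
    have h1 := ((hX.mul M (ycov_Ut M hV hH (-s))).mul M hA).trace_comm M hE (ycov_Ut M hV hH s)
    refine Eq.trans ?_ (h1.trans ?_)
    · refine integral_congr_ae (ae_of_all _ fun ω => ?_)
      show ⟪e 0, (X ω * (Ut H ω.1 (-s) * A ω * Ut H ω.1 s)) (e 0)⟫_ℂ = _
      simp only [mul_assoc]
    · refine integral_congr_ae (ae_of_all _ fun ω => ?_)
      show _ = ⟪e 0, (X ω * A ω) (e 0)⟫_ℂ
      have h2 : Commute (X ω) (Ut H ω.1 s) := by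
        unfold Ut
        exact ((hXH ω).smul_right _).exp_right
      have h3 : Ut H ω.1 s * (X ω * Ut H ω.1 (-s) * A ω) = X ω * A ω := by
        calc Ut H ω.1 s * (X ω * Ut H ω.1 (-s) * A ω) = (Ut H ω.1 s * X ω) * Ut H ω.1 (-s) * A ω := by
              simp only [mul_assoc]
          _ = X ω * (Ut H ω.1 s * Ut H ω.1 (-s)) * A ω := by rw [← h2.eq]; simp only [mul_assoc]
          _ = X ω * A ω := by rw [← Ut_add, add_neg_cancel, Ut_zero, mul_one]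
      simp only
      rw [h3]
  | @half D D' hD hD' h1 h2 =>
    have i1 := hint (hX.mul M (hD.ycov M hV hH hA))
    have i2 := hint (hX.mul M (hD'.ycov M hV hH hA))
    have e1 : ∀ ω, ⟪e 0, X ω (((1 / 2 : ℂ) • (D ω + D' ω)) (e 0))⟫_ℂ
        = (1 / 2 : ℂ) * (⟪e 0, (X ω * D ω) (e 0)⟫_ℂ + ⟪e 0, (X ω * D' ω) (e 0)⟫_ℂ) := by
      intro ω
      rw [smul_apply, add_apply, map_smul, map_add, inner_smul_right, inner_add_right]
      rfl
    simp_rw [e1]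
    rw [integral_const_mul, integral_add i1 i2]
    have h1' : ∫ ω, ⟪e 0, (X ω * D ω) (e 0)⟫_ℂ ∂(PY Λ c ν)
        = ∫ ω, ⟪e 0, X ω (A ω (e 0))⟫_ℂ ∂(PY Λ c ν) := h1
    have h2' : ∫ ω, ⟪e 0, (X ω * D' ω) (e 0)⟫_ℂ ∂(PY Λ c ν)
        = ∫ ω, ⟪e 0, X ω (A ω (e 0))⟫_ℂ ∂(PY Λ c ν) := h2
    rw [h1', h2']
    ring

/-- **Mean ergodic theorem**: the time averages of a bounded measurable covariant family converge
in mean square to a bounded measurable covariant family which commutes with `H`. -/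
theorem ymean_erg (M : Model c e H) (hV : Trans e V) (hH : CovOp V H) (hE : Env ν τ)
    (hA : YCov c ν τ e A K) :
    ∃ B : (Λ → ℝ) × Y → (E →L[ℂ] E), YCov c ν τ e B K ∧
      (∀ᵐ p ∂(PY Λ c ν), Commute (B p) (H p.1)) ∧
      (∀ x, Tendsto (fun T : ℝ => ∫⁻ p, ‖TA H p.1 (A p) T (e x) - B p (e x)‖ₑ ^ 2 ∂(PY Λ c ν))
        atTop (𝓝 0)) ∧
      ∀ (X : (Λ → ℝ) × Y → (E →L[ℂ] E)) (L : ℝ), YCov c ν τ e X L →
        (∀ p, Commute (X p) (H p.1)) →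
        ∫ p, ⟪e 0, X p (B p (e 0))⟫_ℂ ∂(PY Λ c ν) = ∫ p, ⟪e 0, X p (A p (e 0))⟫_ℂ ∂(PY Λ c ν) := by
  classical
  have := PY_prob Λ M.hc hE.prob
  set S : Set ℝ := {r | ∃ D, ye_Erg_InC H A D ∧ r = ye_Erg_MS c ν e D} with hS
  have hSb : BddBelow S := ⟨0, by rintro r ⟨D, _, rfl⟩; exact ye_Erg_MS_nonneg⟩
  have hSn : S.Nonempty := ⟨_, _, ye_Erg_InC.base 0, rfl⟩
  set m := sInf S with hmdef
  have hm : ∀ D, ye_Erg_InC H A D → m ≤ ye_Erg_MS c ν e D := fun D hD => csInf_le hSb ⟨D, hD, rfl⟩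
  have hex : ∀ n : ℕ, ∃ D, ye_Erg_InC H A D ∧ ye_Erg_MS c ν e D ≤ m + (1 / 16) ^ n := by
    intro n
    have h1 : (0 : ℝ) < (1 / 16) ^ n := by positivity
    obtain ⟨r, ⟨D, hD, rfl⟩, hr⟩ := exists_lt_of_csInf_lt hSn
      (show sInf S < m + (1 / 16) ^ n by rw [← hmdef]; linarith)
    exact ⟨D, hD, hr.le⟩
  choose D hD hDm using hex
  obtain ⟨B, hB, hBH, hBl⟩ := ye_Erg_exists_B M hE hV hH hA hm D hD hDm
  have hF := ye_Erg_fatou M hE hV hH hA hm D hD hDm hBl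
  refine ⟨B, hB, hBH, fun x => ?_, fun X L hX hXH => ?_⟩
  swap
  · have hint : ∀ {Z : (Λ → ℝ) × Y → (E →L[ℂ] E)} {N : ℝ}, YCov c ν τ e Z N →
        Integrable (fun ω => ⟪e 0, Z ω (e 0)⟫_ℂ) (PY Λ c ν) := by
      intro Z N hZ
      refine Integrable.of_bound (C := N) (hZ.meas 0 0).aestronglyMeasurable
        (ae_of_all _ fun ω => ?_)
      have h1 := norm_inner_le_norm (𝕜 := ℂ) (e 0) (Z ω (e 0))
      rw [M.ortho.1 0, one_mul] at h1
      exact h1.trans (hZ.norm_apply_le M ω 0)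
    have h1 : Tendsto (fun n => ∫ ω, ⟪e 0, (X ω * D n ω) (e 0)⟫_ℂ ∂(PY Λ c ν)) atTop
        (𝓝 (∫ ω, ⟪e 0, (X ω * B ω) (e 0)⟫_ℂ ∂(PY Λ c ν))) := by
      refine tendsto_integral_of_dominated_convergence (fun _ => L * K)
        (fun n => ((hX.mul M ((hD n).ycov M hV hH hA)).meas 0 0).aestronglyMeasurable)
        (integrable_const _) (fun n => ae_of_all _ fun ω => ?_) ?_
      · have h1 := norm_inner_le_norm (𝕜 := ℂ) (e 0) ((X ω * D n ω) (e 0))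
        rw [M.ortho.1 0, one_mul] at h1
        exact h1.trans ((hX.mul M ((hD n).ycov M hV hH hA)).norm_apply_le M ω 0)
      · filter_upwards [hBl] with ω hω
        exact tendsto_const_nhds.inner (((X ω).continuous.tendsto _).comp (hω (e 0)))
    have h2 : ∀ n, ∫ ω, ⟪e 0, (X ω * D n ω) (e 0)⟫_ℂ ∂(PY Λ c ν)
        = ∫ ω, ⟪e 0, X ω (A ω (e 0))⟫_ℂ ∂(PY Λ c ν) := fun n =>
      (hD n).trace_eq M hE hV hH hA hX hXH
    simp_rw [h2] at h1
    exact (tendsto_nhds_unique h1 tendsto_const_nhds)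
  rw [ENNReal.tendsto_nhds_zero]
  intro ε hε
  obtain ⟨r, hr0, hrε⟩ := ENNReal.lt_iff_exists_nnreal_btwn.1 hε
  have hr : (0 : ℝ) < r := by exact_mod_cast hr0
  obtain ⟨n, hn⟩ : ∃ n : ℕ, 4 * (1 / 16 : ℝ) ^ n ≤ r / 4 := by
    obtain ⟨n, hn⟩ := exists_pow_lt_of_lt_one (show (0 : ℝ) < r / 16 by positivity)
      (show (1 / 16 : ℝ) < 1 by norm_num)
    exact ⟨n, by linarith⟩
  obtain ⟨C, hC0, hC⟩ := ye_Erg_TA_diff M hE hA (hD n)
  have hlim : Tendsto (fun T : ℝ => 2 * (T⁻¹ * C) ^ 2) atTop (𝓝 0) := by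
    have h1 := ((tendsto_inv_atTop_zero (𝕜 := ℝ)).mul_const C).pow 2
    have h2 := h1.const_mul 2
    simpa using h2
  filter_upwards [eventually_gt_atTop 0, hlim.eventually (gt_mem_nhds
    (show (0:ℝ) < r / 2 by positivity))] with T hT0 hT
  have h2 : (2 : ℝ≥0∞) = ENNReal.ofReal 2 := by simp
  have hDn := (hD n).ycov M hV hH hA
  have key : ∀ᵐ ω ∂(PY Λ c ν), ‖TA H ω.1 (A ω) T (e x) - B ω (e x)‖ₑ ^ 2
      ≤ ENNReal.ofReal (2 * (T⁻¹ * C) ^ 2) + 2 * ‖TA H ω.1 (D n ω - B ω) T (e x)‖ₑ ^ 2 := by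
    filter_upwards [hBH] with ω hω
    have h3 : TA H ω.1 (D n ω - B ω) T = TA H ω.1 (D n ω) T - B ω := by
      rw [TA_sub, TA_of_commute hω hT0]
    have h4 := me_sq_tri (TA H ω.1 (A ω) T (e x)) (TA H ω.1 (D n ω) T (e x)) (B ω (e x))
    rw [h3]
    refine h4.trans ?_
    gcongr
    · rw [h2, ← ofReal_norm, ← ENNReal.ofReal_pow (norm_nonneg _),
        ← ENNReal.ofReal_mul (by norm_num)]
      refine ENNReal.ofReal_le_ofReal ?_
      have h5 : ‖TA H ω.1 (A ω) T (e x) - TA H ω.1 (D n ω) T (e x)‖ ≤ T⁻¹ * C := by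
        have h6 := (TA H ω.1 (A ω) T - TA H ω.1 (D n ω) T).le_opNorm (e x)
        rw [M.ortho.1 x, mul_one] at h6
        exact h6.trans (hC T ω hT0)
      have h7 := pow_le_pow_left₀ (norm_nonneg _) h5 2
      linarith
    · rfl
  calc ∫⁻ ω, ‖TA H ω.1 (A ω) T (e x) - B ω (e x)‖ₑ ^ 2 ∂(PY Λ c ν)
      ≤ ∫⁻ ω, (ENNReal.ofReal (2 * (T⁻¹ * C) ^ 2)
          + 2 * ‖TA H ω.1 (D n ω - B ω) T (e x)‖ₑ ^ 2) ∂(PY Λ c ν) := lintegral_mono_ae key
    _ = ENNReal.ofReal (2 * (T⁻¹ * C) ^ 2)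
        + 2 * ∫⁻ ω, ‖TA H ω.1 (D n ω - B ω) T (e x)‖ₑ ^ 2 ∂(PY Λ c ν) := by
        rw [lintegral_add_left measurable_const, lintegral_const, measure_univ, mul_one,
          lintegral_const_mul' _ _ (by simp)]
    _ ≤ ENNReal.ofReal (r / 2) + 2 * ENNReal.ofReal (4 * (1 / 16) ^ n) := by
        gcongr
        exact ((hDn.sub hB).avg M hE hV hH x hT0).trans (hF n 0)
    _ ≤ ENNReal.ofReal (r / 2) + 2 * ENNReal.ofReal (r / 4) := by
        gcongr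
    _ = ENNReal.ofReal r := by
        rw [h2, ← ENNReal.ofReal_mul (by norm_num), ← ENNReal.ofReal_add (by positivity)
          (by positivity)]
        congr 1
        ring
    _ ≤ ε := by
        rw [ENNReal.ofReal_coe_nnreal]
        exact hrε.le


/-! ### Public names -/

theorem YCov.ye_Erg_mono (hA : YCov c ν τ e A K) (h : K ≤ L) : YCov c ν τ e A L := hA.mono h

theorem YCov.ye_Erg_add (hA : YCov c ν τ e A K) (hB : YCov c ν τ e B L) :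
    YCov c ν τ e (fun ω => A ω + B ω) (K + L) := hA.add hB

theorem YCov.ye_Erg_sub (hA : YCov c ν τ e A K) (hB : YCov c ν τ e B L) :
    YCov c ν τ e (fun ω => A ω - B ω) (K + L) := hA.sub hB

theorem YCov.ye_Erg_smul (z : ℂ) (hA : YCov c ν τ e A K) :
    YCov c ν τ e (fun ω => z • A ω) (‖z‖ * K) := hA.smul z

theorem YCov.ye_Erg_adjoint (hA : YCov c ν τ e A K) :
    YCov c ν τ e (fun ω => (A ω).adjoint) K := hA.adjoint

theorem YCov.ye_Erg_mul (M : Model c e H) (hA : YCov c ν τ e A K) (hB : YCov c ν τ e B L) :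
    YCov c ν τ e (fun ω => A ω * B ω) (K * L) := hA.mul M hB

theorem ye_Erg_Ut (M : Model c e H) (hV : Trans e V) (hH : CovOp V H) (t : ℝ) :
    YCov c ν τ e (fun p : (Λ → ℝ) × Y => Ut H p.1 t) 1 := ycov_Ut M hV hH t

theorem YCov.ye_Erg_trace_comm (M : Model c e H) (hE : Env ν τ) (hX : YCov c ν τ e X K)
    (hW : YCov c ν τ e W L) : ∫ ω, ⟪e 0, (X ω * W ω) (e 0)⟫_ℂ ∂(PY Λ c ν)
      = ∫ ω, ⟪e 0, (W ω * X ω) (e 0)⟫_ℂ ∂(PY Λ c ν) := hX.trace_comm M hE hW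

end Pool.Agent.Lib.MP_562b47_mp
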