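import Mathlib
import Pool.Agent.Lib.MP_562b47_mp.Ye.Alpha
import Pool.Agent.Lib.MP_562b47_mp.Ye.Erg

/-!
Families whose average over the environment is a multiple of the identity.
(Anderson model, MP_562b47_mp.)
-/

open MeasureTheory Set Filter Topology Complex
open scoped Real ENNReal NNReal InnerProductSpace

set_option linter.unusedSectionVars false

namespace Pool.Agent.Lib.MP_562b47_mp

variable {Λ : Type*} [DecidableEq Λ] [AddCommGroup Λ] [Countable Λ] {Y : Type*}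
  [MeasurableSpace Y] {E : Type*}
  [NormedAddCommGroup E] [InnerProductSpace ℂ E] [CompleteSpace E] {c : ℝ} {e : Λ → E}
  {H : (Λ → ℝ) → (E →L[ℂ] E)} {ν : Measure Y} {τ : Λ → Y → Y}
  {A B : (Λ → ℝ) × Y → (E →L[ℂ] E)} {K L : ℝ} {φ : ℕ → ℕ} {V : Λ → (E ≃ₗᵢ[ℂ] E)}

/-- the average over the environment is `lam` times the identity, for almost every potential -/
def YAvg (c : ℝ) (ν : Measure Y) (e : Λ → E) (A : (Λ → ℝ) × Y → (E →L[ℂ] E)) (lam : ℂ) : Prop :=
  ∀ᵐ ω ∂(PP Λ c), ∀ x z, ∫ y, ⟪e x, A (ω, y) (e z)⟫_ℂ ∂ν = lam * ⟪e x, e z⟫_ℂ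

section fib

variable {C : Y → (E →L[ℂ] E)}

/-- partial sums of the expansion of a vector -/
theorem Model.tendsto_ps (M : Model c e H) (u : E) :
    Tendsto (fun s : Finset Λ => ∑ w ∈ s, ⟪e w, u⟫_ℂ • e w) atTop (𝓝 u) := M.hasSum_repr u

theorem Model.yv_meas (M : Model c e H) (hm : ∀ x z, Measurable fun y => ⟪e x, C y (e z)⟫_ℂ)
    (u v : E) : Measurable fun y => ⟪u, C y v⟫_ℂ := by
  refine measurable_of_tendsto_metrizable' (atTop : Filter (Finset Λ))
    (f := fun s y => ⟪∑ w ∈ s, ⟪e w, u⟫_ℂ • e w, C y (∑ w ∈ s, ⟪e w, v⟫_ℂ • e w)⟫_ℂ) ?_ ?_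
  · intro s
    simp_rw [map_sum, map_smul, sum_inner, inner_sum, inner_smul_left, inner_smul_right]
    refine Finset.measurable_fun_sum _ fun x _ => Finset.measurable_fun_sum _ fun z _ => ?_
    exact ((hm x z).const_mul _).const_mul _
  · rw [tendsto_pi_nhds]
    intro y
    exact (M.tendsto_ps u).inner (((C y).continuous.tendsto _).comp (M.tendsto_ps v))

theorem Model.yv_avg (M : Model c e H) [IsProbabilityMeasure ν] (hK : ∀ y, ‖C y‖ ≤ K)
    (hm : ∀ x z, Measurable fun y => ⟪e x, C y (e z)⟫_ℂ) {lam : ℂ}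
    (h : ∀ x z, ∫ y, ⟪e x, C y (e z)⟫_ℂ ∂ν = lam * ⟪e x, e z⟫_ℂ) (u v : E) :
    ∫ y, ⟪u, C y v⟫_ℂ ∂ν = lam * ⟪u, v⟫_ℂ := by
  have hu := M.tendsto_ps u
  have hv := M.tendsto_ps v
  have hb : ∀ x z, Integrable (fun y => ⟪e x, C y (e z)⟫_ℂ) ν := fun x z =>
    Integrable.of_bound (C := K) (hm x z).aestronglyMeasurable (ae_of_all _ fun y => by
      have h1 := norm_inner_le_norm (𝕜 := ℂ) (e x) (C y (e z))
      rw [M.ortho.1 x, one_mul] at h1
      have h2 := (C y).le_opNorm (e z)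
      rw [M.ortho.1 z, mul_one] at h2
      exact h1.trans (h2.trans (hK y)))
  have h1 : Tendsto (fun s : Finset Λ => ∫ y, ⟪∑ w ∈ s, ⟪e w, u⟫_ℂ • e w,
      C y (∑ w ∈ s, ⟪e w, v⟫_ℂ • e w)⟫_ℂ ∂ν) atTop (𝓝 (∫ y, ⟪u, C y v⟫_ℂ ∂ν)) := by
    refine tendsto_integral_filter_of_dominated_convergence
      (fun _ => (‖u‖ + 1) * (K * (‖v‖ + 1))) ?_ ?_ (integrable_const _) ?_
    · exact Eventually.of_forall fun s => (M.yv_meas hm _ _).aestronglyMeasurable
    · filter_upwards [hu.norm.eventually (gt_mem_nhds (lt_add_one ‖u‖)),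
        hv.norm.eventually (gt_mem_nhds (lt_add_one ‖v‖))] with s hs1 hs2
      refine ae_of_all _ fun y => ?_
      refine (norm_inner_le_norm (𝕜 := ℂ) _ _).trans ?_
      have hK0 : 0 ≤ K := (norm_nonneg _).trans (hK y)
      refine mul_le_mul hs1.le ?_ (norm_nonneg _) (by positivity)
      refine ((C y).le_opNorm _).trans ?_
      exact mul_le_mul (hK y) hs2.le (norm_nonneg _) hK0
    · exact ae_of_all _ fun y => hu.inner (((C y).continuous.tendsto _).comp hv)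
  have h2 : ∀ s : Finset Λ, ∫ y, ⟪∑ w ∈ s, ⟪e w, u⟫_ℂ • e w,
      C y (∑ w ∈ s, ⟪e w, v⟫_ℂ • e w)⟫_ℂ ∂ν
      = lam * ⟪∑ w ∈ s, ⟪e w, u⟫_ℂ • e w, ∑ w ∈ s, ⟪e w, v⟫_ℂ • e w⟫_ℂ := by
    intro s
    simp_rw [map_sum, map_smul, sum_inner, inner_sum, inner_smul_left, inner_smul_right]
    rw [integral_finsetSum _ fun x _ => integrable_finsetSum _ fun z _ =>
      ((hb x z).const_mul _).const_mul _, Finset.mul_sum]
    refine Finset.sum_congr rfl fun x _ => ?_
    rw [integral_finsetSum _ fun z _ => ((hb x z).const_mul _).const_mul _, Finset.mul_sum]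
    refine Finset.sum_congr rfl fun z _ => ?_
    rw [integral_const_mul, integral_const_mul, h]
    ring
  simp_rw [h2] at h1
  exact tendsto_nhds_unique h1 ((hu.inner hv).const_mul lam)

theorem TA_inner (M : Model c e H) (ω : Λ → ℝ) (X : E →L[ℂ] E) (T : ℝ) (u v : E) :
    ⟪u, TA H ω X T v⟫_ℂ
      = (T⁻¹ : ℝ) • ∫ s in (0 : ℝ)..T, ⟪Ut H ω s u, X (Ut H ω s v)⟫_ℂ := by
  have hc := qe_cont H ω X
  have h1 : TA H ω X T v
      = (T⁻¹ : ℝ) • ∫ s in (0 : ℝ)..T, (Ut H ω (-s) * X * Ut H ω s) v := by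
    unfold TA
    rw [smul_apply]
    congr 1
    exact ((ContinuousLinearMap.apply ℂ E v).intervalIntegral_comp_comm
      (hc.intervalIntegrable 0 T)).symm
  have hcx : Continuous fun s : ℝ => (Ut H ω (-s) * X * Ut H ω s) v :=
    (ContinuousLinearMap.apply ℂ E v).continuous.comp hc
  have h2 : ⟪u, (T⁻¹ : ℝ) • ∫ s in (0 : ℝ)..T, (Ut H ω (-s) * X * Ut H ω s) v⟫_ℂ
      = (T⁻¹ : ℝ) • ⟪u, ∫ s in (0 : ℝ)..T, (Ut H ω (-s) * X * Ut H ω s) v⟫_ℂ := by
    rw [← Complex.coe_smul, inner_smul_right, Complex.real_smul]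
  have h3 : ⟪u, ∫ s in (0 : ℝ)..T, (Ut H ω (-s) * X * Ut H ω s) v⟫_ℂ
      = ∫ s in (0 : ℝ)..T, ⟪u, (Ut H ω (-s) * X * Ut H ω s) v⟫_ℂ := by
    have := (innerSL ℂ u).intervalIntegral_comp_comm (μ := volume) (a := 0) (b := T)
      (hcx.intervalIntegrable 0 T)
    simp only [innerSL_apply_apply] at this
    exact this.symm
  rw [h1, h2, h3]
  congr 1
  refine intervalIntegral.integral_congr fun s _ => ?_
  show ⟪u, Ut H ω (-s) (X (Ut H ω s v))⟫_ℂ = ⟪Ut H ω s u, X (Ut H ω s v)⟫_ℂ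
  rw [← Ut_adjoint (M.sa ω), ContinuousLinearMap.adjoint_inner_right]

theorem norm_inner_TA_le (M : Model c e H) (ω : Λ → ℝ) (X : E →L[ℂ] E) {T : ℝ} (hT : 0 < T)
    (u v : E) : ‖⟪u, TA H ω X T v⟫_ℂ‖ ≤ ‖u‖ * (‖X‖ * ‖v‖) := by
  rw [TA_inner M, norm_smul, Real.norm_of_nonneg (inv_nonneg.mpr hT.le)]
  have h1 : ‖∫ s in (0 : ℝ)..T, ⟪Ut H ω s u, X (Ut H ω s v)⟫_ℂ‖
      ≤ (‖u‖ * (‖X‖ * ‖v‖)) * |T - 0| := by
    refine intervalIntegral.norm_integral_le_of_norm_le_const fun s _ => ?_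
    refine (norm_inner_le_norm (𝕜 := ℂ) _ _).trans ?_
    rw [norm_Ut_apply (M.sa ω)]
    refine mul_le_mul_of_nonneg_left ?_ (norm_nonneg _)
    refine (X.le_opNorm _).trans ?_
    rw [norm_Ut_apply (M.sa ω)]
  rw [sub_zero, abs_of_pos hT] at h1
  calc T⁻¹ * ‖∫ s in (0 : ℝ)..T, ⟪Ut H ω s u, X (Ut H ω s v)⟫_ℂ‖
      ≤ T⁻¹ * ((‖u‖ * (‖X‖ * ‖v‖)) * T) :=
        mul_le_mul_of_nonneg_left h1 (inv_nonneg.mpr hT.le)
    _ = ‖u‖ * (‖X‖ * ‖v‖) := by field_simp

theorem Model.yta_avg (M : Model c e H) [IsProbabilityMeasure ν] (hK : ∀ y, ‖C y‖ ≤ K)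
    (hm : ∀ x z, Measurable fun y => ⟪e x, C y (e z)⟫_ℂ) {lam : ℂ}
    (h : ∀ x z, ∫ y, ⟪e x, C y (e z)⟫_ℂ ∂ν = lam * ⟪e x, e z⟫_ℂ) (ω : Λ → ℝ) {T : ℝ}
    (hT : 0 < T) (u v : E) :
    ∫ y, ⟪u, TA H ω (C y) T v⟫_ℂ ∂ν = lam * ⟪u, v⟫_ℂ := by
  have hcu : Continuous fun s : ℝ => Ut H ω s u :=
    (ContinuousLinearMap.apply ℂ E u).continuous.comp (qe_continuous_Ut H ω)
  have hcv : Continuous fun s : ℝ => Ut H ω s v :=
    (ContinuousLinearMap.apply ℂ E v).continuous.comp (qe_continuous_Ut H ω)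
  have hjm : Measurable (Function.uncurry fun (s : ℝ) (y : Y) =>
      ⟪Ut H ω s u, C y (Ut H ω s v)⟫_ℂ) := by
    refine measurable_uncurry_of_continuous_of_measurable (fun y => ?_) fun s => ?_
    · exact hcu.inner ((C y).continuous.comp hcv)
    · exact M.yv_meas hm _ _
  simp_rw [TA_inner M]
  rw [integral_smul, ← intervalIntegral_integral_swap]
  · have h1 : ∀ s : ℝ, ∫ y, ⟪Ut H ω s u, C y (Ut H ω s v)⟫_ℂ ∂ν = lam * ⟪u, v⟫_ℂ := by
      intro s
      rw [M.yv_avg hK hm h]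
      congr 1
      rw [← ContinuousLinearMap.adjoint_inner_right, Ut_adjoint (M.sa ω)]
      congr 1
      have h2 := Ut_add H ω (-s) s
      rw [neg_add_cancel, Ut_zero] at h2
      exact (congrArg (fun T : E →L[ℂ] E => T v) h2).symm
    simp_rw [h1]
    rw [intervalIntegral.integral_const, sub_zero, smul_smul, inv_mul_cancel₀ hT.ne', one_smul]
  · have hfin : IsFiniteMeasure (volume.restrict (Set.uIoc (0 : ℝ) T)) := by
      rw [Set.uIoc_of_le hT.le]; infer_instance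
    refine Integrable.of_bound (C := ‖u‖ * (K * ‖v‖)) hjm.aestronglyMeasurable
      (ae_of_all _ fun p => ?_)
    have hK0 : 0 ≤ K := (norm_nonneg _).trans (hK p.2)
    show ‖⟪Ut H ω p.1 u, C p.2 (Ut H ω p.1 v)⟫_ℂ‖ ≤ _
    refine (norm_inner_le_norm (𝕜 := ℂ) _ _).trans ?_
    rw [norm_Ut_apply (M.sa ω)]
    refine mul_le_mul_of_nonneg_left ?_ (norm_nonneg _)
    refine ((C p.2).le_opNorm _).trans ?_
    rw [norm_Ut_apply (M.sa ω)]
    exact mul_le_mul_of_nonneg_right (hK _) (norm_nonneg _)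

end fib

/-- matrix elements of time averages are measurable -/
theorem Model.ymeas_TA (M : Model c e H) (hV : Trans e V) (hH : CovOp V H)
    (hA : YCov c ν τ e A K) {T : ℝ} (hT : 0 < T) (x z : Λ) :
    Measurable fun p : (Λ → ℝ) × Y => ⟪e x, TA H p.1 (A p) T (e z)⟫_ℂ := by
  have hjm : Measurable (Function.uncurry fun (s : ℝ) (p : (Λ → ℝ) × Y) =>
      ⟪Ut H p.1 s (e x), A p (Ut H p.1 s (e z))⟫_ℂ) := by
    refine measurable_uncurry_of_continuous_of_measurable (fun p => ?_) fun s => ?_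
    · have hcu : ∀ w, Continuous fun s : ℝ => Ut H p.1 s (e w) := fun w =>
        (ContinuousLinearMap.apply ℂ E (e w)).continuous.comp (qe_continuous_Ut H p.1)
      exact (hcu x).inner ((A p).continuous.comp (hcu z))
    · have h1 := (((ye_Erg_Ut (c := c) (ν := ν) (τ := τ) M hV hH s).ye_Erg_adjoint).ye_Erg_mul M
        (hA.ye_Erg_mul M (ye_Erg_Ut (c := c) (ν := ν) (τ := τ) M hV hH s))).meas x z
      have h2 : (fun p : (Λ → ℝ) × Y => ⟪Ut H p.1 s (e x), A p (Ut H p.1 s (e z))⟫_ℂ)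
          = fun p => ⟪e x, ((Ut H p.1 s).adjoint * (A p * Ut H p.1 s)) (e z)⟫_ℂ := by
        funext p
        show _ = ⟪e x, (Ut H p.1 s).adjoint (A p (Ut H p.1 s (e z)))⟫_ℂ
        rw [ContinuousLinearMap.adjoint_inner_right]
      rw [h2]
      exact h1
  simp_rw [TA_inner M]
  refine Measurable.fun_const_smul ?_ _
  simp_rw [intervalIntegral.integral_of_le hT.le]
  have h2 : StronglyMeasurable (fun w : ((Λ → ℝ) × Y) × ℝ =>
      ⟪Ut H w.1.1 w.2 (e x), A w.1 (Ut H w.1.1 w.2 (e z))⟫_ℂ) :=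
    (hjm.comp measurable_swap).stronglyMeasurable
  exact (h2.integral_prod_right (ν := volume.restrict (Ioc (0:ℝ) T))).measurable

/-- **the average over the environment is preserved by the limit of the time averages** -/
theorem Model.yavg_lim (M : Model c e H) (hV : Trans e V) (hH : CovOp V H) (hE : Env ν τ)
    (hA : YCov c ν τ e A K) (hB : YCov c ν τ e B L) {lam : ℂ} (h : YAvg c ν e A lam)
    (hlim : ∀ x, Tendsto (fun T : ℝ => ∫⁻ p, ‖TA H p.1 (A p) T (e x) - B p (e x)‖ₑ ^ 2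
      ∂(PY Λ c ν)) atTop (𝓝 0)) : YAvg c ν e B lam := by
  have := hE.prob
  have := PP_prob Λ M.hc
  have := PY_prob (Y := Y) Λ M.hc hE.prob
  have hbd : ∀ x z p, ‖⟪e x, B p (e z)⟫_ℂ‖ ≤ L := by
    intro x z p
    have h1 := norm_inner_le_norm (𝕜 := ℂ) (e x) (B p (e z))
    rw [M.ortho.1 x, one_mul] at h1
    have h2 := (B p).le_opNorm (e z)
    rw [M.ortho.1 z, mul_one] at h2
    exact h1.trans (h2.trans (hB.bdd p))
  unfold YAvg
  rw [ae_all_iff]; intro x
  rw [ae_all_iff]; intro z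
  set g : (Λ → ℝ) → ℂ := fun ω => ∫ y, ⟪e x, B (ω, y) (e z)⟫_ℂ ∂ν - lam * ⟪e x, e z⟫_ℂ with hg
  have hgm : Measurable g := by
    have h1 : StronglyMeasurable (fun p : (Λ → ℝ) × Y => ⟪e x, B p (e z)⟫_ℂ) :=
      (hB.meas x z).stronglyMeasurable
    exact (h1.integral_prod_right).measurable.sub_const _
  have key : ∫⁻ ω, ‖g ω‖ₑ ∂(PP Λ c) = 0 := by
    refine le_antisymm (ge_of_tendsto (x := (atTop : Filter ℝ)) (f := fun T : ℝ =>
      (∫⁻ p, ‖TA H p.1 (A p) T (e z) - B p (e z)‖ₑ ^ 2 ∂(PY Λ c ν)) ^ (1 / 2 : ℝ)) ?_ ?_) bot_le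
    · have h1 := (hlim z).ennrpow_const (1 / 2 : ℝ)
      simpa using h1
    · filter_upwards [eventually_gt_atTop 0] with T hT
      set f : (Λ → ℝ) × Y → ℂ := fun p => ⟪e x, B p (e z)⟫_ℂ - ⟪e x, TA H p.1 (A p) T (e z)⟫_ℂ
        with hf
      have hfm : Measurable f := (hB.meas x z).sub (M.ymeas_TA hV hH hA hT x z)
      have hTm := M.ymeas_TA hV hH hA hT x z
      have h1 : ∀ᵐ ω ∂(PP Λ c), g ω = ∫ y, f (ω, y) ∂ν := by
        filter_upwards [h] with ω hω
        have h2 := M.yta_avg (C := fun y => A (ω, y)) (ν := ν) (K := K) (fun y => hA.bdd _)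
          (fun x z => (hA.meas x z).comp (by fun_prop)) hω ω hT (e x) (e z)
        simp only [hf, hg]
        rw [integral_sub, h2]
        · exact Integrable.of_bound (C := L) ((hB.meas x z).comp
            (by fun_prop : Measurable fun y : Y => (ω, y))).aestronglyMeasurable
            (ae_of_all _ fun y => hbd x z _)
        · refine Integrable.of_bound (C := K) (hTm.comp
            (by fun_prop : Measurable fun y : Y => (ω, y))).aestronglyMeasurable
            (ae_of_all _ fun y => ?_)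
          have h3 := norm_inner_TA_le M ω (A (ω, y)) hT (e x) (e z)
          rw [M.ortho.1, M.ortho.1, one_mul, mul_one] at h3
          exact h3.trans (hA.bdd _)
      have h2 : ∫⁻ ω, ‖g ω‖ₑ ∂(PP Λ c) ≤ ∫⁻ p, ‖f p‖ₑ ∂(PY Λ c ν) := by
        unfold PY
        rw [lintegral_prod _ hfm.enorm.aemeasurable]
        refine lintegral_mono_ae ?_
        filter_upwards [h1] with ω hω
        rw [hω]
        exact enorm_integral_le_lintegral_enorm _
      refine h2.trans ?_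
      have h3 : ∫⁻ p, ‖f p‖ₑ ∂(PY Λ c ν) ≤ (∫⁻ p, ‖f p‖ₑ ^ 2 ∂(PY Λ c ν)) ^ (1 / 2 : ℝ) := by
        have h4 := ENNReal.lintegral_mul_le_Lp_mul_Lq (PY Λ c ν) Real.HolderConjugate.two_two
          hfm.enorm.aemeasurable (g := fun _ => 1) aemeasurable_const
        simpa using h4
      refine h3.trans ?_
      refine ENNReal.rpow_le_rpow (lintegral_mono fun p => ?_) (by norm_num)
      gcongr
      simp only [hf]
      rw [← inner_sub_right, ← ofReal_norm, ← ofReal_norm, norm_sub_rev (TA H p.1 (A p) T (e z))]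
      refine ENNReal.ofReal_le_ofReal ?_
      have h4 := norm_inner_le_norm (𝕜 := ℂ) (e x) (B p (e z) - TA H p.1 (A p) T (e z))
      rwa [M.ortho.1 x, one_mul] at h4
  have h2 := (lintegral_eq_zero_iff hgm.enorm).mp key
  filter_upwards [h2] with ω hω
  have h3 : g ω = 0 := by simpa using hω
  exact sub_eq_zero.mp h3

/-- **if the average over the environment is `lam`, then the limit eigenvalue is `lam`** -/
theorem Model.yeig_avg (M : Model c e H) (hν : IsProbabilityMeasure ν)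
    (hBb : ∀ p, ‖B p‖ ≤ K) (hBm : ∀ x z, Measurable fun p => ⟪e x, B p (e z)⟫_ℂ)
    {lam : ℂ} (h : YAvg c ν e B lam) {α : ℝ → ℂ} (hαb : ∀ s, ‖α s‖ ≤ K)
    (hgood : ∀ᵐ r ∂((PY Λ c ν).prod kap), Good e H (fib B r.1.2) φ (r.1.1, r.2))
    (hEig : ∀ᵐ r ∂((PY Λ c ν).prod kap), ∀ x, EigAt e H (fib B r.1.2) φ r.1.1 r.2 x (α r.2)) :
    ∀ᵐ r ∂((PY Λ c ν).prod kap), ∀ x, EigAt e H (fib B r.1.2) φ r.1.1 r.2 x lam := by
  have := PP_prob Λ M.hc
  have := PY_prob (Y := Y) Λ M.hc hν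
  have hre := mp_re2 (Λ := Λ) (ν := ν) M.hc hν
  have h1 : ∀ᵐ p ∂((PP Λ c).prod kap), ∀ᵐ y ∂ν, Good e H (fib B y) φ p ∧
      ∀ x, EigAt e H (fib B y) φ p.1 p.2 x (α p.2) := by
    have h2 : ∀ᵐ r ∂((PY Λ c ν).prod kap), Good e H (fib B r.1.2) φ (r.1.1, r.2) ∧
        ∀ x, EigAt e H (fib B r.1.2) φ r.1.1 r.2 x (α r.2) := by
      filter_upwards [hgood, hEig] with r h1 h2 using ⟨h1, h2⟩
    exact Measure.ae_ae_of_ae_prod (hre.quasiMeasurePreserving.ae h2)
  have h2 := (Measure.quasiMeasurePreserving_fst (μ := PP Λ c) (ν := kap)).ae h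
  have h3 : ∀ᵐ p ∂((PP Λ c).prod kap), ∀ x, Tendsto (fun k =>
      (α p.2 - lam) • xs (H p.1) φ p.2 (e x) k) atTop (𝓝 0) := by
    filter_upwards [h1, h2] with p hp hp2 x
    set xk : ℕ → E := xs (H p.1) φ p.2 (e x) with hxk
    obtain ⟨y0, hy0⟩ := hp.exists
    have hn : Tendsto (fun k => ‖xk k‖ ^ 2) atTop (𝓝 (nl e H φ x p)) := by
      refine (hy0.1.nl x).congr fun k => ?_
      exact n11_eq e H φ k x p.1 p.2
    have hint : Tendsto (fun k => ∫ y, (⟪xk k, B (p.1, y) (xk k)⟫_ℂ - α p.2 * (‖xk k‖ ^ 2 : ℝ)) ∂ν)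
        atTop (𝓝 (∫ _y, (0 : ℂ) ∂ν)) := by
      refine tendsto_integral_filter_of_dominated_convergence
        (fun _ => 2 * K * (nl e H φ x p + 1)) ?_ ?_ (integrable_const _) ?_
      · refine Eventually.of_forall fun k => ?_
        exact ((M.yv_meas (C := fun y => B (p.1, y)) (fun x z => (hBm x z).comp (by fun_prop))
          _ _).sub_const _).aestronglyMeasurable
      · filter_upwards [hn.eventually (gt_mem_nhds (lt_add_one _))] with k hk
        refine ae_of_all _ fun y => ?_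
        have hK0 : 0 ≤ K := (norm_nonneg _).trans (hBb (p.1, y))
        have e1 : ‖⟪xk k, B (p.1, y) (xk k)⟫_ℂ‖ ≤ K * ‖xk k‖ ^ 2 := by
          refine (norm_inner_le_norm (𝕜 := ℂ) _ _).trans ?_
          have := ((B (p.1, y)).le_opNorm (xk k)).trans
            (mul_le_mul_of_nonneg_right (hBb (p.1, y)) (norm_nonneg _))
          calc ‖xk k‖ * ‖B (p.1, y) (xk k)‖ ≤ ‖xk k‖ * (K * ‖xk k‖) :=
                mul_le_mul_of_nonneg_left this (norm_nonneg _)
            _ = K * ‖xk k‖ ^ 2 := by ring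
        have e2 : ‖α p.2 * ((‖xk k‖ ^ 2 : ℝ) : ℂ)‖ ≤ K * ‖xk k‖ ^ 2 := by
          rw [norm_mul, Complex.norm_real, Real.norm_of_nonneg (by positivity)]
          exact mul_le_mul_of_nonneg_right (hαb _) (by positivity)
        calc _ ≤ K * ‖xk k‖ ^ 2 + K * ‖xk k‖ ^ 2 := (norm_sub_le _ _).trans (add_le_add e1 e2)
          _ = 2 * K * ‖xk k‖ ^ 2 := by ring
          _ ≤ _ := mul_le_mul_of_nonneg_left hk.le (by positivity)
      · filter_upwards [hp] with y hy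
        have e1 := (eigAt_iff hy.1.1 φ p.2 x (α p.2)).mp (hy.2 x)
        have e2 : Tendsto (fun k => ‖xk k‖ * ‖fib B y p.1 (xk k) - α p.2 • xk k‖) atTop (𝓝 0) := by
          have e3 : Tendsto (fun k => ‖xk k‖) atTop (𝓝 (√(nl e H φ x p))) := by
            refine hn.sqrt.congr fun k => ?_
            rw [Real.sqrt_sq (norm_nonneg _)]
          have e4 := e3.mul (tendsto_zero_iff_norm_tendsto_zero.mp e1)
          simpa using e4
        refine squeeze_zero_norm (fun k => ?_) e2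
        have e3 : ⟪xk k, B (p.1, y) (xk k)⟫_ℂ - α p.2 * ((‖xk k‖ ^ 2 : ℝ) : ℂ)
            = ⟪xk k, fib B y p.1 (xk k) - α p.2 • xk k⟫_ℂ := by
          rw [inner_sub_right, inner_smul_right, inner_self_eq_norm_sq_to_K]
          push_cast
          rfl
        rw [e3]
        exact norm_inner_le_norm (𝕜 := ℂ) _ _
    rw [integral_zero] at hint
    have hval : ∀ k, ∫ y, (⟪xk k, B (p.1, y) (xk k)⟫_ℂ - α p.2 * (‖xk k‖ ^ 2 : ℝ)) ∂ν
        = (lam - α p.2) * (‖xk k‖ ^ 2 : ℝ) := by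
      intro k
      have hCm : Measurable fun y => ⟪xk k, B (p.1, y) (xk k)⟫_ℂ :=
        M.yv_meas (C := fun y => B (p.1, y)) (fun x z => (hBm x z).comp (by fun_prop)) _ _
      rw [integral_sub, M.yv_avg (C := fun y => B (p.1, y)) (K := K) (fun y => hBb _)
        (fun x z => (hBm x z).comp (by fun_prop)) hp2, inner_self_eq_norm_sq_to_K]
      · simp only [integral_const, probReal_univ, one_smul]
        push_cast
        ring_nf
        rfl
      · refine Integrable.of_bound (C := ‖xk k‖ * (K * ‖xk k‖)) hCm.aestronglyMeasurable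
          (ae_of_all _ fun y => ?_)
        refine (norm_inner_le_norm (𝕜 := ℂ) _ _).trans ?_
        refine mul_le_mul_of_nonneg_left ?_ (norm_nonneg _)
        exact ((B (p.1, y)).le_opNorm _).trans
          (mul_le_mul_of_nonneg_right (hBb _) (norm_nonneg _))
      · exact integrable_const _
    simp_rw [hval] at hint
    -- `|lam - α| ‖x_k‖² → 0`
    have h4 := hint.norm
    rw [norm_zero] at h4
    have h5 : Tendsto (fun k => ‖(α p.2 - lam) • xk k‖ ^ 2) atTop (𝓝 0) := by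
      have h6 := h4.const_mul ‖α p.2 - lam‖
      rw [mul_zero] at h6
      refine h6.congr fun k => ?_
      rw [norm_mul, Complex.norm_real, Real.norm_of_nonneg (by positivity), norm_smul,
        norm_sub_rev lam]
      ring
    rw [tendsto_zero_iff_norm_tendsto_zero]
    have h6 := h5.sqrt
    simpa [Real.sqrt_sq (norm_nonneg _)] using h6
  have h4 := (mp_pk (Λ := Λ) M.hc hν).quasiMeasurePreserving.ae h3
  filter_upwards [hgood, hEig, h4] with r hr1 hr2 hr3 x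
  have e1 := (eigAt_iff hr1.1 φ r.2 x (α r.2)).mp (hr2 x)
  rw [eigAt_iff hr1.1]
  have e2 := e1.add (hr3 x)
  rw [add_zero] at e2
  refine e2.congr fun k => ?_
  module

end Pool.Agent.Lib.MP_562b47_mp
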