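import Mathlib
import Pool.Agent.Lib.MP_562b47_mp.Ye.Avg

/-!
Mean square convergence of the time averages on random vectors.
(Anderson model, MP_562b47_mp.)
-/

open MeasureTheory Set Filter Topology Complex
open scoped Real ENNReal NNReal InnerProductSpace

set_option linter.unusedSectionVars false

namespace Pool.Agent.Lib.MP_562b47_mp

variable {Λ : Type*} [DecidableEq Λ] [AddCommGroup Λ] [Countable Λ] {Y : Type*}
  [MeasurableSpace Y] {E : Type*}
  [NormedAddCommGroup E] [InnerProductSpace ℂ E] [CompleteSpace E] {c : ℝ} {e : Λ → E}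
  {H : (Λ → ℝ) → (E →L[ℂ] E)} {ν : Measure Y} {τ : Λ → Y → Y}
  {A B : (Λ → ℝ) × Y → (E →L[ℂ] E)} {K L : ℝ} {V : Λ → (E ≃ₗᵢ[ℂ] E)}

section gen

variable {P : Type*} [MeasurableSpace P] {X : P → (E →L[ℂ] E)} {ψ : P → E}

theorem Model.rv_meas (M : Model c e H) (hX : ∀ x z, Measurable fun p => ⟪e x, X p (e z)⟫_ℂ)
    (hψ : ∀ x, Measurable fun p => ⟪e x, ψ p⟫_ℂ) (x : Λ) :
    Measurable fun p => ⟪e x, X p (ψ p)⟫_ℂ := by
  refine measurable_of_tendsto_metrizable' (atTop : Filter (Finset Λ))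
    (f := fun s p => ∑ w ∈ s, ⟪e x, X p (e w)⟫_ℂ * ⟪e w, ψ p⟫_ℂ) ?_ ?_
  · intro s
    exact Finset.measurable_fun_sum _ fun w _ => (hX x w).mul (hψ w)
  · rw [tendsto_pi_nhds]
    intro p
    exact M.hasSum_inner (X p) (e x) (ψ p)

theorem Model.rv_meas_sq (M : Model c e H) (hψ : ∀ x, Measurable fun p => ⟪e x, ψ p⟫_ℂ) :
    Measurable fun p => ‖ψ p‖ₑ ^ 2 := by
  simp_rw [M.parseval_enorm]
  exact Measurable.tsum fun x => (hψ x).enorm.pow_const 2

/-- mean square convergence on the basis vectors implies mean square convergence on all random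
vectors, for uniformly bounded families -/
theorem Model.rv_tendsto (M : Model c e H) {μ : Measure P} [IsProbabilityMeasure μ]
    {X : ℝ → P → (E →L[ℂ] E)} {C : ℝ}
    (hX : ∀ᶠ T in atTop, ∀ x z, Measurable fun p => ⟪e x, X T p (e z)⟫_ℂ)
    (hC : ∀ᶠ T in atTop, ∀ p, ‖X T p‖ ≤ C)
    (h : ∀ x, Tendsto (fun T => ∫⁻ p, ‖X T p (e x)‖ₑ ^ 2 ∂μ) atTop (𝓝 0))
    (hψ : ∀ x, Measurable fun p => ⟪e x, ψ p⟫_ℂ) (hψ2 : ∫⁻ p, ‖ψ p‖ₑ ^ 2 ∂μ ≠ ⊤) :
    Tendsto (fun T => ∫⁻ p, ‖X T p (ψ p)‖ₑ ^ 2 ∂μ) atTop (𝓝 0) := by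
  refine tendsto_of_subseq_tendsto fun ns hns => ?_
  obtain ⟨k0, hk0⟩ := eventually_atTop.mp (hns.eventually (hX.and hC))
  set T : ℕ → ℝ := fun k => ns (k + k0) with hT
  have hTt : Tendsto T atTop atTop := hns.comp (tendsto_add_atTop_nat k0)
  have hXT : ∀ k x z, Measurable fun p => ⟪e x, X (T k) p (e z)⟫_ℂ := fun k =>
    (hk0 (k + k0) (Nat.le_add_left _ _)).1
  have hCT : ∀ k p, ‖X (T k) p‖ ≤ C := fun k => (hk0 (k + k0) (Nat.le_add_left _ _)).2
  have hcol : ∀ k x, Measurable fun p => ‖X (T k) p (e x)‖ₑ ^ 2 := fun k x =>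
    M.rv_meas_sq fun w => hXT k w x
  obtain ⟨ms, hms, hae⟩ := exists_subseq_null (μ := μ) (ι := Λ)
    (a := fun x k p => ‖X (T k) p (e x)‖ₑ ^ 2) (fun x k => hcol k x)
    (fun x => by
      refine tendsto_of_tendsto_of_tendsto_of_le_of_le tendsto_const_nhds ((h x).comp hTt)
        (fun _ => bot_le) fun k => ?_
      exact lintegral_mono fun p => min_le_right _ _) strictMono_id
  refine ⟨fun n => ms n + k0, ?_⟩
  have hpt : ∀ᵐ p ∂μ, Tendsto (fun n => ‖X (T (ms n)) p (ψ p)‖ₑ ^ 2) atTop (𝓝 0) := by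
    filter_upwards [hae] with p hp
    have h1 : ∀ x, Tendsto (fun n => X (T (ms n)) p (e x)) atTop (𝓝 0) := by
      intro x
      rw [tendsto_zero_iff_norm_tendsto_zero]
      have h2 := (ENNReal.tendsto_toReal ENNReal.zero_ne_top).comp (hp x)
      have h3 := h2.sqrt
      rw [ENNReal.toReal_zero, Real.sqrt_zero] at h3
      refine h3.congr fun n => ?_
      simp only [Function.comp, id]
      rw [ENNReal.toReal_pow, toReal_enorm, Real.sqrt_sq (norm_nonneg _)]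
    obtain ⟨L, hL, _⟩ := me_limit M.ortho M.tot (fun n => X (T (ms n)) p) (K := C)
      (fun n => hCT _ p) (fun x => (h1 x).cauchySeq)
    have hL0 : L = 0 := me_ext M.ortho M.tot fun x =>
      tendsto_nhds_unique (hL (e x)) (h1 x)
    have h2 := hL (ψ p)
    rw [hL0] at h2
    have h3 := (continuous_enorm.tendsto _).comp h2
    have h4 := ENNReal.Tendsto.pow (n := 2) h3
    simpa using h4
  have hdc := tendsto_lintegral_of_dominated_convergence (μ := μ)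
    (F := fun n p => ‖X (T (ms n)) p (ψ p)‖ₑ ^ 2) (f := fun _ => 0)
    (fun p => ENNReal.ofReal C ^ 2 * ‖ψ p‖ₑ ^ 2)
    (fun n => M.rv_meas_sq fun x => M.rv_meas (hXT _) hψ x)
    (fun n => ae_of_all _ fun p => ?_) ?_ hpt
  · simpa using hdc
  · show ‖X (T (ms n)) p (ψ p)‖ₑ ^ 2 ≤ ENNReal.ofReal C ^ 2 * ‖ψ p‖ₑ ^ 2
    rw [← mul_pow]
    refine pow_le_pow_left' ?_ 2
    have hC0 : 0 ≤ C := (norm_nonneg _).trans (hCT 0 p)
    rw [← ofReal_norm, ← ofReal_norm, ← ENNReal.ofReal_mul hC0]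
    exact ENNReal.ofReal_le_ofReal (((X (T (ms n)) p).le_opNorm _).trans
      (mul_le_mul_of_nonneg_right (hCT _ p) (norm_nonneg _)))
  · rw [lintegral_const_mul _ (M.rv_meas_sq hψ)]
    exact ENNReal.mul_ne_top (by simp) hψ2

end gen

end Pool.Agent.Lib.MP_562b47_mp
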