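import Mathlib
import Pool.Agent.Lib.MP_562b47_mp.Ye.Nbr
import Pool.Agent.Lib.MP_562b47_mp.Transport

/-!
Symmetries of the Anderson operator on `ℤ^d`: signed permutations of the coordinates.
(Anderson model, MP_562b47_mp.)
-/

open MeasureTheory Set Filter Topology Complex
open scoped Real ENNReal NNReal InnerProductSpace

set_option linter.unusedSectionVars false

namespace Pool.Agent.Lib.MP_562b47_mp

section reindex

variable {Λ : Type*} [DecidableEq Λ] [Countable Λ] {X : Type*} [MeasurableSpace X]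

/-- reindexing by a permutation preserves the product law -/
theorem measurePreserving_reindex (μ : Measure X) [IsProbabilityMeasure μ] (σ : Equiv.Perm Λ) :
    MeasurePreserving (fun ω : Λ → X => fun j => ω (σ j))
      (Measure.infinitePi (fun _ : Λ => μ)) (Measure.infinitePi (fun _ : Λ => μ)) := by
  refine ⟨by fun_prop, ?_⟩
  refine Measure.eq_infinitePi _ fun s t ht => ?_
  have hms : MeasurableSet (Set.pi (s : Set Λ) t) := MeasurableSet.pi s.countable_toSet fun i _ => ht i
  rw [Measure.map_apply (by fun_prop) hms]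
  have e1 : (fun ω : Λ → X => fun j => ω (σ j)) ⁻¹' (Set.pi (s : Set Λ) t)
      = Set.pi ((s.map σ.toEmbedding : Finset Λ) : Set Λ) (fun i => t (σ.symm i)) := by
    ext ω
    simp only [mem_preimage, Set.mem_pi, Finset.mem_coe, Finset.mem_map,
      Equiv.coe_toEmbedding]
    constructor
    · rintro h i ⟨j, hj, rfl⟩
      have := h j hj
      simpa using this
    · intro h i hi
      have := h (σ i) ⟨i, hi, rfl⟩
      simpa using this
  rw [e1, Measure.infinitePi_pi _ (fun i _ => ht _), Finset.prod_map]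
  simp

end reindex

variable {d : ℕ}

/-- signed permutation of the coordinates -/
def gperm (ρ : Equiv.Perm (Fin d)) (s : ℤˣ) : Equiv.Perm (Fin d → ℤ) where
  toFun x k := s * x (ρ k)
  invFun x k := s * x (ρ.symm k)
  left_inv x := by
    funext k
    show (s : ℤ) * (s * x (ρ (ρ.symm k))) = x k
    rw [← mul_assoc, Int.units_coe_mul_self, one_mul, Equiv.apply_symm_apply]
  right_inv x := by
    funext k
    show (s : ℤ) * (s * x (ρ.symm (ρ k))) = x k
    rw [← mul_assoc, Int.units_coe_mul_self, one_mul, Equiv.symm_apply_apply]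

theorem gperm_apply (ρ : Equiv.Perm (Fin d)) (s : ℤˣ) (x : Fin d → ℤ) (k : Fin d) :
    gperm ρ s x k = s * x (ρ k) := rfl

theorem gperm_add (ρ : Equiv.Perm (Fin d)) (s : ℤˣ) (x y : Fin d → ℤ) :
    gperm ρ s (x + y) = gperm ρ s x + gperm ρ s y := by
  funext k
  simp only [gperm_apply, Pi.add_apply]
  ring

theorem gperm_neg (ρ : Equiv.Perm (Fin d)) (s : ℤˣ) (x : Fin d → ℤ) :
    gperm ρ s (-x) = -gperm ρ s x := by
  funext k
  simp only [gperm_apply, Pi.neg_apply]
  ring

theorem gperm_zero (ρ : Equiv.Perm (Fin d)) (s : ℤˣ) : gperm ρ s 0 = 0 := by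
  funext k
  simp only [gperm_apply, Pi.zero_apply, mul_zero]

theorem gperm_uv (ρ : Equiv.Perm (Fin d)) (s : ℤˣ) (i : Fin d) :
    gperm ρ s (uv d i) = (s : ℤ) • uv d (ρ.symm i) := by
  funext k
  simp only [gperm_apply, uv, Pi.smul_apply, smul_eq_mul, Pi.single_apply]
  have : (ρ k = i) ↔ (k = ρ.symm i) := by rw [Equiv.eq_symm_apply]
  simp only [this]

theorem lapL_gperm (ρ : Equiv.Perm (Fin d)) (s : ℤˣ) (u : L2 (Fin d → ℤ)) :
    permL (gperm ρ s) (lapL d u) = lapL d (permL (gperm ρ s) u) := by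
  ext j
  rw [permL_apply, lapL_apply, lapL_apply]
  congr 1
  simp only [permL_apply, sub_eq_add_neg j, gperm_add, gperm_neg, gperm_uv]
  set x := gperm ρ s j with hx
  have h1 : ∀ i, u (x + (s : ℤ) • uv d (ρ.symm i)) - u x + (u (x + -((s : ℤ) • uv d (ρ.symm i))) - u x)
      = u (x + uv d (ρ.symm i)) - u x + (u (x - uv d (ρ.symm i)) - u x) := by
    intro i
    rcases Int.units_eq_one_or s with h | h
    · rw [h, Units.val_one, one_smul, sub_eq_add_neg x]
    · rw [h, Units.val_neg, Units.val_one, neg_smul, one_smul, neg_neg, sub_eq_add_neg x]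
      ring
  simp_rw [h1]
  exact (Equiv.sum_comp ρ.symm fun i => u (x + uv d i) - u x + (u (x - uv d i) - u x)).symm

theorem HH_gperm (c : ℝ) (ω : (Fin d → ℤ) → ℝ) (ρ : Equiv.Perm (Fin d)) (s : ℤˣ) (u : Hilb d) :
    permL (gperm ρ s) (HH d c ω u)
      = HH d c (fun j => ω (gperm ρ s j)) (permL (gperm ρ s) u) := by
  unfold HH
  rw [add_apply, add_apply, map_add, lapL_gperm, permL_potL]
  rfl

theorem Gr_gperm {c : ℝ} (hc : 0 < c) (ω : (Fin d → ℤ) → ℝ) (ρ : Equiv.Perm (Fin d)) (s : ℤˣ)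
    {z : ℂ} (hz : 0 < z.im) (x y : Fin d → ℤ) :
    Gr (ee d) (HH d c) (fun j => ω (gperm ρ s j)) z x y
      = Gr (ee d) (HH d c) ω z (gperm ρ s x) (gperm ρ s y) := by
  have hM := model (d := d) hc
  have h1 : permL (gperm ρ s) (ee d (gperm ρ s y)) = ee d y := permL_eb (gperm ρ s) y
  have h2 : permL (gperm ρ s) (ee d (gperm ρ s x)) = ee d x := permL_eb (gperm ρ s) x
  unfold Gr
  rw [← h1, ← Rv_intertwine (hM.sa ω) (hM.sa _) (HH_gperm c ω ρ s) hz.ne', ← h2, inner_permL,
    permL_symm_permL]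

/-- the `2d` neighbours of `0` -/
def nbr (d : ℕ) (p : Fin d × Bool) : Fin d → ℤ := if p.2 then uv d p.1 else -(uv d p.1)

theorem nbr_closure (d : ℕ) : AddSubgroup.closure (Set.range (nbr d)) = ⊤ := by
  rw [eq_top_iff]
  intro a _
  have h1 : a = ∑ i, a i • uv d i := by
    conv_lhs => rw [← Finset.univ_sum_single a]
    refine Finset.sum_congr rfl fun i _ => ?_
    unfold uv
    rw [← Pi.single_smul]
    simp
  rw [h1]
  refine sum_mem fun i _ => zsmul_mem ?_ _
  exact AddSubgroup.subset_closure ⟨(i, true), by simp [nbr]⟩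

/-- the nearest neighbour structure of the Anderson operator -/
theorem symNbr_HB {W : Type*} [NormedAddCommGroup W] [InnerProductSpace ℂ W] [CompleteSpace W]
    (b : HilbertBasis (Fin d → ℤ) ℂ W) {c : ℝ} (hc : 0 < c) :
    SymNbr c (fun x => b x) (HB b c) (nbr d) (2 * d : ℝ) where
  eqn ω z hz := by
    have hsa := isSelfAdjoint_HB b hc ω
    have h1 := Rv_H_apply hsa hz.ne' (b 0)
    have h2 := congrArg (fun u => ⟪b 0, u⟫_ℂ) h1
    rw [HB_basis] at h2
    simp only [zero_add, zero_sub, map_sub, map_smul, map_sum, map_add, inner_sub_right,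
      inner_smul_right, inner_sum, inner_add_right] at h2
    unfold Gr
    rw [Fintype.sum_prod_type]
    simp only [Fintype.sum_bool, nbr, if_true, uv]
    have h3 : ⟪b 0, b 0⟫_ℂ = 1 := by
      rw [inner_self_eq_norm_sq_to_K, b.orthonormal.1 0]
      simp
    rw [h3] at h2
    set G0 := ⟪b 0, Rv (HB b c ω) z (b 0)⟫_ℂ with hG0
    have h4 : ∑ x : Fin d, (⟪b 0, Rv (HB b c ω) z (b (Pi.single x 1))⟫_ℂ - G0 +
          (⟪b 0, Rv (HB b c ω) z (b (-Pi.single x 1))⟫_ℂ - G0))
        = ∑ x : Fin d, (⟪b 0, Rv (HB b c ω) z (b (Pi.single x 1))⟫_ℂ +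
          ⟪b 0, Rv (HB b c ω) z (b (-Pi.single x 1))⟫_ℂ) - 2 * d * G0 := by
      have h5 : ∀ x : Fin d, ⟪b 0, Rv (HB b c ω) z (b (Pi.single x 1))⟫_ℂ - G0 +
          (⟪b 0, Rv (HB b c ω) z (b (-Pi.single x 1))⟫_ℂ - G0)
          = (⟪b 0, Rv (HB b c ω) z (b (Pi.single x 1))⟫_ℂ +
          ⟪b 0, Rv (HB b c ω) z (b (-Pi.single x 1))⟫_ℂ) - 2 * G0 := by
        intro x; ring
      simp_rw [h5]
      rw [Finset.sum_sub_distrib]
      simp only [Finset.sum_const, Finset.card_univ, Fintype.card_fin, nsmul_eq_mul]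
      ring
    rw [h4] at h2
    simp only [Bool.false_eq_true, if_false]
    push_cast
    linear_combination h2
  sym p q := by
    set s : ℤˣ := if p.2 = q.2 then 1 else -1 with hs
    set ρ : Equiv.Perm (Fin d) := Equiv.swap p.1 q.1 with hρ
    have hg : gperm ρ s (nbr d p) = nbr d q := by
      have h1 : ρ.symm p.1 = q.1 := by rw [hρ, Equiv.symm_swap, Equiv.swap_apply_left]
      obtain ⟨i, bi⟩ := p
      obtain ⟨j, bj⟩ := q
      simp only at h1 hs
      cases bi <;> cases bj <;> simp [nbr, gperm_neg, gperm_uv, h1, hs]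
    refine ⟨fun ω j => ω (gperm ρ s j), ?_, fun ω z hz => ?_⟩
    · have := unif_prob hc
      exact measurePreserving_reindex (unif c) (gperm ρ s)
    · have key : ∀ x y, Gr (fun x => b x) (HB b c) (fun j => ω (gperm ρ s j)) z x y
          = Gr (fun x => b x) (HB b c) ω z (gperm ρ s x) (gperm ρ s y) := by
        intro x y
        have := Gr_gperm hc ω ρ s hz x y
        unfold Gr at this ⊢
        rw [inner_Rv_HB b hc _ hz.ne', inner_Rv_HB b hc _ hz.ne']
        exact this
      rw [key, key, gperm_zero, hg]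
      exact ⟨rfl, rfl⟩

end Pool.Agent.Lib.MP_562b47_mp
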