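import Mathlib
import Pool.Agent.Lib.MP_562b47_mp.Ye.Rvec
import Pool.Agent.Lib.MP_562b47_mp.Ye.Sym
import Pool.Agent.Lib.MP_562b47_mp.Qe.Final

/-!
Quantum ergodicity of the absolutely continuous part in an ergodic environment.
(Anderson model, MP_562b47_mp.)
-/

open MeasureTheory Set Filter Topology Complex
open scoped Real ENNReal NNReal InnerProductSpace

set_option linter.unusedSectionVars false

namespace Pool.Agent.Lib.MP_562b47_mp

variable {Λ : Type*} [DecidableEq Λ] [AddCommGroup Λ] [Countable Λ] {Y : Type*}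
  [MeasurableSpace Y] {E : Type*}
  [NormedAddCommGroup E] [InnerProductSpace ℂ E] [CompleteSpace E] {c : ℝ} {e : Λ → E}
  {H : (Λ → ℝ) → (E →L[ℂ] E)} {ν : Measure Y} {τ : Λ → Y → Y}
  {A B : (Λ → ℝ) × Y → (E →L[ℂ] E)} {K L : ℝ} {V : Λ → (E ≃ₗᵢ[ℂ] E)}

theorem norm_TA_le (M : Model c e H) (ω : Λ → ℝ) (X : E →L[ℂ] E) {T : ℝ} (hT : 0 < T) :
    ‖TA H ω X T‖ ≤ ‖X‖ := by
  refine ContinuousLinearMap.opNorm_le_bound _ (norm_nonneg _) fun v => ?_
  by_cases h0 : ‖TA H ω X T v‖ = 0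
  · rw [h0]; positivity
  · have h1 := norm_inner_TA_le M ω X hT (TA H ω X T v) v
    rw [inner_self_eq_norm_sq_to_K] at h1
    have h2 : ‖((‖TA H ω X T v‖ : ℂ)) ^ 2‖ = ‖TA H ω X T v‖ * ‖TA H ω X T v‖ := by
      rw [norm_pow, Complex.norm_real, norm_norm, sq]
    have h3 : ‖TA H ω X T v‖ * ‖TA H ω X T v‖ ≤ ‖TA H ω X T v‖ * (‖X‖ * ‖v‖) := by
      rw [← h2]; exact h1
    exact le_of_mul_le_mul_left h3 (lt_of_le_of_ne (norm_nonneg _) (Ne.symm h0))

theorem YCov.of_covOp' (hV : Trans e V) {A : (Λ → ℝ) → (E →L[ℂ] E)}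
    (hA : CovOp V A) (hK : ∀ ω, ‖A ω‖ ≤ K) :
    YCov c ν τ e (fun p : (Λ → ℝ) × Y => A p.1) K where
  bdd p := hK p.1
  meas x y := ((continuous_const.inner (hA.cont (e y))).measurable).comp measurable_fst
  cov a x y := by
    refine ae_of_all _ fun p => ?_
    have h4 := hA.cov a p.1 (e (y + a))
    rw [hV.apply a y] at h4
    show ⟪e x, A (fun j => p.1 (j + a)) (e y)⟫_ℂ = _
    rw [← h4, ← hV.apply a x, LinearIsometryEquiv.inner_map_map]

/-- **Quantum ergodicity in an ergodic environment** (abstract form) -/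
theorem Model.yquantum_ergodicity (M : Model c e H) (hcov : ShiftCov e H) (hV : Trans e V)
    (hH : CovOp V H) (hE : Env ν τ) (herg : ErgEnv ν τ) {ι : Type*} [Fintype ι] {u : ι → Λ}
    {κ : ℝ} (hu : SymNbr c e H u κ) (hgen : AddSubgroup.closure (Set.range u) = ⊤)
    (hA : YCov c ν τ e A K) :
    ∃ (B : (Λ → ℝ) × Y → (E →L[ℂ] E)) (α : ℝ → ℂ), YCov c ν τ e B K ∧
      (∀ᵐ p ∂(PY Λ c ν), Commute (B p) (H p.1)) ∧ Measurable α ∧ (∀ s, ‖α s‖ ≤ K) ∧
      (∀ ψ : (Λ → ℝ) × Y → E, (∀ x, Measurable fun p => ⟪e x, ψ p⟫_ℂ) →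
        ∫⁻ p, ‖ψ p‖ₑ ^ 2 ∂(PY Λ c ν) ≠ ⊤ →
        Tendsto (fun T : ℝ => ∫⁻ p, ‖TA H p.1 (A p) T (ψ p) - B p (ψ p)‖ₑ ^ 2 ∂(PY Λ c ν))
          atTop (𝓝 0)) ∧
      (∀ n : ℕ, ∫ p, ⟪e 0, ((H p.1) ^ n) (B p (e 0))⟫_ℂ ∂(PY Λ c ν)
        = ∫ p, ⟪e 0, ((H p.1) ^ n) (A p (e 0))⟫_ℂ ∂(PY Λ c ν)) ∧
      ((∀ᵐ p ∂(PY Λ c ν), Commute (A p) (H p.1)) → ∀ᵐ p ∂(PY Λ c ν), B p = A p) ∧
      (∀ᵐ p ∂(PY Λ c ν), ∀ (ψ : E) (μ : Measure ℝ), IsFiniteMeasure μ → IsSpec (H p.1) ψ μ →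
        μ ≪ volume → ∀ f g : BoundedContinuousFunction ℝ ℝ,
        ‖B p ψ - (cfc (⇑f) (H p.1) ψ + I • cfc (⇑g) (H p.1) ψ)‖ ^ 2
          = ∫ s, ‖α s - ((f s : ℂ) + I * (g s : ℂ))‖ ^ 2 ∂μ) ∧
      ∀ lam : ℂ, YAvg c ν e A lam → ∀ᵐ p ∂(PY Λ c ν), ∀ (ψ : E) (μ : Measure ℝ),
        IsFiniteMeasure μ → IsSpec (H p.1) ψ μ → μ ≪ volume → B p ψ = lam • ψ := by
  have hν := hE.prob
  have := PP_prob Λ M.hc
  have := PY_prob (Y := Y) Λ M.hc hν
  obtain ⟨B, hB, hBH, hlim, htr⟩ := ymean_erg M hV hH hE hA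
  obtain ⟨α, hα, hαK, φ, hφ, hgood, hEig⟩ :=
    M.yexists_alpha hcov M.hasDens hE herg hu hgen hB hBH
  have hEig' := Measure.ae_ae_of_ae_prod hEig
  have hcol : ∀ (T : ℝ), 0 < T → ∀ x z, Measurable fun p =>
      ⟪e x, (TA H p.1 (A p) T - B p) (e z)⟫_ℂ := by
    intro T hT x z
    simp_rw [sub_apply, inner_sub_right]
    exact (M.ymeas_TA hV hH hA hT x z).sub (hB.meas x z)
  refine ⟨B, α, hB, hBH, hα, hαK, fun ψ hψ hψ2 => ?_, fun n => ?_, fun hAH => ?_, ?_, ?_⟩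
  · have := M.rv_tendsto (μ := PY Λ c ν) (X := fun T p => TA H p.1 (A p) T - B p) (C := K + K)
      (by filter_upwards [eventually_gt_atTop 0] with T hT using hcol T hT)
      (by
        filter_upwards [eventually_gt_atTop 0] with T hT p
        exact (norm_sub_le _ _).trans (add_le_add ((norm_TA_le M p.1 (A p) hT).trans (hA.bdd p))
          (hB.bdd p)))
      hlim hψ hψ2
    exact this
  · obtain ⟨L, hL⟩ := (hH.pow n).bdd
    exact htr (fun p => (H p.1) ^ n) L (YCov.of_covOp' hV (hH.pow n) hL)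
      (fun p => (Commute.refl (H p.1)).pow_left n)
  · have h4 : ∀ x, ∀ᵐ p ∂(PY Λ c ν), (A p - B p) (e x) = 0 := by
      intro x
      have h5 : ∀ T : ℝ, 0 < T → ∫⁻ p, ‖TA H p.1 (A p) T (e x) - B p (e x)‖ₑ ^ 2 ∂(PY Λ c ν)
          = ∫⁻ p, ‖(A p - B p) (e x)‖ₑ ^ 2 ∂(PY Λ c ν) := by
        intro T hT
        refine lintegral_congr_ae ?_
        filter_upwards [hAH] with p hp
        rw [TA_of_commute hp hT]
        rfl
      have h6 : Tendsto (fun _ : ℝ => ∫⁻ p, ‖(A p - B p) (e x)‖ₑ ^ 2 ∂(PY Λ c ν)) atTop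
          (𝓝 0) := by
        refine (hlim x).congr' ?_
        filter_upwards [eventually_gt_atTop 0] with T hT using h5 T hT
      have h7 := tendsto_nhds_unique h6 tendsto_const_nhds
      have hm : Measurable fun p => ‖(A p - B p) (e x)‖ₑ ^ 2 :=
        M.rv_meas_sq fun w => (hA.ye_Erg_sub hB).meas w x
      have h8 := (lintegral_eq_zero_iff hm).mp h7.symm
      filter_upwards [h8] with p hp
      simpa using hp
    filter_upwards [ae_all_iff.mpr h4] with p hp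
    refine me_ext M.ortho M.tot fun x => ?_
    exact (sub_eq_zero.mp (hp x)).symm
  · filter_upwards [hEig', hBH] with p hp hp2 ψ μ hfin hμ hac f g
    exact qe_spec_eq (M.sa p.1) hp2 (hB.bdd p) hα hαK M.ortho M.tot hφ hp hμ hac f g
  · intro lam hlam
    have hBavg := M.yavg_lim hV hH hE hA hB hlam hlim
    have hEl := M.yeig_avg hν hB.bdd hB.meas hBavg hαK hgood hEig
    have hEl' := Measure.ae_ae_of_ae_prod hEl
    -- `|lam| ≤ K`
    have hlamK : ‖lam‖ ≤ K := by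
      obtain ⟨ω, hω⟩ := hBavg.exists
      have h1 := hω 0 0
      rw [inner_self_eq_norm_sq_to_K, M.ortho.1 0] at h1
      have h2 : lam = ∫ y, ⟪e 0, B (ω, y) (e 0)⟫_ℂ ∂ν := by
        rw [h1]; simp
      rw [h2]
      refine (norm_integral_le_integral_norm _).trans ?_
      have h3 : ∀ y, ‖⟪e 0, B (ω, y) (e 0)⟫_ℂ‖ ≤ K := by
        intro y
        have h4 := norm_inner_le_norm (𝕜 := ℂ) (e 0) (B (ω, y) (e 0))
        rw [M.ortho.1 0, one_mul] at h4
        have h5 := (B (ω, y)).le_opNorm (e 0)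
        rw [M.ortho.1 0, mul_one] at h5
        exact h4.trans (h5.trans (hB.bdd _))
      calc ∫ y, ‖⟪e 0, B (ω, y) (e 0)⟫_ℂ‖ ∂ν ≤ ∫ _y, K ∂ν :=
            integral_mono_of_nonneg (ae_of_all _ fun y => norm_nonneg _) (integrable_const _)
              (ae_of_all _ h3)
        _ = K := by simp
    filter_upwards [hEl', hBH] with p hp hp2 ψ μ hfin hμ hac
    have h1 := qe_spec_eq (M.sa p.1) hp2 (hB.bdd p) (α := fun _ => lam) measurable_const
      (fun _ => hlamK) M.ortho M.tot hφ hp hμ hac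
      (BoundedContinuousFunction.const ℝ lam.re) (BoundedContinuousFunction.const ℝ lam.im)
    have h2 : ∀ r : ℝ, cfc (⇑(BoundedContinuousFunction.const ℝ r)) (H p.1) ψ = (r : ℂ) • ψ := by
      intro r
      have h3 : cfc (⇑(BoundedContinuousFunction.const ℝ r)) (H p.1)
          = algebraMap ℝ (E →L[ℂ] E) r := by
        have := cfc_const r (H p.1) (M.sa p.1)
        exact this
      rw [h3, Algebra.algebraMap_eq_smul_one]
      simp
    rw [h2, h2] at h1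
    have h4 : ∀ s : ℝ, ‖lam - (((BoundedContinuousFunction.const ℝ lam.re) s : ℂ)
        + I * ((BoundedContinuousFunction.const ℝ lam.im) s : ℂ))‖ ^ 2 = 0 := by
      intro s
      simp only [BoundedContinuousFunction.const_apply]
      rw [mul_comm, Complex.re_add_im, sub_self, norm_zero]
      norm_num
    simp_rw [h4] at h1
    rw [integral_zero, sq_eq_zero_iff, norm_eq_zero, sub_eq_zero] at h1
    rw [h1, smul_smul, ← add_smul, mul_comm I, Complex.re_add_im]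

end Pool.Agent.Lib.MP_562b47_mp
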